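import Pool.Agent.P8H33.CS.Gen

/-!
# The generic leading exponents are closed under replacing a variable by a larger one
-/

set_option autoImplicit false
set_option linter.unusedSectionVars false

open MvPolynomial
open scoped MonomialOrder

namespace Pool.Agent.P8H33.CS

variable {K : Type*} [Field K] {σ : Type*} [Fintype σ] [DecidableEq σ] {κ : Type*} [DecidableEq κ]
  {deg : σ → κ} {m : MonomialOrder σ}

/-- replace the variable `x` by `y` -/
noncomputable def repl (a : σ →₀ ℕ) (x y : σ) : σ →₀ ℕ := a.erase x + Finsupp.single y (a x)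

/-! ### coefficients of determinants -/

lemma coeff_prod_of_le {ι : Type*} (s : Finset ι) (f : ι → MvPolynomial σ K) (e : ι → (σ →₀ ℕ))
    (h : ∀ i ∈ s, m.degree (f i) ≼[m] e i) :
    (∏ i ∈ s, f i).coeff (∑ i ∈ s, e i) = ∏ i ∈ s, (f i).coeff (e i) := by
  classical
  induction s using Finset.induction_on with
  | empty => simp
  | insert a s ha ih =>
    rw [Finset.prod_insert ha, Finset.sum_insert ha, Finset.prod_insert ha,
      m.coeff_mul_of_add_of_degree_le (h a (Finset.mem_insert_self _ _)),
      ih fun i hi => h i (Finset.mem_insert_of_mem hi)]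
    refine (m.degree_prod_le).trans ?_
    rw [map_sum, map_sum]
    exact Finset.sum_le_sum fun i hi => h i (Finset.mem_insert_of_mem hi)

lemma coeff_det {ι : Type*} [Fintype ι] [DecidableEq ι] (E : Matrix ι ι (MvPolynomial σ K))
    (e : ι → (σ →₀ ℕ)) (h : ∀ i j, m.degree (E i j) ≼[m] e j) :
    E.det.coeff (∑ j, e j) = (Matrix.of fun i j => (E i j).coeff (e j)).det := by
  rw [Matrix.det_apply, Matrix.det_apply, coeff_sum]
  refine Finset.sum_congr rfl fun p _ => ?_
  have h0 : coeff (∑ j, e j) (∏ i, E (p i) i) =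
      ∏ i, (Matrix.of fun i j => (E i j).coeff (e j)) (p i) i :=
    coeff_prod_of_le (m := m) Finset.univ (fun i => E (p i) i) e fun i _ => h _ _
  rw [← h0]
  rcases Int.units_eq_one_or (Equiv.Perm.sign p) with h1 | h1
  · rw [h1, one_smul, one_smul]
  · rw [h1, Units.neg_smul, one_smul, Units.neg_smul, one_smul, coeff_neg]

/-! ### the torus -/

/-- the polynomial in the torus variables whose value at `τ` is the coefficient at `n` of
`h (τ f)` -/
noncomputable def torPoly (h : Matrix σ σ K) (n : σ →₀ ℕ) (f : MvPolynomial σ K) :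
    MvPolynomial σ K :=
  ∑ a ∈ f.support, monomial a (f.coeff a * (act h (monomial a 1)).coeff n)

lemma torPoly_coeff (h : Matrix σ σ K) (n : σ →₀ ℕ) (f : MvPolynomial σ K) (a : σ →₀ ℕ) :
    (torPoly h n f).coeff a = f.coeff a * (act h (monomial a 1)).coeff n := by
  classical
  rw [torPoly, coeff_sum]
  simp_rw [coeff_monomial]
  rw [Finset.sum_ite_eq']
  split_ifs with h1
  · rfl
  · rw [notMem_support_iff.1 h1, zero_mul]

lemma torPoly_degree (h : Matrix σ σ K) (n : σ →₀ ℕ) (f : MvPolynomial σ K) :
    m.degree (torPoly h n f) ≼[m] m.degree f := by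
  rw [m.degree_le_iff]
  intro a ha
  rw [mem_support_iff, torPoly_coeff] at ha
  exact m.le_degree (mem_support_iff.2 (left_ne_zero_of_mul ha))

lemma act_diagonal_monomial (t : σ → K) (a : σ →₀ ℕ) :
    act (Matrix.diagonal t) (monomial a (1 : K)) = C (eval t (monomial a 1)) * monomial a 1 := by
  have hX : ∀ x, act (Matrix.diagonal t) (X x) = C (t x) * X x := by
    intro x
    rw [act_X, Finset.sum_eq_single x]
    · rw [Matrix.diagonal_apply_eq]
    · intro y _ hy
      rw [Matrix.diagonal_apply_ne _ hy, C_0, zero_mul]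
    · simp
  rw [monomial_eq, C_1, one_mul, Finsupp.prod, map_prod, map_prod, map_prod,
    ← Finset.prod_mul_distrib]
  refine Finset.prod_congr rfl fun x _ => ?_
  rw [map_pow, hX, map_pow, eval_X, mul_pow, map_pow]

lemma eval_torPoly (h : Matrix σ σ K) (t : σ → K) (n : σ →₀ ℕ) (f : MvPolynomial σ K) :
    eval t (torPoly h n f) = (act h (act (Matrix.diagonal t) f)).coeff n := by
  conv_rhs => rw [f.as_sum]
  rw [torPoly, map_sum, map_sum, map_sum, coeff_sum]
  refine Finset.sum_congr rfl fun a _ => ?_
  have e : monomial a (f.coeff a) = C (f.coeff a) * monomial a 1 := by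
    rw [C_mul_monomial, mul_one]
  have hC : ∀ (g : Matrix σ σ K) (c : K), act g (C c) = C c := fun g c => (act g).commutes c
  have e2 : monomial a (f.coeff a * (act h (monomial a 1)).coeff n) =
      C (f.coeff a * (act h (monomial a 1)).coeff n) * monomial a 1 := by
    rw [C_mul_monomial, mul_one]
  rw [e2, e, map_mul, eval_C, map_mul, hC, act_diagonal_monomial, map_mul, map_mul, hC, hC,
    coeff_C_mul, coeff_C_mul]
  ring

/-! ### transvections -/

lemma act_transvection_monomial {x y : σ} (hxy : x ≠ y) (a : σ →₀ ℕ) :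
    act (Matrix.transvection y x (1 : K)) (monomial a 1) =
      ∑ i ∈ Finset.range (a x + 1),
        monomial (a.erase x + Finsupp.single x (a x - i) + Finsupp.single y i)
          ((a x).choose i : K) := by
  have hX : ∀ z, z ≠ x → act (Matrix.transvection y x (1 : K)) (X z) = X z := by
    intro z hz
    rw [act_X, Finset.sum_eq_single z]
    · rw [Matrix.transvection, Matrix.add_apply, Matrix.one_apply_eq,
        Matrix.single_apply_of_col_ne _ _ (Ne.symm hz), add_zero, C_1, one_mul]
    · intro w _ hw
      rw [Matrix.transvection, Matrix.add_apply, Matrix.one_apply_ne hw,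
        Matrix.single_apply_of_col_ne _ _ (Ne.symm hz), add_zero, C_0, zero_mul]
    · simp
  have hXx : act (Matrix.transvection y x (1 : K)) (X x) = X y + X x := by
    rw [act_X, Finset.sum_eq_add y x (Ne.symm hxy)]
    · rw [Matrix.transvection, Matrix.add_apply, Matrix.one_apply_ne (Ne.symm hxy),
        Matrix.single_apply_same, zero_add, C_1, one_mul, Matrix.add_apply, Matrix.one_apply_eq,
        Matrix.single_apply_of_row_ne (Ne.symm hxy), add_zero, C_1, one_mul]
    · rintro w - ⟨hw1, hw2⟩
      rw [Matrix.transvection, Matrix.add_apply, Matrix.one_apply_ne hw2,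
        Matrix.single_apply_of_row_ne (Ne.symm hw1), add_zero, C_0, zero_mul]
    · simp
    · simp
  have h1 : (monomial a (1 : K)) = monomial (a.erase x) 1 * X x ^ (a x) := by
    rw [X_pow_eq_monomial, monomial_mul, one_mul, Finsupp.erase_add_single]
  have h2 : act (Matrix.transvection y x (1 : K)) (monomial (a.erase x) 1) =
      monomial (a.erase x) 1 := by
    rw [monomial_eq, C_1, one_mul, Finsupp.prod, map_prod]
    refine Finset.prod_congr rfl fun z hz => ?_
    have hz' : z ≠ x := by
      rintro rfl
      simp at hz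
    rw [map_pow, hX z hz']
  rw [h1, map_mul, map_pow, h2, hXx, add_pow, Finset.mul_sum]
  refine Finset.sum_congr rfl fun i _ => ?_
  have h3 : ((a x).choose i : MvPolynomial σ K) = C ((a x).choose i : K) := by
    rw [map_natCast]
  rw [X_pow_eq_monomial, X_pow_eq_monomial, monomial_mul, h3, mul_comm (monomial _ _ : MvPolynomial σ K) (C _),
    C_mul_monomial, monomial_mul, one_mul, mul_one, mul_one]

  rw [add_comm (Finsupp.single y i) (Finsupp.single x (a x - i)), ← add_assoc]

lemma transvection_coeff {x y : σ} (hxy : x ≠ y) (a n : σ →₀ ℕ)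
    (h : (act (Matrix.transvection y x (1 : K)) (monomial a 1)).coeff n ≠ 0) :
    ∃ i ≤ a x, n = a.erase x + Finsupp.single x (a x - i) + Finsupp.single y i := by
  classical
  rw [act_transvection_monomial hxy, coeff_sum] at h
  obtain ⟨i, hi, h1⟩ := Finset.exists_ne_zero_of_sum_ne_zero h
  rw [Finset.mem_range] at hi
  refine ⟨i, by omega, ?_⟩
  rw [coeff_monomial] at h1
  by_contra hcon
  rw [if_neg (Ne.symm hcon)] at h1
  exact h1 rfl

lemma transvection_coeff_self {x y : σ} (hxy : x ≠ y) (a : σ →₀ ℕ) :
    (act (Matrix.transvection y x (1 : K)) (monomial a 1)).coeff a = 1 := by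
  classical
  rw [act_transvection_monomial hxy, coeff_sum, Finset.sum_eq_single 0]
  · rw [coeff_monomial, Nat.sub_zero, Finsupp.single_zero, add_zero, Finsupp.erase_add_single,
      if_pos rfl, Nat.choose_zero_right, Nat.cast_one]
  · intro i _ hi
    rw [coeff_monomial, if_neg]
    intro h
    have := DFunLike.congr_fun h y
    simp only [Finsupp.add_apply, Finsupp.single_eq_same, Finsupp.erase_ne (Ne.symm hxy),
      Finsupp.single_eq_of_ne (Ne.symm hxy)] at this
    omega
  · simp

lemma transvection_coeff_repl {x y : σ} (hxy : x ≠ y) (a : σ →₀ ℕ) :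
    (act (Matrix.transvection y x (1 : K)) (monomial a 1)).coeff (repl a x y) = 1 := by
  classical
  rw [act_transvection_monomial hxy, coeff_sum, Finset.sum_eq_single (a x)]
  · rw [coeff_monomial, Nat.sub_self, Finsupp.single_zero, add_zero, repl, if_pos rfl,
      Nat.choose_self, Nat.cast_one]
  · intro i hi hne
    rw [Finset.mem_range] at hi
    rw [coeff_monomial, if_neg]
    intro h
    have := DFunLike.congr_fun h x
    simp only [repl, Finsupp.add_apply, Finsupp.single_eq_same, Finsupp.erase_same,
      Finsupp.single_eq_of_ne hxy] at this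
    omega
  · simp

lemma toSyn_single (i : ℕ) (x : σ) : m.toSyn (Finsupp.single x i) = i • m.toSyn (Finsupp.single x 1)
    := by
  rw [← map_nsmul, Finsupp.smul_single, smul_eq_mul, mul_one]

lemma transvection_le {x y : σ} (hxy : x ≠ y)
    (hlt : m.toSyn (Finsupp.single x 1) ≤ m.toSyn (Finsupp.single y 1)) (a n : σ →₀ ℕ)
    (h : (act (Matrix.transvection y x (1 : K)) (monomial a 1)).coeff n ≠ 0) :
    m.toSyn a ≤ m.toSyn n := by
  obtain ⟨i, hi, rfl⟩ := transvection_coeff hxy a n h
  have e : a = a.erase x + Finsupp.single x (a x - i) + Finsupp.single x i := by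
    rw [add_assoc, ← Finsupp.single_add, Nat.sub_add_cancel hi, Finsupp.erase_add_single]
  conv_lhs => rw [e]
  rw [map_add m.toSyn (a.erase x + Finsupp.single x (a x - i)) (Finsupp.single x i),
    map_add m.toSyn (a.erase x + Finsupp.single x (a x - i)) (Finsupp.single y i),
    toSyn_single i x, toSyn_single i y]
  gcongr

lemma transvection_mem_Grp {x y : σ} (hxy : x ≠ y) (hd : deg x = deg y) :
    Matrix.transvection y x (1 : K) ∈ Grp K deg := by
  refine ⟨by rw [Matrix.det_transvection_of_ne y x (Ne.symm hxy)]; exact isUnit_one, ?_⟩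
  intro z w hzw
  rw [Matrix.transvection, Matrix.add_apply, Matrix.one_apply_ne fun e => hzw (by rw [e]), zero_add]
  by_cases h : y = z ∧ x = w
  · exact absurd (by rw [← h.1, ← h.2, hd]) hzw
  · rw [Matrix.single_apply, if_neg h]

lemma diagonal_mem_Grp {t : σ → K} (ht : ∀ x, t x ≠ 0) : Matrix.diagonal t ∈ Grp K deg := by
  refine ⟨?_, fun x y h => Matrix.diagonal_apply_ne _ fun e => h (by rw [e])⟩
  rw [Matrix.det_diagonal, isUnit_iff_ne_zero]
  exact Finset.prod_ne_zero_iff.2 fun x _ => ht x

/-- a nonzero polynomial has a nonzero value at a point of the torus -/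
lemma exists_torus [Infinite K] {p : MvPolynomial σ K} (hp : p ≠ 0) :
    ∃ t : σ → K, (∀ x, t x ≠ 0) ∧ eval t p ≠ 0 := by
  have hne : p * ∏ x, X x ≠ 0 := mul_ne_zero hp (Finset.prod_ne_zero_iff.2 fun x _ => X_ne_zero x)
  obtain ⟨t, ht⟩ : ∃ t : σ → K, eval t (p * ∏ x, X x) ≠ 0 := by
    by_contra hcon
    push Not at hcon
    exact hne (MvPolynomial.funext fun v => by rw [hcon v, map_zero])
  rw [map_mul, map_prod] at ht
  refine ⟨t, fun x => ?_, left_ne_zero_of_mul ht⟩
  have := Finset.prod_ne_zero_iff.1 (right_ne_zero_of_mul ht) x (Finset.mem_univ x)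
  rwa [eval_X] at this

/-! ### the main property -/

theorem generic_repl [Infinite K] {W : Submodule K (MvPolynomial σ K)} [FiniteDimensional K W]
    {Γ : Set (σ →₀ ℕ)} {g : Matrix σ σ K} (hg : g ∈ Grp K deg)
    (hΓ : LM m (W.map (act g).toLinearMap) = Γ)
    (hmax : ∀ g ∈ Grp K deg, ∀ v, rho m (W.map (act g).toLinearMap) v ≤
        (Γ ∩ {a | m.toSyn v ≤ m.toSyn a}).ncard)
    {u : σ →₀ ℕ} (hu : u ∈ Γ) {x y : σ} (hd : deg x = deg y)
    (hlt : m.toSyn (Finsupp.single x 1) < m.toSyn (Finsupp.single y 1)) :
    repl u x y ∈ Γ := by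
  classical
  by_contra hv
  have hxy : x ≠ y := by
    rintro rfl
    exact lt_irrefl _ hlt
  set v := repl u x y with hvdef
  set W' := W.map (act g).toLinearMap with hW'
  have hΓfin : Γ.Finite := hΓ ▸ LM_finite
  set S : Set (σ →₀ ℕ) := Γ ∩ {a | m.toSyn v ≤ m.toSyn a} with hS
  have hSfin : S.Finite := Set.Finite.inter_of_left hΓfin _
  have : Fintype S := hSfin.fintype
  have hux : u x ≠ 0 := by
    intro h0
    apply hv
    rw [hvdef, repl, h0, Finsupp.single_zero, add_zero, Finsupp.erase_of_notMem_support
      (Finsupp.notMem_support_iff.2 h0)]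
    exact hu
  have huv : m.toSyn u < m.toSyn v := by
    have e : u = u.erase x + Finsupp.single x (u x) := (Finsupp.erase_add_single _ _).symm
    rw [hvdef, repl]
    conv_lhs => rw [e]
    rw [map_add, map_add, toSyn_single (u x) x, toSyn_single (u x) y]
    have : u x • m.toSyn (Finsupp.single x 1) < u x • m.toSyn (Finsupp.single y 1) :=
      nsmul_lt_nsmul_right hux hlt
    gcongr
  set e : Option S → (σ →₀ ℕ) := fun i => i.elim u (fun a => a.1) with he
  set n : Option S → (σ →₀ ℕ) := fun i => i.elim v (fun a => a.1) with hn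
  have hemem : ∀ i, e i ∈ LM m W' := by
    rw [hΓ]
    rintro (_ | a)
    · exact hu
    · exact a.2.1
  choose F hFW hFm hFd using fun i => exists_monic (hemem i)
  set h := Matrix.transvection y x (1 : K) with hh
  have hhG : h ∈ Grp K deg := transvection_mem_Grp hxy hd
  set D : Matrix (Option S) (Option S) K :=
    Matrix.of fun i j => (act h (monomial (e j) 1)).coeff (n i) with hD
  have hD0 : D.det ≠ 0 := by
    intro h0
    obtain ⟨c, hc, h1⟩ := Matrix.exists_mulVec_eq_zero_iff.2 h0
    have hrow : ∀ i, ∑ j, D i j * c j = 0 := fun i => congrFun h1 i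
    have hnone : c none = 0 := by
      have h2 := hrow none
      rw [Fintype.sum_option] at h2
      have h3 : D none none = 1 := transvection_coeff_repl hxy u
      have h4 : ∀ a : S, D none (some a) = 0 := by
        intro a
        by_contra hne
        obtain ⟨i, hi, h5⟩ := transvection_coeff hxy a.1 v hne
        have h6 := transvection_le (K := K) hxy hlt.le a.1 v hne
        have h7 : a.1 = v := m.toSyn.injective (le_antisymm h6 a.2.2)
        exact hv (h7 ▸ a.2.1)
      rw [h3, one_mul, Finset.sum_eq_zero fun a _ => by rw [h4 a, zero_mul], add_zero] at h2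
      exact h2
    apply hc
    funext i
    rcases i with _ | a
    · exact hnone
    by_contra hca
    obtain ⟨a₀, ha₀, hmin⟩ := Finset.exists_min_image
      (Finset.univ.filter fun a : S => c (some a) ≠ 0) (fun a => m.toSyn a.1) ⟨a, by simpa using hca⟩
    simp only [Finset.mem_filter, Finset.mem_univ, true_and] at ha₀ hmin
    have h2 := hrow (some a₀)
    rw [Fintype.sum_option, hnone, mul_zero, zero_add, Finset.sum_eq_single a₀] at h2
    · have h3 : D (some a₀) (some a₀) = 1 := transvection_coeff_self hxy a₀.1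
      rw [h3, one_mul] at h2
      exact ha₀ h2
    · intro b _ hb
      by_cases hcb : c (some b) = 0
      · rw [hcb, mul_zero]
      · have h3 : D (some a₀) (some b) = 0 := by
          by_contra hne
          have h6 := transvection_le (K := K) hxy hlt.le b.1 a₀.1 hne
          exact hb (Subtype.ext (m.toSyn.injective (le_antisymm h6 (hmin b hcb))))
        rw [h3, zero_mul]
    · simp
  set E : Matrix (Option S) (Option S) (MvPolynomial σ K) :=
    Matrix.of fun i j => torPoly h (n i) (F j) with hE
  have hE0 : E.det ≠ 0 := by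
    intro h0
    have h1 := coeff_det (m := m) E e (fun i j => by
      rw [hE, Matrix.of_apply, ← hFd j]
      exact torPoly_degree _ _ _)
    have h2 : (Matrix.of fun i j => (E i j).coeff (e j)) = D := by
      ext i j
      rw [Matrix.of_apply, hE, Matrix.of_apply, torPoly_coeff, hD, Matrix.of_apply]
      have := hFm j
      rw [MonomialOrder.Monic, MonomialOrder.leadingCoeff, hFd] at this
      rw [this, one_mul]
    rw [h0, coeff_zero, h2] at h1
    exact hD0 h1.symm
  obtain ⟨t, ht, htE⟩ := exists_torus hE0
  set g' := h * Matrix.diagonal t with hg'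
  have hg'G : g' ∈ Grp K deg := mul_mem_Grp hhG (diagonal_mem_Grp ht)
  have hev : eval t E.det = (Matrix.of fun i j => (act g' (F j)).coeff (n i)).det := by
    rw [RingHom.map_det]
    congr 1
    ext i j
    rw [RingHom.mapMatrix_apply, Matrix.map_apply, hE, Matrix.of_apply, eval_torPoly, act_mul,
      Matrix.of_apply]
  rw [hev] at htE
  have h1 : Fintype.card (Option S) ≤ rho m (W'.map (act g').toLinearMap) v := by
    have hmem : ∀ j, act g' (F j) ∈ W'.map (act g').toLinearMap :=
      fun j => Submodule.mem_map_of_mem (f := (act g').toLinearMap) (hFW j)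
    refine card_le_rho (w := fun j => act g' (F j)) hmem v fun c hc => ?_
    by_contra hcon
    push Not at hcon
    apply htE
    rw [← Matrix.exists_mulVec_eq_zero_iff]
    refine ⟨c, hc, ?_⟩
    funext i
    have h2 : m.toSyn v ≤ m.toSyn (n i) := by
      rcases i with _ | a
      · exact le_refl _
      · exact a.2.2
    have h3 := hcon (n i) h2
    rw [coeff_sum] at h3
    rw [Matrix.mulVec, dotProduct, Pi.zero_apply, ← h3]
    refine Finset.sum_congr rfl fun j _ => ?_
    rw [Matrix.of_apply, coeff_smul, smul_eq_mul, mul_comm]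
  rw [hW', map_map_act] at h1
  have h2 := hmax (g' * g) (mul_mem_Grp hg'G hg) v
  have h3 : (Γ ∩ {a | m.toSyn v ≤ m.toSyn a}).ncard = Fintype.card S := by
    rw [← Nat.card_coe_set_eq, Nat.card_eq_fintype_card]
  rw [h3] at h2
  rw [Fintype.card_option] at h1
  omega

end Pool.Agent.P8H33.CS
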