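import Mathlib
import Pool.Agent.P8H33.CS.Borel

/-!
# Sets of exponents closed under replacing variables by larger ones
-/

set_option autoImplicit false
set_option linter.unusedSectionVars false

namespace Pool.Agent.P8H33.CS

variable {σ : Type*} [Fintype σ] [DecidableEq σ] {κ : Type*} [DecidableEq κ] {deg : σ → κ}
  {rk : σ → ℕ}

/-- the variables of each block are ranked `1, 2, …` -/
structure Ranking (deg : σ → κ) (rk : σ → ℕ) : Prop where
  pos : ∀ x, 1 ≤ rk x
  inj : ∀ x y, deg x = deg y → rk x = rk y → x = y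
  surj : ∀ x c, 1 ≤ c → c ≤ rk x → ∃ y, deg y = deg x ∧ rk y = c

/-- the largest rank of a variable of the block `k` that occurs in the monomial `a` (`0` if there
is none) -/
def need (deg : σ → κ) (rk : σ → ℕ) (a : σ →₀ ℕ) (k : κ) : ℕ :=
  (Finset.univ.filter fun x => deg x = k ∧ a x ≠ 0).sup rk

/-- closed under replacing a variable by a larger one -/
def ReplClosed (deg : σ → κ) (rk : σ → ℕ) (A : Set (σ →₀ ℕ)) : Prop :=
  ∀ a ∈ A, ∀ x y, deg x = deg y → rk x < rk y → repl a x y ∈ A

lemma le_need {a : σ →₀ ℕ} {x : σ} (hx : a x ≠ 0) : rk x ≤ need deg rk a (deg x) :=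
  Finset.le_sup (f := rk) (by simp [hx])

lemma need_le_iff {a : σ →₀ ℕ} {k : κ} {c : ℕ} :
    need deg rk a k ≤ c ↔ ∀ x, deg x = k → a x ≠ 0 → rk x ≤ c := by
  rw [need, Finset.sup_le_iff]
  simp only [Finset.mem_filter, Finset.mem_univ, true_and, and_imp]

lemma exists_top {a : σ →₀ ℕ} {k : κ} (h : need deg rk a k ≠ 0) :
    ∃ t, deg t = k ∧ a t ≠ 0 ∧ rk t = need deg rk a k := by
  have hne : (Finset.univ.filter fun x => deg x = k ∧ a x ≠ 0).Nonempty := by
    rw [Finset.nonempty_iff_ne_empty]
    intro h0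
    apply h
    rw [need, h0, Finset.sup_empty]
    rfl
  obtain ⟨t, ht, h1⟩ := Finset.exists_mem_eq_sup _ hne rk
  simp only [Finset.mem_filter, Finset.mem_univ, true_and] at ht
  exact ⟨t, ht.1, ht.2, h1.symm⟩

lemma need_mono {a b : σ →₀ ℕ} (h : a ≤ b) (k : κ) : need deg rk a k ≤ need deg rk b k := by
  rw [need_le_iff]
  rintro x rfl hx
  apply le_need
  have := h x
  omega

lemma need_nsmul {a : σ →₀ ℕ} {n : ℕ} (hn : n ≠ 0) : need deg rk (n • a) = need deg rk a := by
  funext k
  rw [need, need]
  congr 1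
  ext x
  simp [hn]

lemma repl_eq_mapDomain (a : σ →₀ ℕ) (x y : σ) :
    repl a x y = Finsupp.mapDomain (fun z => if z = x then y else z) a := by
  conv_rhs => rw [← Finsupp.erase_add_single x a]
  rw [Finsupp.mapDomain_add, Finsupp.mapDomain_single, if_pos rfl, repl]
  congr 1
  have : Finsupp.mapDomain (fun z => if z = x then y else z) (a.erase x) =
      Finsupp.mapDomain id (a.erase x) := by
    apply Finsupp.mapDomain_congr
    intro z hz
    have hz' : z ≠ x := by
      rintro rfl
      simp at hz
    rw [if_neg hz', id]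
  rw [this, Finsupp.mapDomain_id]

/-- the key property of sets closed under replacement -/
lemma exists_nsmul_mem (hrk : Ranking deg rk) {A : Set (σ →₀ ℕ)} (hup : IsUpperSet A)
    (hR : ReplClosed deg rk A) {a b : σ →₀ ℕ} (hb : b ∈ A)
    (hle : ∀ k, need deg rk b k ≤ need deg rk a k) : ∃ n : ℕ, n • a ∈ A := by
  classical
  -- the top variables of `a`
  have hT : ∀ x, ∃ t, b x ≠ 0 → deg t = deg x ∧ a t ≠ 0 ∧ rk t = need deg rk a (deg x) := by
    intro x
    by_cases hx : b x = 0
    · exact ⟨x, fun h => absurd hx h⟩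
    · have h1 : rk x ≤ need deg rk a (deg x) := (le_need hx).trans (hle _)
      have h2 := hrk.pos x
      obtain ⟨t, h3, h4, h5⟩ := exists_top (deg := deg) (rk := rk) (a := a) (k := deg x)
        (by omega)
      exact ⟨t, fun _ => ⟨h3, h4, h5⟩⟩
  choose T hT using hT
  have key : ∀ s : Finset σ, (∀ x ∈ s, b x ≠ 0 ∧ x ≠ T x) →
      Finsupp.mapDomain (fun z => if z ∈ s then T z else z) b ∈ A := by
    intro s
    induction s using Finset.induction_on with
    | empty =>
      intro _
      have : (fun z : σ => if z ∈ (∅ : Finset σ) then T z else z) = id := by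
        funext z; simp
      rw [this, Finsupp.mapDomain_id]
      exact hb
    | insert x s hxs ih =>
      intro hs
      have h1 := ih fun y hy => hs y (Finset.mem_insert_of_mem hy)
      obtain ⟨hx0, hxT⟩ := hs x (Finset.mem_insert_self _ _)
      obtain ⟨h2, h3, h4⟩ := hT x hx0
      have hlt : rk x < rk (T x) := by
        refine lt_of_le_of_ne ?_ fun h => hxT (hrk.inj _ _ h2.symm h)
        rw [h4]
        exact (le_need hx0).trans (hle _)
      have h5 := hR _ h1 x (T x) h2.symm hlt
      rw [repl_eq_mapDomain, ← Finsupp.mapDomain_comp] at h5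
      have : (Finsupp.mapDomain (fun z => if z ∈ insert x s then T z else z) b) =
          Finsupp.mapDomain ((fun z => if z = x then T x else z) ∘
            fun z => if z ∈ s then T z else z) b := by
        apply Finsupp.mapDomain_congr
        intro z hz
        rw [Function.comp_apply]
        by_cases hzs : z ∈ s
        · rw [if_pos hzs, if_pos (Finset.mem_insert_of_mem hzs), if_neg]
          intro hTz
          -- then `x` would be the top variable of its block
          have hz0 := (hs z (Finset.mem_insert_of_mem hzs)).1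
          obtain ⟨h6, h7, h8⟩ := hT z hz0
          apply hxT
          apply hrk.inj _ _ h2.symm
          rw [h4, ← hTz, h8, h6]
        · rw [if_neg hzs]
          by_cases hzx : z = x
          · subst hzx
            rw [if_pos (Finset.mem_insert_self _ _), if_pos rfl]
          · rw [if_neg (by simp [hzx, hzs]), if_neg hzx]
      rw [this]
      exact h5
  have h1 := key (Finset.univ.filter fun x => b x ≠ 0 ∧ x ≠ T x) (by simp)
  refine ⟨∑ x, b x, hup ?_ h1⟩
  intro y
  rw [Finsupp.smul_apply, smul_eq_mul, Finsupp.mapDomain, Finsupp.sum_apply,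
    Finsupp.sum_fintype _ _ (by simp)]
  by_cases hay : a y = 0
  · rw [hay, mul_zero]
    apply le_of_eq
    refine Finset.sum_eq_zero fun z _ => ?_
    by_cases hbz : b z = 0
    · rw [hbz, Finsupp.single_zero, Finsupp.zero_apply]
    · rw [Finsupp.single_apply, if_neg]
      intro h2
      obtain ⟨-, h3, -⟩ := hT z hbz
      by_cases hzT : z = T z
      · rw [if_neg (by simp [← hzT])] at h2
        rw [← hzT, h2] at h3
        exact h3 hay
      · rw [if_pos (by simp [hbz, hzT])] at h2
        rw [h2] at h3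
        exact h3 hay
  · calc ∑ z, (Finsupp.single (if z ∈ Finset.univ.filter (fun x => b x ≠ 0 ∧ x ≠ T x) then T z
            else z) (b z) : σ →₀ ℕ) y ≤ ∑ z, b z := by
          refine Finset.sum_le_sum fun z _ => ?_
          rw [Finsupp.single_apply]
          split_ifs <;> omega
      _ = (∑ z, b z) * 1 := (mul_one _).symm
      _ ≤ (∑ z, b z) * a y := Nat.mul_le_mul_left _ (Nat.one_le_iff_ne_zero.2 hay)

/-- a set of exponents is radical -/
def IsRad (A : Set (σ →₀ ℕ)) : Prop := ∀ (n : ℕ) (a : σ →₀ ℕ), n • a ∈ A → a ∈ A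

lemma mem_of_need_le (hrk : Ranking deg rk) {A : Set (σ →₀ ℕ)} (hup : IsUpperSet A)
    (hR : ReplClosed deg rk A) (hrad : IsRad A) {a b : σ →₀ ℕ} (hb : b ∈ A)
    (hle : ∀ k, need deg rk b k ≤ need deg rk a k) : a ∈ A := by
  obtain ⟨n, hn⟩ := exists_nsmul_mem hrk hup hR hb hle
  exact hrad n a hn

/-- a bound for the need vector that can be attained -/
def InBox (deg : σ → κ) (rk : σ → ℕ) (α : κ → ℕ) : Prop :=
  ∀ k, α k ≠ 0 → ∃ x, deg x = k ∧ rk x = α k

lemma need_inBox (a : σ →₀ ℕ) : InBox deg rk (need deg rk a) := by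
  intro k hk
  obtain ⟨t, h1, -, h2⟩ := exists_top hk
  exact ⟨t, h1, h2⟩

lemma InBox.mono (hrk : Ranking deg rk) {α β : κ → ℕ} (hβ : InBox deg rk β) (h : α ≤ β) :
    InBox deg rk α := by
  intro k hk
  have h1 : α k ≤ β k := h k
  obtain ⟨x, hx1, hx2⟩ := hβ k (by omega)
  obtain ⟨y, hy1, hy2⟩ := hrk.surj x (α k) (by omega) (by omega)
  exact ⟨y, hy1.trans hx1, hy2⟩

/-- the squarefree monomial of top variables -/
noncomputable def topMon [Fintype κ] {α : κ → ℕ} (h : InBox deg rk α) : σ →₀ ℕ :=
  ∑ k, if hk : α k ≠ 0 then Finsupp.single (h k hk).choose 1 else 0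

lemma topMon_apply [Fintype κ] (hrk : Ranking deg rk) {α : κ → ℕ} (h : InBox deg rk α) (x : σ) :
    topMon h x = if rk x = α (deg x) then 1 else 0 := by
  classical
  rw [topMon, Finsupp.finsetSum_apply, Finset.sum_eq_single (deg x)]
  · by_cases hk : α (deg x) ≠ 0
    · rw [dif_pos hk, Finsupp.single_apply]
      obtain ⟨h1, h2⟩ := (h (deg x) hk).choose_spec
      by_cases h3 : rk x = α (deg x)
      · rw [if_pos h3, if_pos (hrk.inj _ _ h1 (h2.trans h3.symm))]
      · rw [if_neg h3, if_neg]
        intro h4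
        exact h3 (by rw [← h2, h4])
    · rw [dif_neg hk, Finsupp.zero_apply, if_neg]
      push Not at hk
      have := hrk.pos x
      omega
  · intro k _ hk
    by_cases hα : α k ≠ 0
    · rw [dif_pos hα, Finsupp.single_apply, if_neg]
      intro h4
      have := (h k hα).choose_spec.1
      rw [h4] at this
      exact hk this.symm
    · rw [dif_neg hα, Finsupp.zero_apply]
  · simp

lemma need_topMon [Fintype κ] (hrk : Ranking deg rk) {α : κ → ℕ} (h : InBox deg rk α) :
    need deg rk (topMon h) = α := by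
  funext k
  apply le_antisymm
  · rw [need_le_iff]
    rintro x rfl hx
    rw [topMon_apply hrk] at hx
    split_ifs at hx with h1
    · exact h1.le
    · exact absurd rfl hx
  · by_cases hk : α k = 0
    · omega
    · obtain ⟨x, rfl, h2⟩ := h k hk
      rw [← h2]
      apply le_need
      rw [topMon_apply hrk, if_pos h2]
      exact one_ne_zero

end Pool.Agent.P8H33.CS
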