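import Mathlib
import Pool.Agent.P8H33.CS.Comb

/-!
# Counting monomials
-/

set_option autoImplicit false
set_option linter.unusedSectionVars false

namespace Pool.Agent.P8H33.CS

variable {σ : Type*} [Fintype σ] [DecidableEq σ] {κ : Type*} [Fintype κ] [DecidableEq κ]
  {deg : σ → κ} {rk : σ → ℕ}

/-- the number of monomials of degree `u` in `c` ordered variables which contain the top one -/
def NN (c u : ℕ) : ℕ :=
  if c = 0 then (if u = 0 then 1 else 0) else (if u = 0 then 0 else Nat.multichoose c (u - 1))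

/-- the value `∑_{α ∈ Δ} ∏_k N(α_k, d_k)` -/
def hfun (Δ : Finset (κ → ℕ)) (d : κ → ℕ) : ℕ := ∑ α ∈ Δ, ∏ k, NN (α k) (d k)

/-- monomials as families of monomials in the blocks -/
noncomputable def blockEquiv (deg : σ → κ) : (σ →₀ ℕ) ≃ ((k : κ) → ({x : σ // deg x = k} → ℕ)) where
  toFun a k x := a x.1
  invFun f := Finsupp.equivFunOnFinite.symm fun x => f (deg x) ⟨x, rfl⟩
  left_inv a := by
    ext x
    rfl
  right_inv f := by
    funext k x
    obtain ⟨x, rfl⟩ := x
    rfl

lemma ncard_block (P : (k : κ) → ({x : σ // deg x = k} → ℕ) → Prop) :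
    {a : σ →₀ ℕ | ∀ k, P k fun x => a x.1}.ncard = ∏ k, {b | P k b}.ncard := by
  rw [← Nat.card_coe_set_eq]
  have e1 : {a : σ →₀ ℕ // ∀ k, P k fun x => a x.1} ≃
      {f : (k : κ) → ({x : σ // deg x = k} → ℕ) // ∀ k, P k (f k)} :=
    (blockEquiv deg).subtypeEquiv fun a => Iff.rfl
  have e2 : {f : (k : κ) → ({x : σ // deg x = k} → ℕ) // ∀ k, P k (f k)} ≃
      ((k : κ) → {b : {x : σ // deg x = k} → ℕ // P k b}) := Equiv.subtypePiEquivPi
  have e : {a : σ →₀ ℕ | ∀ k, P k fun x => a x.1} ≃ ((k : κ) → {b | P k b}) := e1.trans e2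
  rw [Nat.card_congr e, Nat.card_pi]
  rfl

lemma wt_eq_block (a : σ →₀ ℕ) (k : κ) : wt deg a k = ∑ x : {x : σ // deg x = k}, a x.1 := by
  rw [wt_apply, Finset.sum_subtype (p := fun x => deg x = k)]
  simp

/-- monomials in one block supported in `Z` -/
lemma ncard_supported {B : Type*} [Fintype B] [DecidableEq B] (Z : Finset B) (u : ℕ) :
    {b : B → ℕ | ∑ x, b x = u ∧ ∀ x, x ∉ Z → b x = 0}.ncard = Nat.multichoose Z.card u := by
  rw [← Finset.card_finsuppAntidiag_nat_eq_multichoose, ← Set.ncard_coe_finset]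
  apply Set.ncard_congr fun b _ => Finsupp.equivFunOnFinite.symm b
  · rintro b ⟨h1, h2⟩
    rw [Finset.mem_coe, Finset.mem_finsuppAntidiag]
    refine ⟨?_, ?_⟩
    · rw [← h1]
      exact Finset.sum_subset (Finset.subset_univ _) (fun x _ hx => h2 x hx)
    · intro x hx
      by_contra hcon
      rw [Finsupp.mem_support_iff] at hx
      exact hx (h2 x hcon)
  · intro b c _ _ h
    exact Finsupp.equivFunOnFinite.symm.injective h
  · intro a ha
    rw [Finset.mem_coe, Finset.mem_finsuppAntidiag] at ha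
    refine ⟨a, ⟨?_, fun x hx => ?_⟩, by ext; rfl⟩
    · rw [← ha.1]
      symm
      apply Finset.sum_subset (Finset.subset_univ _)
      intro x _ hx
      by_contra hcon
      exact hx (ha.2 (Finsupp.mem_support_iff.2 hcon))
    · by_contra hcon
      exact hx (ha.2 (Finsupp.mem_support_iff.2 hcon))

lemma multichoose_sub {c u : ℕ} (hc : c ≠ 0) (hu : u ≠ 0) :
    Nat.multichoose c u = Nat.multichoose (c - 1) u + NN c u := by
  obtain ⟨c, rfl⟩ := Nat.exists_eq_succ_of_ne_zero hc
  obtain ⟨u, rfl⟩ := Nat.exists_eq_succ_of_ne_zero hu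
  rw [NN, if_neg hc, if_neg hu, Nat.succ_sub_one, Nat.succ_sub_one, Nat.succ_eq_add_one,
    Nat.succ_eq_add_one, Nat.multichoose_succ_succ]

/-- number of variables of rank at most `c` in a block -/
lemma card_le_rank (hrk : Ranking deg rk) {k : κ} {c : ℕ}
    (hc : c ≠ 0 → ∃ x, deg x = k ∧ rk x = c) :
    (Finset.univ.filter fun x : {x : σ // deg x = k} => rk x.1 ≤ c).card = c := by
  have : (Finset.univ.filter fun x : {x : σ // deg x = k} => rk x.1 ≤ c).card =
      (Finset.Icc 1 c).card := by
    apply Finset.card_bij fun x _ => rk x.1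
    · intro x hx
      simp only [Finset.mem_filter, Finset.mem_univ, true_and] at hx
      exact Finset.mem_Icc.2 ⟨hrk.pos _, hx⟩
    · intro x _ y _ h
      exact Subtype.ext (hrk.inj _ _ (x.2.trans y.2.symm) h)
    · intro c' hc'
      rw [Finset.mem_Icc] at hc'
      obtain ⟨x, hx1, hx2⟩ := hc (by omega)
      obtain ⟨y, hy1, hy2⟩ := hrk.surj x c' hc'.1 (by omega)
      refine ⟨⟨y, hy1.trans hx1⟩, ?_, hy2⟩
      simp only [Finset.mem_filter, Finset.mem_univ, true_and]
      omega
  rw [this, Nat.card_Icc, Nat.add_sub_cancel]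

/-- monomials in one block with given degree and need -/
lemma ncard_need_block (hrk : Ranking deg rk) {k : κ} {c : ℕ}
    (hc : c ≠ 0 → ∃ x, deg x = k ∧ rk x = c) (u : ℕ) :
    {b : {x : σ // deg x = k} → ℕ | ∑ x, b x = u ∧
      (Finset.univ.filter fun x => b x ≠ 0).sup (fun x => rk x.1) = c}.ncard = NN c u := by
  -- the monomials of need at most `c'`
  have hle : ∀ c', (c' ≠ 0 → ∃ x, deg x = k ∧ rk x = c') →
      {b : {x : σ // deg x = k} → ℕ | ∑ x, b x = u ∧
        (Finset.univ.filter fun x => b x ≠ 0).sup (fun x => rk x.1) ≤ c'}.ncard =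
      Nat.multichoose c' u := by
    intro c' hc'
    have h0 := ncard_supported (Finset.univ.filter fun x : {x : σ // deg x = k} => rk x.1 ≤ c') u
    rw [card_le_rank hrk hc'] at h0
    rw [← h0]
    congr 1
    ext b
    simp only [Set.mem_ofPred_eq, Finset.sup_le_iff, Finset.mem_filter, Finset.mem_univ, true_and]
    refine and_congr Iff.rfl ⟨fun h x hx => ?_, fun h x hx => ?_⟩
    · by_contra hcon
      exact hx (h x hcon)
    · by_contra hcon
      exact hx (h x hcon)
  by_cases hc0 : c = 0
  · subst hc0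
    have h1 := hle 0 (fun h => absurd rfl h)
    have h2 : {b : {x : σ // deg x = k} → ℕ | ∑ x, b x = u ∧
        (Finset.univ.filter fun x => b x ≠ 0).sup (fun x => rk x.1) = 0} =
        {b : {x : σ // deg x = k} → ℕ | ∑ x, b x = u ∧
        (Finset.univ.filter fun x => b x ≠ 0).sup (fun x => rk x.1) ≤ 0} := by
      ext b
      simp only [Set.mem_ofPred_eq, Nat.le_zero]
    rw [h2, h1, NN, if_pos rfl]
    by_cases hu : u = 0
    · subst hu
      simp
    · obtain ⟨u, rfl⟩ := Nat.exists_eq_succ_of_ne_zero hu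
      rw [if_neg hu]
      exact Nat.multichoose_zero_succ u
  · by_cases hu : u = 0
    · subst hu
      rw [NN, if_neg hc0, if_pos rfl]
      have : {b : {x : σ // deg x = k} → ℕ | ∑ x, b x = 0 ∧
        (Finset.univ.filter fun x => b x ≠ 0).sup (fun x => rk x.1) = c} = ∅ := by
        ext b
        simp only [Set.mem_ofPred_eq, Set.mem_empty_iff_false, iff_false, not_and]
        intro h1 h2
        have h3 : ∀ x, b x = 0 := by
          intro x
          have := Finset.sum_eq_zero_iff.1 h1 x (Finset.mem_univ x)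
          exact this
        apply hc0
        rw [← h2, Finset.filter_false_of_mem (by simp [h3]), Finset.sup_empty]
        rfl
      rw [this, Set.ncard_empty]
    · have h1 := hle c hc
      have h2 := hle (c - 1) (by
        intro h3
        obtain ⟨x, hx1, hx2⟩ := hc hc0
        obtain ⟨y, hy1, hy2⟩ := hrk.surj x (c - 1) (by omega) (by omega)
        exact ⟨y, hy1.trans hx1, hy2⟩)
      have h3 := multichoose_sub hc0 hu
      have h4 : {b : {x : σ // deg x = k} → ℕ | ∑ x, b x = u ∧
          (Finset.univ.filter fun x => b x ≠ 0).sup (fun x => rk x.1) ≤ c} =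
          {b : {x : σ // deg x = k} → ℕ | ∑ x, b x = u ∧
          (Finset.univ.filter fun x => b x ≠ 0).sup (fun x => rk x.1) ≤ c - 1} ∪
          {b : {x : σ // deg x = k} → ℕ | ∑ x, b x = u ∧
          (Finset.univ.filter fun x => b x ≠ 0).sup (fun x => rk x.1) = c} := by
        ext b
        simp only [Set.mem_ofPred_eq, Set.mem_union]
        constructor
        · rintro ⟨h5, h6⟩
          rcases Nat.lt_or_ge ((Finset.univ.filter fun x => b x ≠ 0).sup fun x => rk x.1) c with
            h7 | h7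
          · left; exact ⟨h5, by omega⟩
          · right; exact ⟨h5, by omega⟩
        · rintro (⟨h5, h6⟩ | ⟨h5, h6⟩)
          · exact ⟨h5, by omega⟩
          · exact ⟨h5, by omega⟩
      have hfin : {b : {x : σ // deg x = k} → ℕ | ∑ x, b x = u}.Finite := by
        apply Set.Finite.subset (Set.finite_Iic (fun _ : {x : σ // deg x = k} => u))
        intro b hb x
        rw [← (show ∑ x, b x = u from hb)]
        exact Finset.single_le_sum (f := b) (fun _ _ => Nat.zero_le _) (Finset.mem_univ x)
      have h5 := Set.ncard_union_eq (s := {b : {x : σ // deg x = k} → ℕ | ∑ x, b x = u ∧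
          (Finset.univ.filter fun x => b x ≠ 0).sup (fun x => rk x.1) ≤ c - 1})
          (t := {b : {x : σ // deg x = k} → ℕ | ∑ x, b x = u ∧
          (Finset.univ.filter fun x => b x ≠ 0).sup (fun x => rk x.1) = c}) (by
            rw [Set.disjoint_left]
            rintro b ⟨-, h5⟩ ⟨-, h6⟩
            omega) (hfin.subset fun b hb => hb.1) (hfin.subset fun b hb => hb.1)
      rw [← h4] at h5
      omega

lemma need_eq_block (a : σ →₀ ℕ) (k : κ) : need deg rk a k =
    (Finset.univ.filter fun x : {x : σ // deg x = k} => a x.1 ≠ 0).sup fun x => rk x.1 := by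
  apply le_antisymm
  · rw [need_le_iff]
    rintro x hx hax
    exact Finset.le_sup (f := fun x : {x : σ // deg x = k} => rk x.1) (b := ⟨x, hx⟩) (by simp [hax])
  · rw [Finset.sup_le_iff]
    rintro ⟨x, rfl⟩ hx
    simp only [Finset.mem_filter, Finset.mem_univ, true_and] at hx
    exact le_need hx

/-- the number of monomials of given multidegree and need -/
lemma ncard_need (hrk : Ranking deg rk) {α : κ → ℕ} (hα : InBox deg rk α) (d : κ → ℕ) :
    {a : σ →₀ ℕ | wt deg a = d ∧ need deg rk a = α}.ncard = ∏ k, NN (α k) (d k) := by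
  have h1 : ∀ k, NN (α k) (d k) = {b : {x : σ // deg x = k} → ℕ | ∑ x, b x = d k ∧
      (Finset.univ.filter fun x => b x ≠ 0).sup (fun x => rk x.1) = α k}.ncard :=
    fun k => (ncard_need_block hrk (hα k) (d k)).symm
  simp_rw [h1]
  rw [← ncard_block (deg := deg) (fun k b => ∑ x, b x = d k ∧
      (Finset.univ.filter fun x => b x ≠ 0).sup (fun x => rk x.1) = α k)]
  congr 1
  ext a
  simp only [Set.mem_ofPred_eq, funext_iff]
  rw [← forall_and]
  refine forall_congr' fun k => ?_
  rw [wt_eq_block, need_eq_block]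

/-- the number of monomials of given multidegree supported on `Z` -/
lemma ncard_supp (Z : Finset σ) (d : κ → ℕ) :
    {a : σ →₀ ℕ | wt deg a = d ∧ ∀ x, x ∉ Z → a x = 0}.ncard =
      ∏ k, Nat.multichoose (Z.filter fun x => deg x = k).card (d k) := by
  have h1 : ∀ k, Nat.multichoose (Z.filter fun x => deg x = k).card (d k) =
      {b : {x : σ // deg x = k} → ℕ | ∑ x, b x = d k ∧
        ∀ x, x ∉ (Finset.univ.filter fun x : {x : σ // deg x = k} => x.1 ∈ Z) → b x = 0}.ncard := by
    intro k
    rw [ncard_supported]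
    congr 1
    apply Finset.card_bij (fun x hx => (⟨x, (Finset.mem_filter.1 hx).2⟩ : {x : σ // deg x = k}))
    · intro x hx
      rw [Finset.mem_filter]
      exact ⟨Finset.mem_univ _, (Finset.mem_filter.1 hx).1⟩
    · intro x _ y _ h
      exact congrArg Subtype.val h
    · intro x hx
      rw [Finset.mem_filter] at hx
      exact ⟨x.1, Finset.mem_filter.2 ⟨hx.2, x.2⟩, rfl⟩
  simp_rw [h1]
  rw [← ncard_block (deg := deg) (fun k b => ∑ x, b x = d k ∧
        ∀ x, x ∉ (Finset.univ.filter fun x : {x : σ // deg x = k} => x.1 ∈ Z) → b x = 0)]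
  congr 1
  ext a
  simp only [Set.mem_ofPred_eq, funext_iff, Finset.mem_filter, Finset.mem_univ, true_and]
  constructor
  · rintro ⟨h2, h3⟩ k
    exact ⟨by rw [← h2 k, wt_eq_block], fun x hx => h3 x.1 hx⟩
  · intro h2
    exact ⟨fun k => by rw [← (h2 k).1, wt_eq_block], fun x hx => (h2 (deg x)).2 ⟨x, rfl⟩ hx⟩

/-- counting the monomials whose need lies in `Δ` -/
lemma ncard_need_mem (hrk : Ranking deg rk) {Δ : Finset (κ → ℕ)} (hΔ : ∀ α ∈ Δ, InBox deg rk α)
    (d : κ → ℕ) : {a : σ →₀ ℕ | wt deg a = d ∧ need deg rk a ∈ Δ}.ncard = hfun Δ d := by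
  classical
  have h1 : ∀ α ∈ Δ, ∏ k, NN (α k) (d k) =
      {a : σ →₀ ℕ | wt deg a = d ∧ need deg rk a = α}.ncard :=
    fun α hα => (ncard_need hrk (hΔ α hα) d).symm
  rw [hfun, Finset.sum_congr rfl h1]
  have hfin : ∀ α, {a : σ →₀ ℕ | wt deg a = d ∧ need deg rk a = α}.Finite :=
    fun α => (Mon_finite deg d).subset fun a ha => ha.1
  have h2 : ∀ Δ' : Finset (κ → ℕ), {a : σ →₀ ℕ | wt deg a = d ∧ need deg rk a ∈ Δ'}.ncard =
      ∑ α ∈ Δ', {a : σ →₀ ℕ | wt deg a = d ∧ need deg rk a = α}.ncard := by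
    intro Δ'
    induction Δ' using Finset.induction_on with
    | empty => simp
    | insert α Δ' hα ih =>
      rw [Finset.sum_insert hα, ← ih, ← Set.ncard_union_eq _ (hfin α)
        ((Mon_finite deg d).subset fun a ha => ha.1)]
      · congr 1
        ext a
        simp only [Set.mem_ofPred_eq, Finset.mem_insert, Set.mem_union]
        tauto
      · rw [Set.disjoint_left]
        rintro a ⟨-, h3⟩ ⟨-, h4⟩
        rw [h3] at h4
        exact hα h4
  exact h2 Δ

end Pool.Agent.P8H33.CS
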