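import Mathlib

/-!
# Cartwright-Sturmfels ideals: definitions

`K` is a field, `σ` a finite type of variables, and `deg : σ → κ` gives a standard multigrading of
`K[σ]`: the variable `x` has degree the unit vector `e_{deg x}` of `κ → ℕ`.
-/

set_option autoImplicit false

open MvPolynomial

namespace Pool.Agent.P8H33.CS

section Defs

variable {K : Type*} [Field K] {σ : Type*} [Fintype σ] [DecidableEq σ] {κ : Type*} [DecidableEq κ]

/-- The weights of the standard multigrading: the variable `x` has as degree the unit vector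
`e_{deg x}`. -/
def unitWeight {σ κ : Type*} [DecidableEq κ] (deg : σ → κ) : σ → (κ → ℕ) :=
  fun x => Pi.single (deg x) 1

/-- The ideal `I` is graded (homogeneous for the multigrading). -/
def IsGraded (deg : σ → κ) (I : Ideal (MvPolynomial σ K)) : Prop :=
  ∀ f ∈ I, ∀ d : κ → ℕ, weightedHomogeneousComponent (unitWeight deg) d f ∈ I

/-- The group `G = ∏_k GL(V_k)`, where `V_k` is spanned by the variables of degree `e_k`: the
invertible matrices whose entries at pairs of variables of different degrees vanish. -/
def Grp (K : Type*) [Field K] (deg : σ → κ) : Set (Matrix σ σ K) :=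
  {g | IsUnit g.det ∧ ∀ x y, deg x ≠ deg y → g x y = 0}

/-- The linear substitution `x ↦ ∑_y g_{yx} y`. -/
noncomputable def act (g : Matrix σ σ K) : MvPolynomial σ K →ₐ[K] MvPolynomial σ K :=
  aeval fun x => ∑ y, C (g y x) * X y

/-- `U` is a Zariski open subset of the group `G`: it is the set of the points of `G` where not all
the polynomials (in the matrix entries) from some set vanish. -/
def IsOpenIn (deg : σ → κ) (U : Set (Matrix σ σ K)) : Prop :=
  ∃ P : Set (MvPolynomial (σ × σ) K), U = {g ∈ Grp K deg | ∃ p ∈ P, eval (fun q => g q.1 q.2) p ≠ 0}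

/-- The initial ideal of `I` for the term order `m`. -/
noncomputable def initialIdeal (m : MonomialOrder σ) (I : Ideal (MvPolynomial σ K)) :
    Ideal (MvPolynomial σ K) :=
  Ideal.span {q | ∃ f ∈ I, f ≠ 0 ∧ q = monomial (m.degree f) 1}

/-- `Γ` is the multigraded generic initial ideal of `I` for the term order `m`: the initial ideal
of `g I` is `Γ` for all `g` in some nonempty Zariski open subset of `G`. -/
def IsGin (m : MonomialOrder σ) (deg : σ → κ) (I Γ : Ideal (MvPolynomial σ K)) : Prop :=
  ∃ U : Set (Matrix σ σ K), IsOpenIn deg U ∧ U.Nonempty ∧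
    ∀ g ∈ U, initialIdeal m (Ideal.map (act g) I) = Γ

/-- `I` is a Cartwright-Sturmfels ideal (tested with the term order `m`): it is graded and its
multigraded generic initial ideal is radical. -/
def IsCS (m : MonomialOrder σ) (deg : σ → κ) (I : Ideal (MvPolynomial σ K)) : Prop :=
  IsGraded deg I ∧ ∃ Γ : Ideal (MvPolynomial σ K), IsGin m deg I Γ ∧ Γ.IsRadical

/-- `I^*`, the ideal generated by the elements of `I` which are homogeneous for the multigrading
`deg'`. -/
noncomputable def starIdeal {σ κ : Type*} [DecidableEq κ] (deg' : σ → κ) (I : Ideal (MvPolynomial σ K)) :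
    Ideal (MvPolynomial σ K) :=
  Ideal.span {f | f ∈ I ∧ ∃ d, IsWeightedHomogeneous (unitWeight deg') f d}

/-- The homogenization `f^hom = ∑_i λ_i y^{d - b_i} w_i` of `f = ∑_i λ_i w_i`, where `b_i` is the
degree of the monomial `w_i` and `d` is the componentwise maximum of the `b_i`. The new variables
are `y_k = X (Sum.inr k)`. -/
noncomputable def hom [Fintype κ] (deg' : σ → κ) (f : MvPolynomial σ K) :
    MvPolynomial (σ ⊕ κ) K :=
  ∑ a ∈ f.support, rename Sum.inl (monomial a (f.coeff a)) *
    ∏ k, X (Sum.inr k) ^
      (f.support.sup (Finsupp.weight (unitWeight deg')) k - Finsupp.weight (unitWeight deg') a k)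

/-- `I^hom`, the ideal of `K[σ][y_k : k ∈ κ]` generated by the `f^hom` with `f ∈ I` nonzero. -/
noncomputable def homIdeal [Fintype κ] (deg' : σ → κ) (I : Ideal (MvPolynomial σ K)) :
    Ideal (MvPolynomial (σ ⊕ κ) K) :=
  Ideal.span {F | ∃ f ∈ I, f ≠ 0 ∧ F = hom deg' f}

end Defs

end Pool.Agent.P8H33.CS
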