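import Pool.Agent.P8H33.CS.Refine

/-!
# Elimination: the homogeneous part of a Cartwright-Sturmfels ideal
-/

set_option autoImplicit false
set_option linter.unusedSectionVars false

open MvPolynomial
open scoped MonomialOrder

namespace Pool.Agent.P8H33.CS

section Order

variable {σ ρ : Type*}

/-- the part of an exponent in the first variables -/
noncomputable def lp (b : σ ⊕ ρ →₀ ℕ) : σ →₀ ℕ := (Finsupp.sumFinsuppAddEquivProdFinsupp b).1

/-- the part of an exponent in the second variables -/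
noncomputable def rp (b : σ ⊕ ρ →₀ ℕ) : ρ →₀ ℕ := (Finsupp.sumFinsuppAddEquivProdFinsupp b).2

lemma lp_apply (b : σ ⊕ ρ →₀ ℕ) (x : σ) : lp b x = b (Sum.inl x) := rfl

lemma rp_apply (b : σ ⊕ ρ →₀ ℕ) (y : ρ) : rp b y = b (Sum.inr y) := rfl

lemma lp_mapDomain (a : σ →₀ ℕ) : lp (Finsupp.mapDomain Sum.inl a : σ ⊕ ρ →₀ ℕ) = a := by
  ext x
  rw [lp_apply, Finsupp.mapDomain_apply Sum.inl_injective]

lemma rp_mapDomain (a : σ →₀ ℕ) : rp (Finsupp.mapDomain Sum.inl a : σ ⊕ ρ →₀ ℕ) = 0 := by
  ext y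
  rw [rp_apply, Finsupp.mapDomain_of_notMem_range _ _ (by simp)]
  rfl

lemma eq_mapDomain {b : σ ⊕ ρ →₀ ℕ} (h : rp b = 0) : b = Finsupp.mapDomain Sum.inl (lp b) := by
  ext z
  rcases z with x | y
  · rw [Finsupp.mapDomain_apply Sum.inl_injective, lp_apply]
  · rw [Finsupp.mapDomain_of_notMem_range _ _ (by simp), ← rp_apply, h]
    rfl

lemma lp_mono {a b : σ ⊕ ρ →₀ ℕ} (h : a ≤ b) : lp a ≤ lp b := fun x => h (Sum.inl x)

lemma rp_mono {a b : σ ⊕ ρ →₀ ℕ} (h : a ≤ b) : rp a ≤ rp b := fun x => h (Sum.inr x)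

/-- the term order which compares the exponents of the second variables first -/
noncomputable def elimOrder (m : MonomialOrder σ) (m' : MonomialOrder ρ) :
    MonomialOrder (σ ⊕ ρ) where
  syn := m'.syn ×ₗ m.syn
  toSyn := Finsupp.sumFinsuppAddEquivProdFinsupp.trans (AddEquiv.prodComm.trans
    ((AddEquiv.prodCongr m'.toSyn m.toSyn).trans (toLexAddEquiv _)))
  toSyn_monotone := by
    intro a b hab
    have h1 := m.toSyn_monotone (lp_mono hab)
    have h2 := m'.toSyn_monotone (rp_mono hab)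
    refine Prod.Lex.le_iff.2 ?_
    rcases lt_or_eq_of_le h2 with h3 | h3
    · exact Or.inl h3
    · exact Or.inr ⟨h3, h1⟩

variable {m : MonomialOrder σ} {m' : MonomialOrder ρ}

lemma elim_le_iff {a b : σ ⊕ ρ →₀ ℕ} : (elimOrder m m').toSyn a ≤ (elimOrder m m').toSyn b ↔
    m'.toSyn (rp a) < m'.toSyn (rp b) ∨
      (m'.toSyn (rp a) = m'.toSyn (rp b) ∧ m.toSyn (lp a) ≤ m.toSyn (lp b)) :=
  Prod.Lex.le_iff

lemma rp_eq_zero_of_le {a b : σ ⊕ ρ →₀ ℕ} (hb : rp b = 0)
    (h : (elimOrder m m').toSyn a ≤ (elimOrder m m').toSyn b) : rp a = 0 := by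
  rw [elim_le_iff, hb] at h
  rcases h with h | ⟨h, -⟩
  · rw [map_zero] at h
    exact absurd h (not_lt.2 (m'.zero_le _))
  · exact m'.toSyn.injective h

lemma elim_mapDomain_le {a b : σ →₀ ℕ} :
    (elimOrder m m').toSyn (Finsupp.mapDomain Sum.inl a) ≤
      (elimOrder m m').toSyn (Finsupp.mapDomain Sum.inl b) ↔ m.toSyn a ≤ m.toSyn b := by
  rw [elim_le_iff, rp_mapDomain, rp_mapDomain, lp_mapDomain, lp_mapDomain]
  simp

variable {K : Type*} [Field K]

lemma degree_rename (f : MvPolynomial σ K) (hf : f ≠ 0) :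
    (elimOrder m m').degree (rename Sum.inl f) = Finsupp.mapDomain Sum.inl (m.degree f) := by
  apply (elimOrder m m').toSyn.injective
  apply le_antisymm
  · rw [MonomialOrder.degree_le_iff]
    intro b hb
    obtain ⟨a, rfl, ha⟩ := coeff_rename_ne_zero _ f b (mem_support_iff.1 hb)
    rw [elim_mapDomain_le]
    exact m.le_degree (mem_support_iff.2 ha)
  · apply MonomialOrder.le_degree
    rw [mem_support_iff, coeff_rename_mapDomain _ Sum.inl_injective]
    exact m.coeff_degree_ne_zero_iff.2 hf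

/-- a polynomial whose leading exponent does not involve the second variables does not involve
them at all -/
lemma exists_rename {F : MvPolynomial (σ ⊕ ρ) K} (h : rp ((elimOrder m m').degree F) = 0) :
    ∃ f : MvPolynomial σ K, rename Sum.inl f = F := by
  refine ⟨∑ b ∈ F.support, monomial (lp b) (F.coeff b), ?_⟩
  rw [map_sum]
  conv_rhs => rw [F.as_sum]
  refine Finset.sum_congr rfl fun b hb => ?_
  rw [rename_monomial, ← eq_mapDomain]
  exact rp_eq_zero_of_le h ((elimOrder m m').le_degree hb)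

end Order

section Elim

variable {K : Type*} [Field K] {σ : Type*} [Fintype σ] [DecidableEq σ] {ρ : Type*} [Fintype ρ]
  [DecidableEq ρ] {κ : Type*} [DecidableEq κ] {deg : σ → κ} {deg2 : ρ → κ}
  {m : MonomialOrder σ} {m' : MonomialOrder ρ}

/-- the extension of a group element to the additional variables -/
def extMat (g : Matrix σ σ K) : Matrix (σ ⊕ ρ) (σ ⊕ ρ) K := Matrix.fromBlocks g 0 0 1

lemma extMat_mem {g : Matrix σ σ K} (hg : g ∈ Grp K deg) :
    (extMat g : Matrix (σ ⊕ ρ) (σ ⊕ ρ) K) ∈ Grp K (Sum.elim deg deg2) := by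
  refine ⟨?_, ?_⟩
  · rw [extMat, Matrix.det_fromBlocks_zero₁₂, Matrix.det_one, mul_one]
    exact hg.1
  · rintro (x | x) (y | y) h
    · exact hg.2 x y h
    · rfl
    · rfl
    · rw [extMat, Matrix.fromBlocks_apply₂₂, Matrix.one_apply_ne]
      rintro rfl
      exact h rfl

lemma act_extMat (g : Matrix σ σ K) (f : MvPolynomial σ K) :
    act (extMat g : Matrix (σ ⊕ ρ) (σ ⊕ ρ) K) (rename Sum.inl f) = rename Sum.inl (act g f) := by
  have h : (act (extMat g : Matrix (σ ⊕ ρ) (σ ⊕ ρ) K)).comp (rename Sum.inl) =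
      (rename Sum.inl : MvPolynomial σ K →ₐ[K] MvPolynomial (σ ⊕ ρ) K).comp (act g) := by
    apply MvPolynomial.algHom_ext
    intro x
    rw [AlgHom.comp_apply, AlgHom.comp_apply, rename_X, act_X, act_X, map_sum,
      Fintype.sum_sum_type]
    have h2 : ∑ y : ρ, C ((extMat g : Matrix (σ ⊕ ρ) (σ ⊕ ρ) K) (Sum.inr y) (Sum.inl x)) *
        (X (Sum.inr y) : MvPolynomial (σ ⊕ ρ) K) = 0 := by
      apply Finset.sum_eq_zero
      intro y _
      rw [extMat, Matrix.fromBlocks_apply₂₁, Matrix.zero_apply, C_0, zero_mul]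
    rw [h2, add_zero]
    refine Finset.sum_congr rfl fun y _ => ?_
    rw [extMat, Matrix.fromBlocks_apply₁₁, map_mul, rename_C, rename_X]
  exact congrArg (fun φ => φ f) h

lemma rename_mem_map {g : Matrix σ σ K} (hg : g ∈ Grp K deg)
    {I : Ideal (MvPolynomial (σ ⊕ ρ) K)} {f : MvPolynomial σ K} :
    rename Sum.inl f ∈ Ideal.map (act (extMat g : Matrix (σ ⊕ ρ) (σ ⊕ ρ) K)) I ↔
      f ∈ Ideal.map (act g) (Ideal.comap (rename Sum.inl) I) := by
  have h1 : (extMat g : Matrix (σ ⊕ ρ) (σ ⊕ ρ) K) ∈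
      Grp K (Sum.elim (fun _ => 0) (fun _ => 0) : σ ⊕ ρ → ℕ) :=
    extMat_mem ⟨hg.1, fun x y h => absurd rfl h⟩
  rw [mem_map_act h1, mem_map_act hg, Ideal.mem_comap]
  have h2 : act (extMat g : Matrix (σ ⊕ ρ) (σ ⊕ ρ) K)⁻¹ (rename Sum.inl f) =
      rename Sum.inl (act g⁻¹ f) := by
    conv_lhs => rw [← act_act_inv hg f, ← act_extMat, act_inv_act h1]
  rw [h2]

/-- Elimination preserves radical initial ideals. -/
lemma isRad_comap {g : Matrix σ σ K} (hg : g ∈ Grp K deg) {I : Ideal (MvPolynomial (σ ⊕ ρ) K)}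
    (h : IsRad (EE (elimOrder m m')
      (Ideal.map (act (extMat g : Matrix (σ ⊕ ρ) (σ ⊕ ρ) K)) I))) :
    IsRad (EE m (Ideal.map (act g) (Ideal.comap (rename Sum.inl) I))) := by
  have key : ∀ a : σ →₀ ℕ, a ∈ EE m (Ideal.map (act g) (Ideal.comap (rename Sum.inl) I)) ↔
      (Finsupp.mapDomain Sum.inl a : σ ⊕ ρ →₀ ℕ) ∈ EE (elimOrder m m')
      (Ideal.map (act (extMat g : Matrix (σ ⊕ ρ) (σ ⊕ ρ) K)) I) := by
    intro a
    constructor
    · rintro ⟨f, hf, h0, rfl⟩
      refine ⟨rename Sum.inl f, (rename_mem_map hg).2 hf, ?_, degree_rename f h0⟩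
      intro h1
      exact h0 (rename_injective _ Sum.inl_injective (by rw [h1, map_zero]))
    · rintro ⟨F, hF, h0, h1⟩
      obtain ⟨f, rfl⟩ := exists_rename (m := m) (m' := m') (F := F) (by rw [h1, rp_mapDomain])
      have hf0 : f ≠ 0 := by
        rintro rfl
        exact h0 (map_zero _)
      refine ⟨f, (rename_mem_map hg).1 hF, hf0, ?_⟩
      rw [degree_rename f hf0] at h1
      exact Finsupp.mapDomain_injective Sum.inl_injective h1
  intro n a hn
  rw [key] at hn ⊢
  apply h n
  rw [← Finsupp.mapDomain_smul]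
  exact hn

end Elim

section Main

variable {K : Type*} [Field K] {σ : Type*} [Fintype σ] [DecidableEq σ] {κ : Type*} [Fintype κ]
  [DecidableEq κ] {deg : σ → κ} {τ : Type*} [Fintype τ] [DecidableEq τ]

lemma component_rename {deg' : τ → κ} {ψ : σ → τ} (h : ∀ x, deg' (ψ x) = deg x) (d : κ → ℕ)
    (f : MvPolynomial σ K) :
    weightedHomogeneousComponent (unitWeight deg') d (rename ψ f) =
      rename ψ (weightedHomogeneousComponent (unitWeight deg) d f) := by
  classical
  induction f using MvPolynomial.induction_on' with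
  | monomial a c =>
    have h1 : IsWeightedHomogeneous (unitWeight deg) (monomial a c) (wt deg a) :=
      isWeightedHomogeneous_monomial _ _ _ rfl
    have h2 := rename_homog (K := K) (π := id) h h1
    have h3 : push id (wt deg a) = wt deg a := by
      funext k
      rw [push]
      simp only [id]
      rw [Finset.sum_filter, Finset.sum_ite_eq']
      simp
    rw [h3] at h2
    by_cases hd : wt deg a = d
    · subst hd
      rw [h1.weightedHomogeneousComponent_same, h2.weightedHomogeneousComponent_same]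
    · rw [h1.weightedHomogeneousComponent_ne _ (Ne.symm hd),
        h2.weightedHomogeneousComponent_ne _ (Ne.symm hd), map_zero]
  | add p q hp hq => rw [map_add, map_add, map_add, map_add, hp, hq]

variable {κ' : Type*} [Fintype κ'] [DecidableEq κ'] {deg' : τ → κ'} {ψ : σ → τ} {π : κ → κ'}

/-- **Main theorem.** The ideal of the polynomials whose homogeneous components (for the finer
grading) are mapped to `I` by a renaming of the variables compatible with the gradings is a
Cartwright-Sturmfels ideal, if `I` has the Hilbert function of one. -/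
theorem isCS_star [Infinite K] (m : MonomialOrder σ) (h : ∀ x, deg' (ψ x) = π (deg x))
    {I : Ideal (MvPolynomial τ K)} {Δ : Finset (κ' → ℕ)} (hΔ : HasHF deg' I Δ) :
    IsCS m deg (starIdeal deg (Ideal.comap (rename ψ) I)) := by
  classical
  -- the additional variables
  let ρ := {q : κ × τ // π q.1 = deg' q.2}
  let deg2 : ρ → κ := fun q => q.1.1
  let ψ' : σ ⊕ ρ → τ := Sum.elim ψ (fun q => q.1.2)
  have h' : ∀ z, deg' (ψ' z) = π (Sum.elim deg deg2 z) := by
    rintro (x | q)
    · exact h x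
    · exact q.2.symm
  have hs : ∀ k t, π k = deg' t → ∃ z, Sum.elim deg deg2 z = k ∧ ψ' z = t := by
    intro k t hkt
    exact ⟨Sum.inr ⟨(k, t), hkt⟩, rfl, rfl⟩
  obtain ⟨Δ', hΔ'⟩ := hasHF_star h' hs hΔ
  have e : Ideal.comap (rename Sum.inl : MvPolynomial σ K →ₐ[K] MvPolynomial (σ ⊕ ρ) K)
      (starIdeal (Sum.elim deg deg2) (Ideal.comap (rename ψ') I)) =
      starIdeal deg (Ideal.comap (rename ψ) I) := by
    apply eq_of_homog (deg := deg)
    · intro f hf d
      rw [Ideal.mem_comap] at hf ⊢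
      rw [← component_rename (deg := deg) (deg' := Sum.elim deg deg2)
        (ψ := (Sum.inl : σ → σ ⊕ ρ)) (fun x => rfl)]
      exact isGraded_starIdeal _ _ hf d
    · exact isGraded_starIdeal _
    · intro f d hf
      have h1 : IsWeightedHomogeneous (unitWeight (Sum.elim deg deg2))
          (rename (Sum.inl : σ → σ ⊕ ρ) f) (push id d) :=
        rename_homog (deg := deg) (deg' := Sum.elim deg deg2) (ψ := (Sum.inl : σ → σ ⊕ ρ))
          (π := id) (fun x => rfl) hf
      rw [Ideal.mem_comap, mem_starIdeal_of_homog h1, mem_starIdeal_of_homog hf,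
        Ideal.mem_comap, Ideal.mem_comap, rename_rename]
      rfl
  -- some term order on the additional variables
  let em := Fintype.equivFin ρ
  let _ : LinearOrder ρ := LinearOrder.lift' em em.injective
  apply isCS_of_allRad (isGraded_starIdeal _)
  intro g hg
  rw [← e]
  exact isRad_comap (m' := (MonomialOrder.lex : MonomialOrder ρ)) hg
    (allRad_of_hasHF (isGraded_starIdeal _) hΔ' _ (extMat_mem hg))

/-- The homogeneous part of a Cartwright-Sturmfels ideal for a finer grading is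
Cartwright-Sturmfels. -/
theorem isCS_starIdeal [Infinite K] {deg' : σ → κ'} {π : κ → κ'} (h : ∀ x, deg' x = π (deg x))
    {m₀ : MonomialOrder σ} {I : Ideal (MvPolynomial σ K)} (hI : IsCS m₀ deg' I)
    (m : MonomialOrder σ) : IsCS m deg (starIdeal deg I) := by
  obtain ⟨Δ, hΔ⟩ := hasHF_of_isCS hI
  have h1 := isCS_star (ψ := id) m h hΔ
  have h2 : Ideal.comap (rename id : MvPolynomial σ K →ₐ[K] MvPolynomial σ K) I = I := by
    ext f
    rw [Ideal.mem_comap, rename_id]
    rfl
  rwa [h2] at h1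

end Main

end Pool.Agent.P8H33.CS
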