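import Pool.Agent.P8H33.CS.Elim

/-!
# Adjoining one new variable of each degree
-/

set_option autoImplicit false
set_option linter.unusedSectionVars false

open MvPolynomial
open scoped MonomialOrder

namespace Pool.Agent.P8H33.CS

/-! ### exponents of the variables `σ ⊕ κ` -/

section Exp

variable {σ : Type*} [Fintype σ] [DecidableEq σ] {κ : Type*} [Fintype κ] [DecidableEq κ]
  {deg : σ → κ}

/-- the exponent with the given parts -/
noncomputable def mk (a : σ →₀ ℕ) (b : κ → ℕ) : σ ⊕ κ →₀ ℕ :=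
  Finsupp.equivFunOnFinite.symm (Sum.elim a b)

lemma mk_inl (a : σ →₀ ℕ) (b : κ → ℕ) (x : σ) : mk a b (Sum.inl x) = a x := rfl

lemma mk_inr (a : σ →₀ ℕ) (b : κ → ℕ) (k : κ) : mk a b (Sum.inr k) = b k := rfl

lemma lp_mk (a : σ →₀ ℕ) (b : κ → ℕ) : lp (mk a b) = a := by
  ext x
  rw [lp_apply, mk_inl]

lemma rp_mk (a : σ →₀ ℕ) (b : κ → ℕ) : rp (mk a b) = b := by
  funext k
  rw [rp_apply, mk_inr]

lemma mk_lp_rp (c : σ ⊕ κ →₀ ℕ) : mk (lp c) (rp c) = c := by
  ext z
  rcases z with x | k
  · rw [mk_inl, lp_apply]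
  · rw [mk_inr, rp_apply]

lemma mk_add (a a' : σ →₀ ℕ) (b b' : κ → ℕ) : mk a b + mk a' b' = mk (a + a') (b + b') := by
  ext z
  rcases z with x | k
  · rw [Finsupp.add_apply, mk_inl, mk_inl, mk_inl, Finsupp.add_apply]
  · rw [Finsupp.add_apply, mk_inr, mk_inr, mk_inr, Pi.add_apply]

lemma wt_ext (c : σ ⊕ κ →₀ ℕ) : wt (Sum.elim deg id) c = wt deg (lp c) + rp c := by
  funext k
  rw [wt_apply, Pi.add_apply, wt_apply, Finset.sum_filter, Fintype.sum_sum_type,
    Finset.sum_filter]
  congr 1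
  rw [Finset.sum_eq_single k]
  · exact if_pos rfl
  · intro k' _ hk
    exact if_neg (fun h => hk h)
  · simp

lemma wt_mk (a : σ →₀ ℕ) (b : κ → ℕ) : wt (Sum.elim deg id) (mk a b) = wt deg a + b := by
  rw [wt_ext, lp_mk, rp_mk]

lemma ncard_lp_eq (A : Set (σ →₀ ℕ)) (d : κ → ℕ) :
    {c : σ ⊕ κ →₀ ℕ | lp c ∈ A ∧ wt (Sum.elim deg id) c = d}.ncard =
      Nat.card (Σ e : {e : κ → ℕ // e ≤ d}, {a : σ →₀ ℕ // a ∈ A ∧ wt deg a = e.1}) := by
  rw [← Nat.card_coe_set_eq]
  apply Nat.card_congr
  refine ⟨fun c => ⟨⟨wt deg (lp c.1), ?_⟩, ⟨lp c.1, c.2.1, rfl⟩⟩,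
    fun s => ⟨mk s.2.1 fun k => d k - s.1.1 k, ?_, ?_⟩, ?_, ?_⟩
  · have h := c.2.2
    rw [wt_ext] at h
    exact le_of_le_of_eq le_self_add h
  · rw [lp_mk]
    exact s.2.2.1
  · rw [wt_mk, s.2.2.2]
    funext k
    have : s.1.1 k ≤ d k := s.1.2 k
    simp only [Pi.add_apply]
    omega
  · rintro ⟨c, h1, h2⟩
    apply Subtype.ext
    simp only
    conv_rhs => rw [← mk_lp_rp c]
    congr 1
    funext k
    rw [wt_ext] at h2
    rw [← h2, Pi.add_apply]
    omega
  · rintro ⟨⟨e, he⟩, ⟨a, h1, h2⟩⟩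
    simp only at h2
    subst h2
    apply Sigma.ext
    · apply Subtype.ext
      simp only
      rw [lp_mk]
    · simp only
      congr 1
      · rw [lp_mk]
      · rw [lp_mk]
      · apply proof_irrel_heq

lemma ncard_lp {A B : Set (σ →₀ ℕ)}
    (h : ∀ e, {a | a ∈ A ∧ wt deg a = e}.ncard = {a | a ∈ B ∧ wt deg a = e}.ncard) (d : κ → ℕ) :
    {c : σ ⊕ κ →₀ ℕ | lp c ∈ A ∧ wt (Sum.elim deg id) c = d}.ncard =
      {c : σ ⊕ κ →₀ ℕ | lp c ∈ B ∧ wt (Sum.elim deg id) c = d}.ncard := by
  rw [ncard_lp_eq, ncard_lp_eq]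
  have hf : Finite {e : κ → ℕ // e ≤ d} := Set.finite_Iic d
  have hfin : ∀ (A : Set (σ →₀ ℕ)) (e : {e : κ → ℕ // e ≤ d}),
      Finite {a : σ →₀ ℕ // a ∈ A ∧ wt deg a = e.1} := fun A e =>
    (Mon_finite deg e.1).subset fun a ha => ha.2
  have := Fintype.ofFinite {e : κ → ℕ // e ≤ d}
  rw [Nat.card_sigma, Nat.card_sigma]
  refine Finset.sum_congr rfl fun e _ => ?_
  exact h e.1

/-- the ranking on the extended set of variables: the new variable comes first -/
def rkExt (rk : σ → ℕ) : σ ⊕ κ → ℕ := Sum.elim (fun x => rk x + 1) fun _ => 1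

lemma rkExt_ranking {rk : σ → ℕ} (h : Ranking deg rk) :
    Ranking (Sum.elim deg id) (rkExt rk : σ ⊕ κ → ℕ) where
  pos z := by
    rcases z with x | k
    · exact Nat.le_add_left _ _
    · exact le_refl _
  inj z z' hd hr := by
    rcases z with x | k <;> rcases z' with x' | k'
    · have h1 : rk x + 1 = rk x' + 1 := hr
      rw [h.inj x x' hd (by omega)]
    · have h1 : rk x + 1 = 1 := hr
      have := h.pos x
      omega
    · have h1 : 1 = rk x' + 1 := hr
      have := h.pos x'
      omega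
    · have h1 : k = k' := hd
      rw [h1]
  surj z c h1 h2 := by
    by_cases hc : c = 1
    · exact ⟨Sum.inr (Sum.elim deg id z), rfl, hc.symm⟩
    · rcases z with x | k
      · have h3 : c ≤ rk x + 1 := h2
        obtain ⟨y, hy1, hy2⟩ := h.surj x (c - 1) (by omega) (by omega)
        refine ⟨Sum.inl y, hy1, ?_⟩
        show rk y + 1 = c
        omega
      · have h3 : c ≤ 1 := h2
        omega

lemma need_ext (rk : σ → ℕ) (c : σ ⊕ κ →₀ ℕ) :
    (fun k => need (Sum.elim deg id) (rkExt rk) c k - 1) = need deg rk (lp c) := by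
  funext k
  apply le_antisymm
  · have : need (Sum.elim deg id) (rkExt rk) c k ≤ need deg rk (lp c) k + 1 := by
      rw [need_le_iff]
      rintro (x | k') hk hc
      · have h1 : rk x ≤ need deg rk (lp c) (deg x) := le_need (by rw [lp_apply]; exact hc)
        have h2 : deg x = k := hk
        rw [h2] at h1
        show rk x + 1 ≤ _
        omega
      · show 1 ≤ _
        omega
    omega
  · rw [need_le_iff]
    rintro x rfl hx
    have h1 : rkExt rk (Sum.inl x : σ ⊕ κ) ≤ need (Sum.elim deg id) (rkExt rk) c (deg x) :=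
      le_need (x := (Sum.inl x : σ ⊕ κ)) (by rw [← lp_apply]; exact hx)
    have h2 : rkExt rk (Sum.inl x : σ ⊕ κ) = rk x + 1 := rfl
    omega

end Exp

/-! ### the extended ideal -/

section Ext

variable {K : Type*} [Field K] {σ : Type*} [Fintype σ] [DecidableEq σ] {κ : Type*} [Fintype κ]
  [DecidableEq κ] {deg : σ → κ}

/-- `K[σ ⊕ κ]` as polynomials over `K[σ]` -/
noncomputable def curr (K : Type*) [Field K] (σ κ : Type*) :
    MvPolynomial (σ ⊕ κ) K →ₐ[K] MvPolynomial κ (MvPolynomial σ K) :=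
  aeval (Sum.elim (fun x => C (X x)) fun k => X k)

lemma curr_rename (f : MvPolynomial σ K) :
    curr K σ κ (rename Sum.inl f) = C f := by
  have h : (curr K σ κ).comp (rename Sum.inl) =
      (IsScalarTower.toAlgHom K (MvPolynomial σ K) (MvPolynomial κ (MvPolynomial σ K))) := by
    apply MvPolynomial.algHom_ext
    intro x
    rw [AlgHom.comp_apply, rename_X, curr, aeval_X, Sum.elim_inl]
    rfl
  exact congrArg (fun φ => φ f) h

lemma monomial_mk (a : σ →₀ ℕ) (b : κ → ℕ) (t : K) :
    monomial (mk a b) t = rename Sum.inl (monomial a t) * monomial (mk 0 b) 1 := by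
  have e : Finsupp.mapDomain Sum.inl a + mk 0 b = mk a b := by
    ext z
    rcases z with x | k
    · rw [Finsupp.add_apply, mk_inl, mk_inl, Finsupp.mapDomain_apply Sum.inl_injective,
        Finsupp.zero_apply, add_zero]
    · rw [Finsupp.add_apply, mk_inr, mk_inr, Finsupp.mapDomain_of_notMem_range _ _ (by simp),
        zero_add]
  rw [rename_monomial, monomial_mul, mul_one, e]

lemma monomial_inr (b : κ → ℕ) :
    (monomial (mk 0 b : σ ⊕ κ →₀ ℕ) (1 : K)) = ∏ k, X (Sum.inr k) ^ b k := by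
  have h : (mk 0 b : σ ⊕ κ →₀ ℕ) = ∑ k, Finsupp.single (Sum.inr k) (b k) := by
    ext z
    rw [Finsupp.finsetSum_apply]
    rcases z with x | k
    · rw [mk_inl, Finsupp.zero_apply]
      symm
      apply Finset.sum_eq_zero
      intro k _
      rw [Finsupp.single_apply, if_neg (by simp)]
    · rw [mk_inr, Finset.sum_eq_single k]
      · rw [Finsupp.single_eq_same]
      · intro k' _ hk
        rw [Finsupp.single_apply, if_neg (by simpa using hk)]
      · simp
  rw [h, monomial_sum_one]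
  simp_rw [X_pow_eq_monomial]

lemma curr_monomial (c : σ ⊕ κ →₀ ℕ) (t : K) :
    curr K σ κ (monomial c t) =
      monomial (Finsupp.equivFunOnFinite.symm (rp c)) (monomial (lp c) t) := by
  conv_lhs => rw [← mk_lp_rp c]
  rw [monomial_mk, map_mul, curr_rename, monomial_inr, map_prod]
  have h : ∀ k, curr K σ κ (X (Sum.inr k) ^ rp c k) = X k ^ rp c k := by
    intro k
    rw [map_pow, curr, aeval_X, Sum.elim_inr]
  simp_rw [h]
  rw [monomial_eq (R := MvPolynomial σ K), Finsupp.prod_fintype _ _ (fun k => pow_zero _)]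
  rfl

lemma coeff_curr (F : MvPolynomial (σ ⊕ κ) K) (a : σ →₀ ℕ) (b : κ →₀ ℕ) :
    ((curr K σ κ F).coeff b).coeff a = F.coeff (mk a b) := by
  classical
  induction F using MvPolynomial.induction_on' with
  | monomial c t =>
    rw [curr_monomial, coeff_monomial, coeff_monomial]
    have e : (Finsupp.equivFunOnFinite.symm (rp c) : κ →₀ ℕ) = rp c := by
      ext k
      rfl
    rw [e]
    by_cases h1 : rp c = b
    · rw [if_pos h1, coeff_monomial]
      by_cases h2 : lp c = a
      · rw [if_pos h2, if_pos]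
        rw [← h1, ← h2, mk_lp_rp]
      · rw [if_neg h2, if_neg]
        rintro rfl
        exact h2 (lp_mk _ _)
    · rw [if_neg h1, coeff_zero, if_neg]
      rintro rfl
      exact h1 (by ext k; rw [rp_mk])
  | add p q hp hq => rw [map_add, coeff_add, coeff_add, coeff_add, hp, hq]

lemma coeff_curr_mem {I : Ideal (MvPolynomial σ K)} {F : MvPolynomial (σ ⊕ κ) K}
    (hF : F ∈ Ideal.map (rename Sum.inl) I) (b : κ →₀ ℕ) : (curr K σ κ F).coeff b ∈ I := by
  have h1 : curr K σ κ F ∈ Ideal.map (C : MvPolynomial σ K →+* _) I := by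
    have h2 : Ideal.map (rename Sum.inl : MvPolynomial σ K →ₐ[K] MvPolynomial (σ ⊕ κ) K) I ≤
        Ideal.comap (curr K σ κ) (Ideal.map (C : MvPolynomial σ K →+* _) I) := by
      rw [Ideal.map_le_iff_le_comap]
      intro f hf
      rw [Ideal.mem_comap, Ideal.mem_comap, curr_rename]
      exact Ideal.mem_map_of_mem _ hf
    exact h2 hF
  exact mem_map_C_iff.1 h1 b

lemma EE_ext {m : MonomialOrder σ} {m' : MonomialOrder κ} (I : Ideal (MvPolynomial σ K)) :
    EE (elimOrder m m') (Ideal.map (rename Sum.inl) I) = {c | lp c ∈ EE m I} := by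
  classical
  ext c
  constructor
  · rintro ⟨F, hF, h0, rfl⟩
    set c := (elimOrder m m').degree F with hc
    have hcF : F.coeff c ≠ 0 := (elimOrder m m').coeff_degree_ne_zero_iff.2 h0
    have hcoef : ∀ a, ((curr K σ κ F).coeff (rp c)).coeff a = F.coeff (mk a (rp c)) :=
      fun a => coeff_curr F a (rp c)
    have h1 : ((curr K σ κ F).coeff (rp c)).coeff (lp c) ≠ 0 := by
      rw [hcoef, mk_lp_rp]
      exact hcF
    refine ⟨(curr K σ κ F).coeff (rp c), coeff_curr_mem hF _, ?_, ?_⟩
    · intro h2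
      rw [h2, coeff_zero] at h1
      exact h1 rfl
    · apply m.toSyn.injective
      apply le_antisymm
      · rw [MonomialOrder.degree_le_iff]
        intro a ha
        rw [mem_support_iff, hcoef] at ha
        have h3 := (elimOrder m m').le_degree (mem_support_iff.2 ha)
        rw [elim_le_iff, ← hc, lp_mk] at h3
        have h4 : rp (mk a (rp c)) = rp c := by
          ext k
          rw [rp_mk]
        rw [h4] at h3
        rcases h3 with h3 | h3
        · exact absurd h3 (lt_irrefl _)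
        · exact h3.2
      · exact m.le_degree (mem_support_iff.2 h1)
  · rintro ⟨f, hf, h0, h1⟩
    have h2 : rename (Sum.inl : σ → σ ⊕ κ) f ≠ 0 := fun h =>
      h0 (rename_injective _ Sum.inl_injective (by rw [h, map_zero]))
    have h3 : monomial (mk 0 (rp c) : σ ⊕ κ →₀ ℕ) (1 : K) ≠ 0 := by simp
    refine ⟨rename Sum.inl f * monomial (mk 0 (rp c)) 1,
      Ideal.mul_mem_right _ _ (Ideal.mem_map_of_mem _ hf), mul_ne_zero h2 h3, ?_⟩
    rw [MonomialOrder.degree_mul h2 h3, degree_rename f h0, MonomialOrder.degree_monomial,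
      if_neg one_ne_zero, h1]
    ext z
    rcases z with x | k
    · rw [Finsupp.add_apply, Finsupp.mapDomain_apply Sum.inl_injective, mk_inl, lp_apply,
        Finsupp.zero_apply, add_zero]
    · rw [Finsupp.add_apply, Finsupp.mapDomain_of_notMem_range _ _ (by simp), mk_inr, rp_apply,
        zero_add]

attribute [local instance] MvPolynomial.weightedGradedAlgebra

lemma isGraded_ext {I : Ideal (MvPolynomial σ K)} (hI : IsGraded deg I) :
    IsGraded (Sum.elim deg id)
      (Ideal.map (rename (Sum.inl : σ → σ ⊕ κ) : MvPolynomial σ K →ₐ[K] _) I) := by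
  classical
  have e : Ideal.map (rename (Sum.inl : σ → σ ⊕ κ) : MvPolynomial σ K →ₐ[K] _) I =
      Ideal.span {F | ∃ f ∈ I, (∃ d, IsWeightedHomogeneous (unitWeight deg) f d) ∧
        F = rename Sum.inl f} := by
    apply le_antisymm
    · rw [Ideal.map_le_iff_le_comap]
      intro f hf
      rw [Ideal.mem_comap, ← finsum_weightedHomogeneousComponent (unitWeight deg) f]
      rw [← Ideal.mem_comap]
      apply finsum_induction (fun x => x ∈ Ideal.comap _ _) (Ideal.zero_mem _)
        (fun _ _ => Ideal.add_mem _)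
      intro d
      rw [Ideal.mem_comap]
      apply Ideal.subset_span
      exact ⟨_, hI f hf d, ⟨d, weightedHomogeneousComponent_isWeightedHomogeneous _ _⟩, rfl⟩
    · rw [Ideal.span_le]
      rintro _ ⟨f, hf, -, rfl⟩
      exact Ideal.mem_map_of_mem _ hf
  have h : (Ideal.map (rename (Sum.inl : σ → σ ⊕ κ) : MvPolynomial σ K →ₐ[K] _) I).IsHomogeneous
      (weightedHomogeneousSubmodule K (unitWeight (Sum.elim deg id))) := by
    rw [e]
    apply Ideal.homogeneous_span
    rintro _ ⟨f, -, ⟨d, hd⟩, rfl⟩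
    exact ⟨push id d, rename_homog (deg' := Sum.elim deg id) (π := id) (fun x => rfl) hd⟩
  intro f hf d
  exact weightedHomogeneousComponent_mem_of_mem K (unitWeight _) h hf d

/-- the Hilbert function of the extended ideal -/
theorem hasHF_ext {I : Ideal (MvPolynomial σ K)} (hI : IsGraded deg I) {Δ : Finset (κ → ℕ)}
    (hΔ : HasHF deg I Δ) (m : MonomialOrder σ) :
    ∃ Δ', HasHF (Sum.elim deg id)
      (Ideal.map (rename (Sum.inl : σ → σ ⊕ κ) : MvPolynomial σ K →ₐ[K] _) I) Δ' := by
  classical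
  have hfin : {α : κ → ℕ | (fun k => α k - 1) ∈ Δ}.Finite := by
    refine Set.Finite.subset (Set.finite_Iic fun k => (∑ β ∈ Δ, β k) + 1) ?_
    intro α hα k
    have := Finset.single_le_sum (f := fun β : κ → ℕ => β k) (fun _ _ => Nat.zero_le _) hα
    show α k ≤ (∑ β ∈ Δ, β k) + 1
    omega
  have hmem : ∀ α, α ∈ hfin.toFinset ↔ (fun k => α k - 1) ∈ Δ := fun α => by
    rw [Set.Finite.mem_toFinset]; rfl
  have hcard : ∀ k, (Finset.univ.filter fun z : σ ⊕ κ => Sum.elim deg id z = k).card =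
      (Finset.univ.filter fun x => deg x = k).card + 1 := by
    intro k
    rw [Finset.card_filter, Fintype.sum_sum_type, Finset.card_filter]
    congr 1
    rw [Finset.sum_eq_single k]
    · exact if_pos rfl
    · intro k' _ hk
      exact if_neg (fun h => hk h)
    · simp
  have hrk := rkm_ranking m deg
  have hrk' := rkExt_ranking hrk
  have hbox : ∀ α ∈ hfin.toFinset, ∀ k,
      α k ≤ (Finset.univ.filter fun z : σ ⊕ κ => Sum.elim deg id z = k).card := by
    intro α hα k
    have h1 := hΔ.1 _ ((hmem α).1 hα) k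
    rw [hcard]
    omega
  refine ⟨hfin.toFinset, hbox, fun d => ?_⟩
  -- some term order on the additional variables
  let em := Fintype.equivFin κ
  let _ : LinearOrder κ := LinearOrder.lift' em em.injective
  rw [finrank_hpart (m := elimOrder m (MonomialOrder.lex : MonomialOrder κ)) (isGraded_ext hI),
    EE_ext, ← compl_count (deg := Sum.elim deg id) (G := {c | lp c ∈ EE m I}) d]
  congr 1
  rw [← ncard_need_mem hrk' (fun α hα => (inBox_iff hrk').2 (hbox α hα))]
  have h1 := ncard_lp (deg := deg) (A := {a | a ∉ EE m I}) (B := {a | need deg (rkm m deg) a ∈ Δ})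
    (by
      intro e
      have h2 := compl_count (deg := deg) (G := EE m I) e
      have h3 := hΔ.2 e
      rw [finrank_hpart (m := m) hI] at h3
      have h4 := ncard_need_mem hrk (fun α hα => (inBox_iff hrk).2 (hΔ.1 α hα)) e
      have h5 : {a | a ∈ {a | need deg (rkm m deg) a ∈ Δ} ∧ wt deg a = e} =
          {a | wt deg a = e ∧ need deg (rkm m deg) a ∈ Δ} := by
        ext a
        simp only [Set.mem_ofPred_eq]
        tauto
      rw [h5, h4]
      have h6 : {a | a ∈ {a | a ∉ EE m I} ∧ wt deg a = e} = {a | a ∉ EE m I ∧ wt deg a = e} := rfl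
      rw [h6]
      omega) d
  have h7 : {c : σ ⊕ κ →₀ ℕ | wt (Sum.elim deg id) c = d ∧
      need (Sum.elim deg id) (rkExt (rkm m deg)) c ∈ hfin.toFinset} =
      {c : σ ⊕ κ →₀ ℕ | lp c ∈ {a | need deg (rkm m deg) a ∈ Δ} ∧
        wt (Sum.elim deg id) c = d} := by
    ext c
    simp only [Set.mem_ofPred_eq]
    rw [hmem, need_ext]
    tauto
  rw [h7, ← h1]
  rfl

end Ext

end Pool.Agent.P8H33.CS
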