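import Pool.Agent.P8H33.CS.Grp

/-!
# Generic leading exponents
-/

set_option autoImplicit false
set_option linter.unusedSectionVars false

open MvPolynomial

namespace Pool.Agent.P8H33.CS

variable {K : Type*} [Field K] {σ : Type*} [Fintype σ] [DecidableEq σ] {κ : Type*} [DecidableEq κ]
  {deg : σ → κ} {m : MonomialOrder σ}

/-- the value of a polynomial in the entries of a matrix -/
noncomputable abbrev ev (g : Matrix σ σ K) (p : MvPolynomial (σ × σ) K) : K :=
  eval (fun q => g q.1 q.2) p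

/-! ### The group is irreducible -/

/-- the off-block variables are set to zero -/
noncomputable def restr (deg : σ → κ) :
    MvPolynomial (σ × σ) K →ₐ[K] MvPolynomial {q : σ × σ // deg q.1 = deg q.2} K :=
  aeval fun q => if h : deg q.1 = deg q.2 then X ⟨q, h⟩ else 0

lemma eval_restr {g : Matrix σ σ K} (hg : g ∈ Grp K deg) (p : MvPolynomial (σ × σ) K) :
    eval (fun q : {q : σ × σ // deg q.1 = deg q.2} => g q.1.1 q.1.2) (restr deg p) = ev g p := by
  induction p using MvPolynomial.induction_on with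
  | C a => simp [restr]
  | add p q hp hq =>
    rw [map_add, map_add, hp, hq]
    exact (map_add _ _ _).symm
  | mul_X p q hp =>
    have e : ev g (p * X q) = ev g p * g q.1 q.2 := by simp [ev]
    rw [map_mul, map_mul, hp, e, restr, aeval_X]
    by_cases h : deg q.1 = deg q.2
    · rw [dif_pos h, eval_X]
    · rw [dif_neg h, map_zero, hg.2 _ _ h]

lemma exists_ne_zero [Infinite K] {p q : MvPolynomial (σ × σ) K}
    (hp : ∃ g ∈ Grp K deg, ev g p ≠ 0) (hq : ∃ g ∈ Grp K deg, ev g q ≠ 0) :
    ∃ g ∈ Grp K deg, ev g p ≠ 0 ∧ ev g q ≠ 0 := by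
  set E := {q : σ × σ // deg q.1 = deg q.2}
  set M : Matrix σ σ (MvPolynomial E K) :=
    Matrix.of fun x y => if h : deg x = deg y then X ⟨(x, y), h⟩ else 0 with hM
  have hMe : ∀ v : E → K, M.map (eval v) =
      Matrix.of fun x y => if h : deg x = deg y then v ⟨(x, y), h⟩ else 0 := by
    intro v
    ext x y
    rw [Matrix.map_apply, hM, Matrix.of_apply, Matrix.of_apply]
    by_cases h : deg x = deg y
    · rw [dif_pos h, dif_pos h, eval_X]
    · rw [dif_neg h, dif_neg h, map_zero]
  have hM0 : M.det ≠ 0 := by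
    intro h0
    have h1 : eval (fun q : E => (1 : Matrix σ σ K) q.1.1 q.1.2) M.det = 1 := by
      rw [RingHom.map_det, RingHom.mapMatrix_apply, hMe]
      have : (Matrix.of fun x y => if h : deg x = deg y then
          (fun q : E => (1 : Matrix σ σ K) q.1.1 q.1.2) ⟨(x, y), h⟩ else 0) =
          (1 : Matrix σ σ K) := by
        ext x y
        rw [Matrix.of_apply]
        by_cases h : deg x = deg y
        · rw [dif_pos h]
        · rw [dif_neg h, Matrix.one_apply_ne fun e => h (by rw [e])]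
      rw [this, Matrix.det_one]
    rw [h0, map_zero] at h1
    exact zero_ne_one h1
  have hp0 : restr deg p ≠ 0 := by
    obtain ⟨g, hg, h⟩ := hp
    intro h0
    rw [← eval_restr hg, h0, map_zero] at h
    exact h rfl
  have hq0 : restr deg q ≠ 0 := by
    obtain ⟨g, hg, h⟩ := hq
    intro h0
    rw [← eval_restr hg, h0, map_zero] at h
    exact h rfl
  have hne : restr deg p * restr deg q * M.det ≠ 0 := mul_ne_zero (mul_ne_zero hp0 hq0) hM0
  obtain ⟨v, hv⟩ : ∃ v : E → K, eval v (restr deg p * restr deg q * M.det) ≠ 0 := by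
    by_contra hcon
    push Not at hcon
    exact hne (MvPolynomial.funext fun v => by rw [hcon v, map_zero])
  rw [map_mul, map_mul] at hv
  set g : Matrix σ σ K := M.map (eval v) with hgdef
  have hg : g ∈ Grp K deg := by
    refine ⟨?_, fun x y h => ?_⟩
    · rw [isUnit_iff_ne_zero, hgdef]
      have := right_ne_zero_of_mul hv
      rwa [RingHom.map_det] at this
    · rw [hgdef, hMe, Matrix.of_apply, dif_neg h]
  have hgv : (fun q : E => g q.1.1 q.1.2) = v := by
    funext q
    rw [hgdef, hMe, Matrix.of_apply, dif_pos q.2]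
  refine ⟨g, hg, ?_, ?_⟩
  · rw [← eval_restr hg, hgv]
    exact left_ne_zero_of_mul (left_ne_zero_of_mul hv)
  · rw [← eval_restr hg, hgv]
    exact right_ne_zero_of_mul (left_ne_zero_of_mul hv)

lemma exists_ne_zero_prod [Infinite K] {ι : Type*} (s : Finset ι)
    (p : ι → MvPolynomial (σ × σ) K) (hp : ∀ i ∈ s, ∃ g ∈ Grp K deg, ev g (p i) ≠ 0) :
    ∃ g ∈ Grp K deg, ev g (∏ i ∈ s, p i) ≠ 0 := by
  classical
  induction s using Finset.induction_on with
  | empty => exact ⟨1, one_mem_Grp, by simp [ev]⟩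
  | insert a s ha ih =>
    obtain ⟨g, hg, h1, h2⟩ := exists_ne_zero (hp a (Finset.mem_insert_self _ _))
      (ih fun i hi => hp i (Finset.mem_insert_of_mem hi))
    refine ⟨g, hg, ?_⟩
    rw [Finset.prod_insert ha, ev, map_mul]
    exact mul_ne_zero h1 h2

/-! ### The generic element -/

/-- the action of the generic matrix -/
noncomputable def genAct (f : MvPolynomial σ K) : MvPolynomial σ (MvPolynomial (σ × σ) K) :=
  aeval (fun x => ∑ y, C (X (y, x)) * X y) f

lemma map_genAct (g : Matrix σ σ K) (f : MvPolynomial σ K) :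
    MvPolynomial.map (eval (fun q : σ × σ => g q.1 q.2)) (genAct f) = act g f := by
  induction f using MvPolynomial.induction_on with
  | C a =>
    rw [genAct, act, aeval_C, aeval_C, MvPolynomial.algebraMap_apply, map_C,
      MvPolynomial.algebraMap_eq, eval_C, MvPolynomial.algebraMap_eq]
  | add p q hp hq =>
    have e : genAct (p + q) = genAct p + genAct q := by simp only [genAct, map_add]
    rw [e, map_add, hp, hq, map_add]
  | mul_X p x hp =>
    have e : genAct (p * X x) = genAct p * ∑ y, C (X (y, x)) * X y := by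
      simp only [genAct, map_mul, aeval_X]
    rw [e, map_mul, hp, map_mul, act_X, map_sum]
    congr 1
    refine Finset.sum_congr rfl fun y _ => ?_
    rw [map_mul, map_C, eval_X, map_X]

lemma ev_coeff_genAct (g : Matrix σ σ K) (f : MvPolynomial σ K) (b : σ →₀ ℕ) :
    ev g ((genAct f).coeff b) = (act g f).coeff b := by
  rw [← map_genAct, coeff_map]

/-! ### Openness of rank conditions -/

lemma exists_open_at (W : Submodule K (MvPolynomial σ K)) [FiniteDimensional K W]
    (g₀ : Matrix σ σ K) (v : σ →₀ ℕ) :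
    ∃ p : MvPolynomial (σ × σ) K, ev g₀ p ≠ 0 ∧ ∀ g : Matrix σ σ K, ev g p ≠ 0 →
      rho m (W.map (act g₀).toLinearMap) v ≤ rho m (W.map (act g).toLinearMap) v := by
  classical
  set W₀ := W.map (act g₀).toLinearMap with hW₀
  set S : Set (σ →₀ ℕ) := LM m W₀ ∩ {a | m.toSyn v ≤ m.toSyn a} with hS
  have hSfin : S.Finite := Set.Finite.inter_of_left LM_finite _
  have : Fintype S := hSfin.fintype
  have hF : ∀ a : S, ∃ f ∈ W, m.Monic (act g₀ f) ∧ m.degree (act g₀ f) = a.1 := by
    intro a
    obtain ⟨_, ⟨f, hf, rfl⟩, h1, h2⟩ := exists_monic a.2.1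
    exact ⟨f, hf, h1, h2⟩
  choose F hFW hFm hFd using hF
  set M : Matrix S S (MvPolynomial (σ × σ) K) :=
    Matrix.of fun i j => (genAct (F j)).coeff i.1 with hM
  have hMg : ∀ g : Matrix σ σ K, ev g M.det =
      (Matrix.of fun i j : S => (act g (F j)).coeff i.1).det := by
    intro g
    rw [ev, RingHom.map_det]
    congr 1
    ext i j
    rw [RingHom.mapMatrix_apply, Matrix.map_apply, hM, Matrix.of_apply, Matrix.of_apply]
    exact ev_coeff_genAct g (F j) i.1
  have hcomb : ∀ (g : Matrix σ σ K) (c : S → K) (i : S),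
      ((Matrix.of fun i j : S => (act g (F j)).coeff i.1).mulVec c) i =
        (∑ j, c j • act g (F j)).coeff i.1 := by
    intro g c i
    rw [Matrix.mulVec, dotProduct, coeff_sum]
    refine Finset.sum_congr rfl fun j _ => ?_
    rw [Matrix.of_apply, coeff_smul, smul_eq_mul, mul_comm]
  refine ⟨M.det, ?_, fun g hg => ?_⟩
  · rw [hMg]
    intro h0
    obtain ⟨c, hc, h1⟩ := Matrix.exists_mulVec_eq_zero_iff.2 h0
    obtain ⟨i, -, h2, -⟩ := exists_coeff_ne_zero (m := m) (e := fun a : S => a.1)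
      Subtype.val_injective hFm hFd hc
    apply h2
    rw [← hcomb, h1]
    rfl
  · rw [hMg] at hg
    have h3 : rho m W₀ v = Fintype.card S := by
      rw [rho, ← hS, ← Nat.card_coe_set_eq, Nat.card_eq_fintype_card]
    rw [h3]
    have hmem : ∀ j, act g (F j) ∈ W.map (act g).toLinearMap :=
      fun j => Submodule.mem_map_of_mem (f := (act g).toLinearMap) (hFW j)
    refine card_le_rho (w := fun j => act g (F j)) hmem v fun c hc => ?_
    by_contra hcon
    push Not at hcon
    apply hg
    rw [← Matrix.exists_mulVec_eq_zero_iff]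
    refine ⟨c, hc, ?_⟩
    funext i
    rw [hcomb]
    exact hcon i.1 i.2.2

lemma exists_open (W : Submodule K (MvPolynomial σ K)) [FiniteDimensional K W]
    (g₀ : Matrix σ σ K) :
    ∃ p : MvPolynomial (σ × σ) K, ev g₀ p ≠ 0 ∧ ∀ g : Matrix σ σ K, ev g p ≠ 0 →
      ∀ v, rho m (W.map (act g₀).toLinearMap) v ≤ rho m (W.map (act g).toLinearMap) v := by
  classical
  choose p hp1 hp2 using exists_open_at (m := m) W g₀
  set W₀ := W.map (act g₀).toLinearMap with hW₀
  have hfin : (LM m W₀).Finite := LM_finite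
  refine ⟨∏ a ∈ hfin.toFinset, p a, ?_, fun g hg v => ?_⟩
  · rw [ev, map_prod]
    exact Finset.prod_ne_zero_iff.2 fun a _ => hp1 a
  · rw [ev, map_prod, Finset.prod_ne_zero_iff] at hg
    by_cases hne : (LM m W₀ ∩ {a | m.toSyn v ≤ m.toSyn a}).Nonempty
    · have hfin' : (LM m W₀ ∩ {a | m.toSyn v ≤ m.toSyn a}).Finite := Set.Finite.inter_of_left hfin _
      obtain ⟨a, ha, hmin⟩ := Finset.exists_min_image hfin'.toFinset (fun a => m.toSyn a)
        (by simpa using hne)
      rw [Set.Finite.mem_toFinset] at ha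
      have h1 := hp2 a g (hg a (hfin.mem_toFinset.2 ha.1))
      have h2 : rho m W₀ v ≤ rho m W₀ a := by
        apply Set.ncard_le_ncard _ (Set.Finite.inter_of_left hfin _)
        intro b hb
        exact ⟨hb.1, hmin b (hfin'.mem_toFinset.2 hb)⟩
      have h3 : rho m (W.map (act g).toLinearMap) a ≤ rho m (W.map (act g).toLinearMap) v := by
        apply Set.ncard_le_ncard _ (Set.Finite.inter_of_left LM_finite _)
        intro b hb
        exact ⟨hb.1, le_trans ha.2 hb.2⟩
      exact h2.trans (h1.trans h3)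
    · rw [Set.not_nonempty_iff_eq_empty] at hne
      rw [rho, hne, Set.ncard_empty]
      exact Nat.zero_le _

/-- two finite sets of exponents with the same counting functions are equal -/
lemma eq_of_count {A B : Set (σ →₀ ℕ)} (hA : A.Finite) (hB : B.Finite)
    (h : ∀ v, (A ∩ {a | m.toSyn v ≤ m.toSyn a}).ncard = (B ∩ {a | m.toSyn v ≤ m.toSyn a}).ncard) :
    A = B := by
  classical
  by_contra hne
  have hD : (symmDiff A B).Finite := (hA.union hB).subset Set.symmDiff_subset_union
  have hDne : (symmDiff A B).Nonempty := by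
    rw [Set.nonempty_iff_ne_empty]
    intro h0
    exact hne (symmDiff_eq_bot.1 h0)
  obtain ⟨a, ha, hmax⟩ := Finset.exists_max_image hD.toFinset (fun a => m.toSyn a)
    (by simpa using hDne)
  rw [Set.Finite.mem_toFinset] at ha
  have hmax' : ∀ b, m.toSyn a < m.toSyn b → (b ∈ A ↔ b ∈ B) := by
    intro b hb
    by_contra hcon
    have hb' : b ∈ symmDiff A B := by
      rw [Set.mem_symmDiff]
      tauto
    exact absurd (hmax b (hD.mem_toFinset.2 hb')) (not_le.2 hb)
  have key : ∀ A B : Set (σ →₀ ℕ), A.Finite → (∀ b, m.toSyn a < m.toSyn b → (b ∈ A ↔ b ∈ B)) →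
      a ∈ A → a ∉ B → (B ∩ {a' | m.toSyn a ≤ m.toSyn a'}).ncard <
        (A ∩ {a' | m.toSyn a ≤ m.toSyn a'}).ncard := by
    intro A B hA hAB haA haB
    apply Set.ncard_lt_ncard _ (Set.Finite.inter_of_left hA _)
    rw [Set.ssubset_iff_of_subset]
    · exact ⟨a, ⟨haA, le_refl _⟩, fun h => haB h.1⟩
    · rintro b ⟨hb1, hb2⟩
      refine ⟨?_, hb2⟩
      rcases eq_or_lt_of_le (show m.toSyn a ≤ m.toSyn b from hb2) with h1 | h1
      · exact absurd (by rwa [← m.toSyn.injective h1] at hb1) haB
      · exact (hAB b h1).2 hb1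
  rw [Set.mem_symmDiff] at ha
  rcases ha with ⟨h1, h2⟩ | ⟨h1, h2⟩
  · exact absurd (h a) (key A B hA hmax' h1 h2).ne'
  · exact absurd (h a) (key B A hB (fun b hb => (hmax' b hb).symm) h1 h2).ne

/-- the generic leading exponents -/
theorem exists_generic [Infinite K] (W : Submodule K (MvPolynomial σ K)) {d : κ → ℕ}
    (hW : W ≤ weightedHomogeneousSubmodule K (unitWeight deg) d) :
    ∃ (Γ : Set (σ →₀ ℕ)) (p : MvPolynomial (σ × σ) K), (∃ g ∈ Grp K deg, ev g p ≠ 0) ∧
      (∀ g ∈ Grp K deg, ev g p ≠ 0 → LM m (W.map (act g).toLinearMap) = Γ) ∧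
      ∀ g ∈ Grp K deg, ∀ v, rho m (W.map (act g).toLinearMap) v ≤
        (Γ ∩ {a | m.toSyn v ≤ m.toSyn a}).ncard := by
  classical
  have hWfin : FiniteDimensional K W :=
    have := homog_finite (K := K) deg d
    Submodule.finiteDimensional_of_le hW
  have hT := Mon_finite deg d
  have hsub : ∀ g ∈ Grp K deg, LM m (W.map (act g).toLinearMap) ⊆ Mon deg d := by
    intro g hg
    apply LM_homog
    rintro _ ⟨f, hf, rfl⟩
    exact act_homog hg.2 (hW hf)
  have hbd : ∀ g : Matrix σ σ K, ∀ v, rho m (W.map (act g).toLinearMap) v ≤ Module.finrank K W := by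
    intro g v
    calc rho m (W.map (act g).toLinearMap) v ≤ (LM m (W.map (act g).toLinearMap)).ncard :=
          Set.ncard_le_ncard Set.inter_subset_left LM_finite
      _ = Module.finrank K (W.map (act g).toLinearMap) := LM_ncard
      _ ≤ Module.finrank K W := Submodule.finrank_map_le _ _
  set Φ : Matrix σ σ K → ℕ := fun g => ∑ v ∈ hT.toFinset, rho m (W.map (act g).toLinearMap) v
    with hΦ
  obtain ⟨g₀, hg₀, hmax⟩ : ∃ g₀ ∈ Grp K deg, ∀ g ∈ Grp K deg, Φ g ≤ Φ g₀ := by
    obtain ⟨n, ⟨⟨g, hg, rfl⟩, hn⟩⟩ : ∃ n, IsGreatest {n | ∃ g ∈ Grp K deg, Φ g = n} n := by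
      have hne : {n | ∃ g ∈ Grp K deg, Φ g = n}.Nonempty := ⟨_, 1, one_mem_Grp, rfl⟩
      have hb : BddAbove {n | ∃ g ∈ Grp K deg, Φ g = n} := by
        refine ⟨∑ v ∈ hT.toFinset, Module.finrank K W, ?_⟩
        rintro _ ⟨g, -, rfl⟩
        exact Finset.sum_le_sum fun v _ => hbd g v
      exact ⟨_, Nat.sSup_mem hne hb, fun n hn => le_csSup hb hn⟩
    exact ⟨g, hg, fun g' hg' => hn ⟨g', hg', rfl⟩⟩
  obtain ⟨p, hp1, hp2⟩ := exists_open (m := m) W g₀
  have hle : ∀ g ∈ Grp K deg, ∀ v ∈ Mon deg d,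
      rho m (W.map (act g).toLinearMap) v ≤ rho m (W.map (act g₀).toLinearMap) v := by
    intro g₁ hg₁ v hv
    by_contra hcon
    rw [not_le] at hcon
    obtain ⟨q, hq1, hq2⟩ := exists_open (m := m) W g₁
    obtain ⟨g, hg, h1, h2⟩ := exists_ne_zero ⟨g₀, hg₀, hp1⟩ ⟨g₁, hg₁, hq1⟩
    have h3 : Φ g₀ < Φ g := by
      apply Finset.sum_lt_sum
      · intro v _
        exact hp2 g h1 v
      · exact ⟨v, hT.mem_toFinset.2 hv, hcon.trans_le (hq2 g h2 v)⟩
    exact absurd (hmax g hg) (not_le.2 h3)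
  have hle' : ∀ g ∈ Grp K deg, ∀ v,
      rho m (W.map (act g).toLinearMap) v ≤ rho m (W.map (act g₀).toLinearMap) v := by
    intro g hg v
    by_cases hne : (Mon deg d ∩ {a | m.toSyn v ≤ m.toSyn a}).Nonempty
    · have hfin' : (Mon deg d ∩ {a | m.toSyn v ≤ m.toSyn a}).Finite := Set.Finite.inter_of_left hT _
      obtain ⟨a, ha, hmin⟩ := Finset.exists_min_image hfin'.toFinset (fun a => m.toSyn a)
        (by simpa using hne)
      rw [Set.Finite.mem_toFinset] at ha
      have e : ∀ g ∈ Grp K deg, rho m (W.map (act g).toLinearMap) v =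
          rho m (W.map (act g).toLinearMap) a := by
        intro g hg
        unfold rho
        congr 1
        ext b
        constructor
        · rintro ⟨h1, h2⟩
          exact ⟨h1, hmin b (hfin'.mem_toFinset.2 ⟨hsub g hg h1, h2⟩)⟩
        · rintro ⟨h1, h2⟩
          exact ⟨h1, le_trans ha.2 h2⟩
      rw [e g hg, e g₀ hg₀]
      exact hle g hg a ha.1
    · rw [Set.not_nonempty_iff_eq_empty] at hne
      have : LM m (W.map (act g).toLinearMap) ∩ {a | m.toSyn v ≤ m.toSyn a} = ∅ := by
        rw [← Set.subset_empty_iff, ← hne]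
        exact Set.inter_subset_inter_left _ (hsub g hg)
      rw [rho, this, Set.ncard_empty]
      exact Nat.zero_le _
  refine ⟨LM m (W.map (act g₀).toLinearMap), p, ⟨g₀, hg₀, hp1⟩, fun g hg hgp => ?_, hle'⟩
  apply eq_of_count (m := m) LM_finite LM_finite
  intro v
  exact le_antisymm (hle' g hg v) (hp2 g hgp v)

end Pool.Agent.P8H33.CS
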