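import Pool.Agent.P8H33.CS.LM

/-!
# The group, its action, and graded pieces
-/

set_option autoImplicit false
set_option linter.unusedSectionVars false

open MvPolynomial

namespace Pool.Agent.P8H33.CS

variable {K : Type*} [Field K] {σ : Type*} [Fintype σ] [DecidableEq σ] {κ : Type*} [DecidableEq κ]
  {deg : σ → κ}

/-! ### multidegrees -/

/-- the multidegree of an exponent vector -/
noncomputable abbrev wt (deg : σ → κ) (a : σ →₀ ℕ) : κ → ℕ := Finsupp.weight (unitWeight deg) a

omit [DecidableEq σ] in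
lemma wt_apply (deg : σ → κ) (a : σ →₀ ℕ) (k : κ) :
    wt deg a k = ∑ x ∈ Finset.univ.filter (fun x => deg x = k), a x := by
  rw [wt, Finsupp.weight_apply, Finsupp.sum_fintype _ _ (by simp), Finset.sum_apply,
    Finset.sum_filter]
  refine Finset.sum_congr rfl fun x _ => ?_
  rw [Pi.smul_apply, unitWeight, Pi.single_apply, smul_eq_mul]
  by_cases h : deg x = k
  · rw [if_pos h.symm, if_pos h, mul_one]
  · rw [if_neg (Ne.symm h), if_neg h, mul_zero]

omit [DecidableEq σ] in
lemma le_wt (deg : σ → κ) (a : σ →₀ ℕ) (x : σ) : a x ≤ wt deg a (deg x) := by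
  rw [wt_apply]
  exact Finset.single_le_sum (f := fun x => a x) (fun _ _ => Nat.zero_le _) (by simp)

/-- the exponent vectors of a given multidegree -/
def Mon (deg : σ → κ) (d : κ → ℕ) : Set (σ →₀ ℕ) := {a | wt deg a = d}

omit [DecidableEq σ] in
lemma Mon_finite (deg : σ → κ) (d : κ → ℕ) : (Mon deg d).Finite := by
  classical
  refine Set.Finite.subset (Set.finite_Iic (Finsupp.equivFunOnFinite.symm fun x => d (deg x))) ?_
  intro a ha x
  have h : wt deg a = d := ha
  rw [Finsupp.equivFunOnFinite_symm_apply_apply, ← h]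
  exact le_wt deg a x

/-! ### homogeneous pieces -/

/-- the polynomials of multidegree `d` in the ideal `J` -/
noncomputable def hpart (deg : σ → κ) (J : Ideal (MvPolynomial σ K)) (d : κ → ℕ) :
    Submodule K (MvPolynomial σ K) :=
  J.restrictScalars K ⊓ weightedHomogeneousSubmodule K (unitWeight deg) d

omit [Fintype σ] [DecidableEq σ] in
lemma mem_hpart {J : Ideal (MvPolynomial σ K)} {d : κ → ℕ} {f : MvPolynomial σ K} :
    f ∈ hpart deg J d ↔ f ∈ J ∧ IsWeightedHomogeneous (unitWeight deg) f d := Iff.rfl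

omit [Fintype σ] [DecidableEq σ] in
lemma hpart_le {J : Ideal (MvPolynomial σ K)} {d : κ → ℕ} :
    hpart deg J d ≤ weightedHomogeneousSubmodule K (unitWeight deg) d := inf_le_right

omit [DecidableEq σ] in
lemma homog_finite (deg : σ → κ) (d : κ → ℕ) :
    FiniteDimensional K (weightedHomogeneousSubmodule K (unitWeight deg) d) := by
  have : Finite (Mon deg d) := Mon_finite deg d
  have h : weightedHomogeneousSubmodule K (unitWeight deg) d ≤
      Submodule.span K (Set.range fun a : Mon deg d => monomial (a : σ →₀ ℕ) (1 : K)) := by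
    intro f hf
    rw [mem_weightedHomogeneousSubmodule] at hf
    rw [f.as_sum]
    refine Submodule.sum_mem _ fun a ha => ?_
    have : monomial a (f.coeff a) = (f.coeff a) • monomial a (1 : K) := by
      rw [smul_monomial, smul_eq_mul, mul_one]
    rw [this]
    exact Submodule.smul_mem _ _ (Submodule.subset_span ⟨⟨a, hf (mem_support_iff.1 ha)⟩, rfl⟩)
  have hfin : FiniteDimensional K
      (Submodule.span K (Set.range fun a : Mon deg d => monomial (a : σ →₀ ℕ) (1 : K))) :=
    FiniteDimensional.span_of_finite K (Set.finite_range _)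
  exact Submodule.finiteDimensional_of_le h

instance hpart_finite (deg : σ → κ) (J : Ideal (MvPolynomial σ K)) (d : κ → ℕ) :
    FiniteDimensional K (hpart deg J d) :=
  have := homog_finite (K := K) deg d
  Submodule.finiteDimensional_of_le hpart_le

omit [DecidableEq σ] [Fintype σ] in
lemma LM_homog {m : MonomialOrder σ} {W : Submodule K (MvPolynomial σ K)} {d : κ → ℕ}
    (hW : W ≤ weightedHomogeneousSubmodule K (unitWeight deg) d) :
    LM m W ⊆ Mon deg d := by
  rintro a ⟨f, hf, h0, rfl⟩
  exact hW hf (mem_support_iff.1 (m.degree_mem_support h0))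

/-! ### the action -/

omit [DecidableEq σ] in
lemma act_X (g : Matrix σ σ K) (x : σ) : act g (X x) = ∑ y, C (g y x) * X y := by
  rw [act, aeval_X]

omit [DecidableEq σ] in
lemma act_mul (g h : Matrix σ σ K) (f : MvPolynomial σ K) : act g (act h f) = act (g * h) f := by
  have : (act g).comp (act h) = act (g * h) := by
    apply MvPolynomial.algHom_ext
    intro x
    rw [AlgHom.comp_apply, act_X, act_X, map_sum]
    simp_rw [map_mul, act_X]
    have hC : ∀ c : K, act g (C c) = C c := fun c => (act g).commutes c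
    simp_rw [hC, Finset.mul_sum]
    rw [Finset.sum_comm]
    refine Finset.sum_congr rfl fun y _ => ?_
    rw [Matrix.mul_apply, map_sum, Finset.sum_mul]
    refine Finset.sum_congr rfl fun z _ => ?_
    rw [map_mul]
    ring
  rw [← this, AlgHom.comp_apply]

lemma act_one (f : MvPolynomial σ K) : act (1 : Matrix σ σ K) f = f := by
  have : act (1 : Matrix σ σ K) = AlgHom.id K _ := by
    apply MvPolynomial.algHom_ext
    intro x
    rw [act_X, AlgHom.id_apply, Finset.sum_eq_single x]
    · rw [Matrix.one_apply_eq, C_1, one_mul]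
    · intro y _ hy
      rw [Matrix.one_apply_ne hy, C_0, zero_mul]
    · simp
  rw [this, AlgHom.id_apply]

lemma one_mem_Grp : (1 : Matrix σ σ K) ∈ Grp K deg := by
  refine ⟨by simp, fun x y h => ?_⟩
  exact Matrix.one_apply_ne fun e => h (by rw [e])

lemma mul_mem_Grp {g h : Matrix σ σ K} (hg : g ∈ Grp K deg) (hh : h ∈ Grp K deg) :
    g * h ∈ Grp K deg := by
  refine ⟨by rw [Matrix.det_mul]; exact hg.1.mul hh.1, fun x y hxy => ?_⟩
  rw [Matrix.mul_apply]
  refine Finset.sum_eq_zero fun z _ => ?_
  by_cases hz : deg x = deg z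
  · rw [hh.2 z y (fun e => hxy (hz.trans e)), mul_zero]
  · rw [hg.2 x z hz, zero_mul]

lemma inv_mem_Grp {g : Matrix σ σ K} (hg : g ∈ Grp K deg) : g⁻¹ ∈ Grp K deg := by
  refine ⟨(Matrix.isUnit_nonsing_inv_det_iff).2 hg.1, fun x y hxy => ?_⟩
  set D : Matrix σ σ K := Matrix.diagonal fun z => if deg z = deg x then 1 else 0 with hD
  have hcomm : g * D = D * g := by
    ext a b
    rw [hD, Matrix.mul_diagonal, Matrix.diagonal_mul]
    by_cases hab : deg a = deg b
    · rw [hab, mul_comm]
    · rw [hg.2 a b hab, mul_zero, zero_mul]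
  have hcomm' : D * g⁻¹ = g⁻¹ * D := by
    have h1 : g⁻¹ * g = 1 := Matrix.nonsing_inv_mul _ hg.1
    have h2 : g * g⁻¹ = 1 := Matrix.mul_nonsing_inv _ hg.1
    calc D * g⁻¹ = (g⁻¹ * g) * D * g⁻¹ := by rw [h1, one_mul]
      _ = g⁻¹ * (g * D) * g⁻¹ := by rw [Matrix.mul_assoc g⁻¹ g D]
      _ = g⁻¹ * (D * g) * g⁻¹ := by rw [hcomm]
      _ = g⁻¹ * D * (g * g⁻¹) := by simp only [Matrix.mul_assoc]
      _ = g⁻¹ * D := by rw [h2, mul_one]
  have h3 := congrFun (congrFun hcomm' x) y
  rw [hD, Matrix.mul_diagonal, Matrix.diagonal_mul, if_pos rfl, one_mul,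
    if_neg (Ne.symm hxy), mul_zero] at h3
  exact h3

lemma act_inv_act {g : Matrix σ σ K} (hg : g ∈ Grp K deg) (f : MvPolynomial σ K) :
    act g⁻¹ (act g f) = f := by
  rw [act_mul, Matrix.nonsing_inv_mul _ hg.1, act_one]

lemma act_act_inv {g : Matrix σ σ K} (hg : g ∈ Grp K deg) (f : MvPolynomial σ K) :
    act g (act g⁻¹ f) = f := by
  rw [act_mul, Matrix.mul_nonsing_inv _ hg.1, act_one]

lemma act_injective {g : Matrix σ σ K} (hg : g ∈ Grp K deg) : Function.Injective (act g) :=
  Function.LeftInverse.injective (act_inv_act hg)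

lemma map_act_map_act (g h : Matrix σ σ K) (J : Ideal (MvPolynomial σ K)) :
    Ideal.map (act g) (Ideal.map (act h) J) = Ideal.map (act (g * h)) J := by
  rw [Ideal.map_mapₐ]
  congr 1
  apply AlgHom.ext
  intro f
  rw [AlgHom.comp_apply, act_mul]

lemma mem_map_act {g : Matrix σ σ K} (hg : g ∈ Grp K deg) {J : Ideal (MvPolynomial σ K)}
    {f : MvPolynomial σ K} : f ∈ Ideal.map (act g) J ↔ act g⁻¹ f ∈ J := by
  constructor
  · intro h
    have h1 := Ideal.mem_map_of_mem (act g⁻¹) h
    rw [map_act_map_act, Matrix.nonsing_inv_mul _ hg.1] at h1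
    have h2 : Ideal.map (act (1 : Matrix σ σ K)) J = J := by
      apply le_antisymm
      · rw [Ideal.map_le_iff_le_comap]
        intro p hp
        rw [Ideal.mem_comap, act_one]
        exact hp
      · intro p hp
        have := Ideal.mem_map_of_mem (act (1 : Matrix σ σ K)) hp
        rwa [act_one] at this
    rwa [h2] at h1
  · intro h
    have h1 := Ideal.mem_map_of_mem (act g) h
    rwa [act_act_inv hg] at h1

omit [DecidableEq σ] in
lemma act_homog {g : Matrix σ σ K} (hg : ∀ x y, deg x ≠ deg y → g x y = 0) {f : MvPolynomial σ K}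
    {d : κ → ℕ} (hf : IsWeightedHomogeneous (unitWeight deg) f d) :
    IsWeightedHomogeneous (unitWeight deg) (act g f) d := by
  classical
  have hX : ∀ x, IsWeightedHomogeneous (unitWeight deg) (act g (X x)) (unitWeight deg x) := by
    intro x
    rw [act_X]
    refine IsWeightedHomogeneous.sum _ _ _ fun y _ => ?_
    by_cases h : deg y = deg x
    · have h1 : unitWeight deg x = 0 + unitWeight deg y := by
        rw [zero_add, unitWeight, unitWeight, h]
      rw [h1]
      exact (isWeightedHomogeneous_C _ _).mul (isWeightedHomogeneous_X _ _ _)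
    · rw [hg y x h, C_0, zero_mul]
      exact isWeightedHomogeneous_zero _ _ _
  rw [f.as_sum, map_sum]
  refine IsWeightedHomogeneous.sum _ _ _ fun a ha => ?_
  have hwa : Finsupp.weight (unitWeight deg) a = d := hf (mem_support_iff.1 ha)
  rw [monomial_eq, map_mul, Finsupp.prod, map_prod]
  have hC : act g (C (f.coeff a)) = C (f.coeff a) := (act g).commutes _
  rw [hC, ← hwa, ← zero_add (Finsupp.weight (unitWeight deg) a)]
  refine (isWeightedHomogeneous_C _ _).mul ?_
  rw [Finsupp.weight_apply, Finsupp.sum]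
  refine IsWeightedHomogeneous.prod _ _ _ fun x _ => ?_
  rw [map_pow]
  exact (hX x).pow _

lemma hpart_map_act {g : Matrix σ σ K} (hg : g ∈ Grp K deg) (J : Ideal (MvPolynomial σ K))
    (d : κ → ℕ) :
    hpart deg (Ideal.map (act g) J) d = (hpart deg J d).map (act g).toLinearMap := by
  ext f
  constructor
  · rintro ⟨h1, h2⟩
    refine ⟨act g⁻¹ f, ⟨(mem_map_act hg).1 h1, act_homog (inv_mem_Grp hg).2 h2⟩, ?_⟩
    exact act_act_inv hg f
  · rintro ⟨p, ⟨h1, h2⟩, rfl⟩
    exact ⟨Ideal.mem_map_of_mem _ h1, act_homog hg.2 h2⟩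

lemma finrank_map_act {g : Matrix σ σ K} (hg : g ∈ Grp K deg) (W : Submodule K (MvPolynomial σ K)) :
    Module.finrank K (W.map (act g).toLinearMap) = Module.finrank K W :=
  LinearEquiv.finrank_eq (Submodule.equivMapOfInjective _ (act_injective hg) W).symm

lemma map_map_act (g h : Matrix σ σ K) (W : Submodule K (MvPolynomial σ K)) :
    (W.map (act h).toLinearMap).map (act g).toLinearMap = W.map (act (g * h)).toLinearMap := by
  rw [← Submodule.map_comp]
  congr 1
  apply LinearMap.ext
  intro f
  exact act_mul g h f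

end Pool.Agent.P8H33.CS
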