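import Mathlib
import Pool.Agent.P8H33.CS.Count

/-!
# Decompositions of complements of monomial ideals into cones, and the main lemma on Hilbert
functions
-/

set_option autoImplicit false
set_option linter.unusedSectionVars false

namespace Pool.Agent.P8H33.CS

variable {σ : Type*} [Fintype σ] [DecidableEq σ]

/-! ### cones -/

/-- the cone `u + ℕ^Z` -/
def coneSet (u : σ →₀ ℕ) (Z : Finset σ) : Set (σ →₀ ℕ) := {a | u ≤ a ∧ ∀ x, x ∉ Z → a x = u x}

/-- finite disjoint unions of cones in the coordinate space of `T` -/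
inductive Dec (T : Finset σ) : Set (σ →₀ ℕ) → Prop
  | empty : Dec T ∅
  | cone (u : σ →₀ ℕ) (Z : Finset σ) (hu : ∀ x, x ∉ T → u x = 0) (hZ : Z ⊆ T) : Dec T (coneSet u Z)
  | union (S S' : Set (σ →₀ ℕ)) (h : Disjoint S S') (hS : Dec T S) (hS' : Dec T S') :
      Dec T (S ∪ S')

lemma Dec.supp {T : Finset σ} {S : Set (σ →₀ ℕ)} (h : Dec T S) : ∀ a ∈ S, ∀ x, x ∉ T → a x = 0 := by
  induction h with
  | empty => intro a ha; exact absurd ha (Set.notMem_empty a)
  | cone u Z hu hZ =>
    intro a ha x hx
    rw [ha.2 x fun h => hx (hZ h), hu x hx]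
  | union S S' _ _ _ ih ih' =>
    rintro a (ha | ha)
    · exact ih a ha
    · exact ih' a ha

lemma Dec.shift {T : Finset σ} {S : Set (σ →₀ ℕ)} (h : Dec T S) (x : σ) (j : ℕ) :
    Dec (insert x T) ((fun a => a + Finsupp.single x j) '' S) := by
  induction h with
  | empty => rw [Set.image_empty]; exact Dec.empty
  | cone u Z hu hZ =>
    have : (fun a => a + Finsupp.single x j) '' coneSet u Z = coneSet (u + Finsupp.single x j) Z := by
      ext a
      constructor
      · rintro ⟨b, ⟨h1, h2⟩, rfl⟩
        refine ⟨add_le_add_left h1 _, fun y hy => ?_⟩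
        simp only [Finsupp.add_apply]
        rw [h2 y hy]
      · rintro ⟨h1, h2⟩
        refine ⟨a - Finsupp.single x j, ⟨?_, fun y hy => ?_⟩, ?_⟩
        · intro y
          have := h1 y
          simp only [Finsupp.add_apply, Finsupp.tsub_apply] at this ⊢
          omega
        · have := h2 y hy
          simp only [Finsupp.add_apply, Finsupp.tsub_apply] at this ⊢
          omega
        · ext y
          have := h1 y
          simp only [Finsupp.add_apply, Finsupp.tsub_apply] at this ⊢
          omega
    rw [this]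
    refine Dec.cone _ _ (fun y hy => ?_) (hZ.trans (Finset.subset_insert _ _))
    rw [Finset.mem_insert, not_or] at hy
    rw [Finsupp.add_apply, hu y hy.2, Finsupp.single_eq_of_ne hy.1, add_zero]
  | union S S' hd _ _ ih ih' =>
    rw [Set.image_union]
    refine Dec.union _ _ ?_ ih ih'
    rw [Set.disjoint_image_iff (add_left_injective _)]
    exact hd

lemma Dec.sweep {T : Finset σ} {S : Set (σ →₀ ℕ)} (h : Dec T S) {x : σ} (hx : x ∉ T) (E : ℕ) :
    Dec (insert x T) {a | a.erase x ∈ S ∧ E ≤ a x} := by
  induction h with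
  | empty =>
    have : {a : σ →₀ ℕ | a.erase x ∈ (∅ : Set (σ →₀ ℕ)) ∧ E ≤ a x} = ∅ := by
      ext a; simp
    rw [this]
    exact Dec.empty
  | cone u Z hu hZ =>
    have : {a : σ →₀ ℕ | a.erase x ∈ coneSet u Z ∧ E ≤ a x} =
        coneSet (u + Finsupp.single x E) (insert x Z) := by
      ext a
      constructor
      · rintro ⟨⟨h1, h2⟩, h3⟩
        refine ⟨fun y => ?_, fun y hy => ?_⟩
        · by_cases hyx : y = x
          · subst hyx
            rw [Finsupp.add_apply, hu y hx, Finsupp.single_eq_same, zero_add]
            exact h3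
          · have := h1 y
            rw [Finsupp.erase_ne hyx] at this
            rw [Finsupp.add_apply, Finsupp.single_eq_of_ne hyx, add_zero]
            exact this
        · rw [Finset.mem_insert, not_or] at hy
          have := h2 y hy.2
          rw [Finsupp.erase_ne hy.1] at this
          rw [Finsupp.add_apply, Finsupp.single_eq_of_ne hy.1, add_zero]
          exact this
      · rintro ⟨h1, h2⟩
        refine ⟨⟨fun y => ?_, fun y hy => ?_⟩, ?_⟩
        · by_cases hyx : y = x
          · subst hyx
            rw [Finsupp.erase_same, hu y hx]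
          · have := h1 y
            rw [Finsupp.add_apply, Finsupp.single_eq_of_ne hyx, add_zero] at this
            rw [Finsupp.erase_ne hyx]
            exact this
        · by_cases hyx : y = x
          · subst hyx
            rw [Finsupp.erase_same, hu y hx]
          · have := h2 y (by simp [hyx, hy])
            rw [Finsupp.add_apply, Finsupp.single_eq_of_ne hyx, add_zero] at this
            rw [Finsupp.erase_ne hyx]
            exact this
        · have := h1 x
          rw [Finsupp.add_apply, hu x hx, Finsupp.single_eq_same, zero_add] at this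
          exact this
    rw [this]
    refine Dec.cone _ _ (fun y hy => ?_) (Finset.insert_subset_insert _ hZ)
    rw [Finset.mem_insert, not_or] at hy
    rw [Finsupp.add_apply, hu y hy.2, Finsupp.single_eq_of_ne hy.1, add_zero]
  | union S S' hd _ _ ih ih' =>
    have : {a : σ →₀ ℕ | a.erase x ∈ S ∪ S' ∧ E ≤ a x} =
        {a | a.erase x ∈ S ∧ E ≤ a x} ∪ {a | a.erase x ∈ S' ∧ E ≤ a x} := by
      ext a
      simp only [Set.mem_ofPred_eq, Set.mem_union]
      tauto
    rw [this]
    refine Dec.union _ _ ?_ ih ih'
    rw [Set.disjoint_left] at hd ⊢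
    rintro a ⟨h1, -⟩ ⟨h2, -⟩
    exact hd h1 h2

/-- Dickson's lemma -/
lemma exists_bound (A : Set (σ →₀ ℕ)) (hA : IsUpperSet A) (x : σ) :
    ∃ E : ℕ, ∀ (a : σ →₀ ℕ) (j : ℕ), E ≤ j → a + Finsupp.single x j ∈ A →
      a + Finsupp.single x E ∈ A := by
  classical
  set M := {a ∈ A | ∀ b ∈ A, b ≤ a → b = a} with hM
  have hanti : IsAntichain (· ≤ ·) M := by
    intro a ha b hb hne hab
    exact hne (hb.2 a ha.1 hab)
  have hfin : M.Finite := WellQuasiOrderedLE.finite_of_isAntichain hanti
  refine ⟨hfin.toFinset.sup fun a => a x, fun a j hj haj => ?_⟩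
  obtain ⟨μ, hμ1, hμ2⟩ : ∃ μ ∈ M, μ ≤ a + Finsupp.single x j := by
    have hwf : WellFounded ((· < ·) : (σ →₀ ℕ) → (σ →₀ ℕ) → Prop) := wellFounded_lt
    obtain ⟨μ, ⟨h1, h2⟩, h3⟩ := hwf.has_min {b | b ∈ A ∧ b ≤ a + Finsupp.single x j}
      ⟨_, haj, le_refl _⟩
    refine ⟨μ, ⟨h1, fun b hb hbμ => ?_⟩, h2⟩
    by_contra hne
    exact h3 b ⟨hb, hbμ.trans h2⟩ (lt_of_le_of_ne hbμ hne)
  refine hA ?_ hμ1.1
  intro y
  have h1 := hμ2 y
  by_cases hyx : y = x
  · subst hyx
    have h2 : μ y ≤ hfin.toFinset.sup fun a => a y :=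
      Finset.le_sup (f := fun a : σ →₀ ℕ => a y) (hfin.mem_toFinset.2 hμ1)
    rw [Finsupp.add_apply, Finsupp.single_eq_same]
    omega
  · rw [Finsupp.add_apply, Finsupp.single_eq_of_ne hyx] at h1 ⊢
    exact h1

/-- the complement of a monomial ideal is a finite disjoint union of cones -/
theorem dec_compl (T : Finset σ) : ∀ A : Set (σ →₀ ℕ), IsUpperSet A →
    Dec T {a | a ∉ A ∧ ∀ x, x ∉ T → a x = 0} := by
  classical
  induction T using Finset.induction_on with
  | empty =>
    intro A _
    by_cases h : (0 : σ →₀ ℕ) ∈ A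
    · have : {a : σ →₀ ℕ | a ∉ A ∧ ∀ x, x ∉ (∅ : Finset σ) → a x = 0} = ∅ := by
        ext a
        simp only [Set.mem_ofPred_eq, Set.mem_empty_iff_false, iff_false, not_and]
        intro h1 h2
        apply h1
        have : a = 0 := by
          ext x
          exact h2 x (Finset.notMem_empty x)
        rw [this]
        exact h
      rw [this]
      exact Dec.empty
    · have : {a : σ →₀ ℕ | a ∉ A ∧ ∀ x, x ∉ (∅ : Finset σ) → a x = 0} = coneSet 0 ∅ := by
        ext a
        constructor
        · rintro ⟨-, h2⟩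
          exact ⟨fun x => Nat.zero_le _, fun x hx => h2 x hx⟩
        · rintro ⟨-, h2⟩
          have : a = 0 := by
            ext x
            exact h2 x (Finset.notMem_empty x)
          rw [this]
          exact ⟨h, fun x _ => rfl⟩
      rw [this]
      exact Dec.cone _ _ (fun x _ => rfl) (Finset.Subset.refl _)
  | insert x T hxT ih =>
    intro A hA
    have hAj : ∀ j : ℕ, IsUpperSet {a : σ →₀ ℕ | a + Finsupp.single x j ∈ A} := by
      intro j a b hab ha
      exact hA (add_le_add_left hab _) ha
    obtain ⟨E, hE⟩ := exists_bound A hA x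
    have hlow : ∀ n : ℕ, Dec (insert x T)
        {a | (a ∉ A ∧ ∀ y, y ∉ insert x T → a y = 0) ∧ a x < n} := by
      intro n
      induction n with
      | zero =>
        have : {a : σ →₀ ℕ | (a ∉ A ∧ ∀ y, y ∉ insert x T → a y = 0) ∧ a x < 0} = ∅ := by
          ext a; simp
        rw [this]
        exact Dec.empty
      | succ n ihn =>
        have : {a : σ →₀ ℕ | (a ∉ A ∧ ∀ y, y ∉ insert x T → a y = 0) ∧ a x < n + 1} =
            {a | (a ∉ A ∧ ∀ y, y ∉ insert x T → a y = 0) ∧ a x < n} ∪
            (fun a => a + Finsupp.single x n) ''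
              {a | a ∉ {a : σ →₀ ℕ | a + Finsupp.single x n ∈ A} ∧ ∀ y, y ∉ T → a y = 0} := by
          ext a
          constructor
          · rintro ⟨⟨h1, h2⟩, h3⟩
            rcases Nat.lt_or_ge (a x) n with h4 | h4
            · left
              exact ⟨⟨h1, h2⟩, h4⟩
            · right
              have h5 : a x = n := by omega
              refine ⟨a.erase x, ⟨?_, fun y hy => ?_⟩, ?_⟩
              · rw [Set.mem_ofPred_eq, ← h5, Finsupp.erase_add_single]
                exact h1
              · by_cases hyx : y = x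
                · rw [hyx, Finsupp.erase_same]
                · rw [Finsupp.erase_ne hyx]
                  exact h2 y (by simp [hyx, hy])
              · simp only
                rw [← h5, Finsupp.erase_add_single]
          · rintro (⟨h1, h2⟩ | ⟨b, ⟨h1, h2⟩, rfl⟩)
            · exact ⟨h1, by omega⟩
            · refine ⟨⟨h1, fun y hy => ?_⟩, ?_⟩
              · rw [Finset.mem_insert, not_or] at hy
                simp only [Finsupp.add_apply]
                rw [h2 y hy.2, Finsupp.single_eq_of_ne hy.1]
                rfl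
              · simp only [Finsupp.add_apply, Finsupp.single_eq_same]
                rw [h2 x hxT]
                omega
        rw [this]
        refine Dec.union _ _ ?_ ihn ((ih _ (hAj n)).shift x n)
        rw [Set.disjoint_left]
        rintro _ ⟨-, h1⟩ ⟨b, ⟨-, h2⟩, rfl⟩
        simp only [Finsupp.add_apply, Finsupp.single_eq_same] at h1
        omega
    have : {a : σ →₀ ℕ | a ∉ A ∧ ∀ y, y ∉ insert x T → a y = 0} =
        {a | (a ∉ A ∧ ∀ y, y ∉ insert x T → a y = 0) ∧ a x < E} ∪
        {a | a.erase x ∈ {a : σ →₀ ℕ | a ∉ {a : σ →₀ ℕ | a + Finsupp.single x E ∈ A} ∧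
          ∀ y, y ∉ T → a y = 0} ∧ E ≤ a x} := by
      ext a
      constructor
      · rintro ⟨h1, h2⟩
        rcases Nat.lt_or_ge (a x) E with h4 | h4
        · left
          exact ⟨⟨h1, h2⟩, h4⟩
        · right
          refine ⟨⟨fun h5 => h1 ?_, fun y hy => ?_⟩, h4⟩
          · refine hA ?_ h5
            intro y
            by_cases hyx : y = x
            · subst hyx
              rw [Finsupp.add_apply, Finsupp.erase_same, Finsupp.single_eq_same, zero_add]
              exact h4
            · rw [Finsupp.add_apply, Finsupp.erase_ne hyx, Finsupp.single_eq_of_ne hyx, add_zero]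
          · by_cases hyx : y = x
            · rw [hyx, Finsupp.erase_same]
            · rw [Finsupp.erase_ne hyx]
              exact h2 y (by simp [hyx, hy])
      · rintro (⟨h1, h2⟩ | ⟨⟨h1, h2⟩, h3⟩)
        · exact h1
        · refine ⟨fun h4 => h1 ?_, fun y hy => ?_⟩
          · apply hE _ (a x) h3
            rw [Finsupp.erase_add_single]
            exact h4
          · rw [Finset.mem_insert, not_or] at hy
            have := h2 y hy.2
            rwa [Finsupp.erase_ne hy.1] at this
    rw [this]
    refine Dec.union _ _ ?_ (hlow E) ((ih _ (hAj E)).sweep hxT E)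
    rw [Set.disjoint_left]
    rintro a ⟨-, h1⟩ ⟨-, h2⟩
    omega

end Pool.Agent.P8H33.CS
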