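import Mathlib
import Pool.Agent.P8H33.CS.Stan

/-!
# A set of exponents closed under replacement whose Hilbert function is that of a radical one
-/

set_option autoImplicit false
set_option linter.unusedSectionVars false


namespace Pool.Agent.P8H33.CS

variable {σ : Type*} [Fintype σ] [DecidableEq σ] {κ : Type*} [Fintype κ] [DecidableEq κ]
  {deg : σ → κ} {rk : σ → ℕ}

/-! ### differences in one variable -/

/-- the coefficients of iterated differences -/
def co (c j : ℕ) : ℤ := (-1) ^ (c - j) * (c.choose j : ℤ)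

lemma sum_co (f : ℕ → ℤ) (c : ℕ) :
    ∑ j ∈ Finset.range (c + 1), co c j * f j = ((fwdDiff (1:ℕ))^[c] f) 0 := by
  rw [fwdDiff_iter_eq_sum_shift]
  refine Finset.sum_congr rfl fun j _ => ?_
  rw [co, smul_eq_mul, smul_eq_mul, mul_one, zero_add]

lemma diff_zero (s : ℕ) : ∀ c t : ℕ, s ≤ c → 1 ≤ t + s →
    ((fwdDiff (1:ℕ))^[c] fun y : ℕ => (Nat.multichoose s (y + t) : ℤ)) 0 = 0 := by
  induction s with
  | zero =>
    intro c t _ ht
    have : (fun y : ℕ => (Nat.multichoose 0 (y + t) : ℤ)) = fun _ => 0 := by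
      funext y
      obtain ⟨t, rfl⟩ := Nat.exists_eq_add_of_lt (show 0 < t by omega)
      have : y + (0 + t + 1) = (y + t) + 1 := by omega
      rw [this, Nat.multichoose_zero_succ, Nat.cast_zero]
    rw [this, ← sum_co]
    simp
  | succ s ih =>
    intro c t hc _
    obtain ⟨c, rfl⟩ : ∃ c', c = c' + 1 := ⟨c - 1, by omega⟩
    rw [Function.iterate_succ_apply]
    have : (fwdDiff (1:ℕ) fun y : ℕ => (Nat.multichoose (s + 1) (y + t) : ℤ)) =
        fun y : ℕ => (Nat.multichoose s (y + (t + 1)) : ℤ) := by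
      funext y
      rw [fwdDiff]
      have e : y + 1 + t = (y + t) + 1 := by omega
      rw [e, Nat.multichoose_succ_succ, Nat.cast_add]
      have e2 : y + (t + 1) = y + t + 1 := by omega
      rw [e2]
      ring
    rw [this]
    exact ih c (t + 1) (by omega) (by omega)

lemma diff_one (c : ℕ) : ∀ t : ℕ,
    ((fwdDiff (1:ℕ))^[c] fun y : ℕ => (Nat.multichoose (c + 1) (y + t) : ℤ)) 0 = 1 := by
  induction c with
  | zero =>
    intro t
    simp
  | succ c ih =>
    intro t
    rw [Function.iterate_succ_apply]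
    have : (fwdDiff (1:ℕ) fun y : ℕ => (Nat.multichoose (c + 1 + 1) (y + t) : ℤ)) =
        fun y : ℕ => (Nat.multichoose (c + 1) (y + (t + 1)) : ℤ) := by
      funext y
      rw [fwdDiff]
      have e : y + 1 + t = (y + t) + 1 := by omega
      rw [e, Nat.multichoose_succ_succ, Nat.cast_add]
      have e2 : y + (t + 1) = y + t + 1 := by omega
      rw [e2]
      ring
    rw [this]
    exact ih (t + 1)

/-! ### the functional -/

/-- the degrees used by the functional -/
def dg (α : κ → ℕ) (b : ℕ) (i : κ → ℕ) : κ → ℕ := fun k => if α k = 0 then 0 else i k + b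

/-- the functional: a difference operator of order `α_k - 1` in each direction `k` with
`α_k ≠ 0` -/
def LL (α : κ → ℕ) (b : ℕ) (H : (κ → ℕ) → ℤ) : ℤ :=
  ∑ i ∈ Fintype.piFinset (fun k => Finset.range (α k - 1 + 1)), (∏ k, co (α k - 1) (i k)) *
    H (dg α b i)

lemma LL_add (α : κ → ℕ) (b : ℕ) (H H' : (κ → ℕ) → ℤ) :
    LL α b (fun d => H d + H' d) = LL α b H + LL α b H' := by
  rw [LL, LL, LL, ← Finset.sum_add_distrib]
  refine Finset.sum_congr rfl fun i _ => ?_
  ring

lemma LL_sum {ι : Type*} (s : Finset ι) (α : κ → ℕ) (b : ℕ) (H : ι → (κ → ℕ) → ℤ) :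
    LL α b (fun d => ∑ j ∈ s, H j d) = ∑ j ∈ s, LL α b (H j) := by
  simp only [LL]
  rw [Finset.sum_comm]
  refine Finset.sum_congr rfl fun i _ => ?_
  rw [Finset.mul_sum]

/-- the functional on products -/
lemma LL_prod (α : κ → ℕ) (b : ℕ) (H : (κ → ℕ) → ℤ) (f : κ → ℕ → ℤ)
    (h : ∀ i, H (dg α b i) = ∏ k, f k (i k)) :
    LL α b H = ∏ k, ((fwdDiff (1:ℕ))^[α k - 1] (f k)) 0 := by
  have h1 : ∀ k, ((fwdDiff (1:ℕ))^[α k - 1] (f k)) 0 =
      ∑ j ∈ Finset.range (α k - 1 + 1), co (α k - 1) j * f k j := fun k => (sum_co _ _).symm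
  simp_rw [h1]
  rw [Finset.prod_univ_sum, LL]
  refine Finset.sum_congr rfl fun i _ => ?_
  rw [h, ← Finset.prod_mul_distrib]

/-! ### cones -/

lemma ncard_cone (u : σ →₀ ℕ) (Z : Finset σ) (d : κ → ℕ) (hd : wt deg u ≤ d) :
    {a | a ∈ coneSet u Z ∧ wt deg a = d}.ncard =
      ∏ k, Nat.multichoose (Z.filter fun x => deg x = k).card (d k - wt deg u k) := by
  rw [← ncard_supp Z (fun k => d k - wt deg u k)]
  symm
  apply Set.ncard_congr fun a _ => u + a
  · rintro a ⟨h1, h2⟩
    refine ⟨⟨le_add_of_nonneg_right (zero_le), fun x hx => ?_⟩, ?_⟩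
    · rw [Finsupp.add_apply, h2 x hx, add_zero]
    · have h0 : wt deg (u + a) = wt deg u + wt deg a := map_add _ _ _
      rw [h0, h1]
      funext k
      have : wt deg u k ≤ d k := hd k
      simp only [Pi.add_apply]
      omega
  · intro a c _ _ h
    exact add_left_cancel h
  · rintro a ⟨⟨h1, h2⟩, h3⟩
    have h4 : u + (a - u) = a := add_tsub_cancel_of_le h1
    refine ⟨a - u, ⟨?_, fun x hx => ?_⟩, h4⟩
    · funext k
      rw [← h3]
      have h0 : wt deg (u + (a - u)) = wt deg u + wt deg (a - u) := map_add _ _ _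
      rw [h4] at h0
      rw [h0]
      simp only [Pi.add_apply]
      omega
    · rw [Finsupp.tsub_apply, h2 x hx, Nat.sub_self]

/-- the need of the indicator of `Z` is at least the number of variables of `Z` in the block -/
lemma card_le_need (hrk : Ranking deg rk) (Z : Finset σ) (k : κ) (a : σ →₀ ℕ)
    (ha : ∀ x ∈ Z, a x ≠ 0) : (Z.filter fun x => deg x = k).card ≤ need deg rk a k := by
  calc (Z.filter fun x => deg x = k).card ≤ (Finset.Icc 1 (need deg rk a k)).card := by
        apply Finset.card_le_card_of_injOn rk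
        · intro x hx
          rw [Finset.mem_coe, Finset.mem_filter] at hx
          rw [Finset.mem_coe, Finset.mem_Icc]
          refine ⟨hrk.pos x, ?_⟩
          rw [← hx.2]
          exact le_need (ha x hx.1)
        · intro x hx y hy h
          rw [Finset.mem_coe, Finset.mem_filter] at hx hy
          exact hrk.inj x y (hx.2.trans hy.2.symm) h
    _ = need deg rk a k := by rw [Nat.card_Icc, Nat.add_sub_cancel]

/-- the functional vanishes on the complement of `A` if `A` contains a power of the top monomial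
of `α` -/
lemma LL_dec (hrk : Ranking deg rk) {A : Set (σ →₀ ℕ)} (hup : IsUpperSet A)
    (hR : ReplClosed deg rk A) {α : κ → ℕ} {t : σ →₀ ℕ} (ht : t ∈ A)
    (htα : need deg rk t = α) {S : Set (σ →₀ ℕ)}
    (hS : Dec (Finset.univ.filter fun x => α (deg x) ≠ 0) S) (hSA : S ⊆ Aᶜ) :
    ∃ b₀ : ℕ, 1 ≤ b₀ ∧ ∀ b, b₀ ≤ b → LL α b (fun d => ({a | a ∈ S ∧ wt deg a = d}.ncard : ℤ)) = 0 := by
  classical
  induction hS with
  | empty =>
    refine ⟨1, le_refl _, fun b _ => ?_⟩
    rw [LL]
    apply Finset.sum_eq_zero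
    intro i _
    simp
  | cone u Z hu hZ =>
    set w := ∑ k, wt deg u k with hw
    have hwk : ∀ k, wt deg u k ≤ w := fun k =>
      Finset.single_le_sum (f := fun k => wt deg u k) (fun _ _ => Nat.zero_le _) (Finset.mem_univ k)
    -- some block of `Z` is small
    obtain ⟨k₀, hk₀, hk₀'⟩ : ∃ k, α k ≠ 0 ∧ (Z.filter fun x => deg x = k).card ≤ α k - 1 := by
      by_contra hcon
      push Not at hcon
      set z : σ →₀ ℕ := Finsupp.equivFunOnFinite.symm fun x => if x ∈ Z then 1 else 0 with hz
      have hzx : ∀ x, z x = if x ∈ Z then 1 else 0 := fun x => rfl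
      have h1 : ∀ k, need deg rk t k ≤ need deg rk z k := by
        intro k
        rw [htα]
        by_cases hk : α k = 0
        · omega
        · have h2 := hcon k hk
          have h3 := card_le_need hrk Z k z fun x hx => by rw [hzx, if_pos hx]; exact one_ne_zero
          omega
      obtain ⟨n, hn⟩ := exists_nsmul_mem hrk hup hR ht h1
      have h4 : u + n • z ∈ coneSet u Z := by
        refine ⟨le_add_of_nonneg_right (zero_le), fun x hx => ?_⟩
        rw [Finsupp.add_apply, Finsupp.smul_apply, hzx, if_neg hx, smul_zero, add_zero]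
      exact hSA h4 (hup (le_add_of_nonneg_left (zero_le)) hn)
    refine ⟨w + 1, by omega, fun b hb => ?_⟩
    rw [LL_prod α b _ (fun k j => (Nat.multichoose (Z.filter fun x => deg x = k).card
        ((if α k = 0 then 0 else j + b) - wt deg u k) : ℤ))]
    · apply Finset.prod_eq_zero (Finset.mem_univ k₀)
      have e : (fun j : ℕ => (Nat.multichoose (Z.filter fun x => deg x = k₀).card
          ((if α k₀ = 0 then 0 else j + b) - wt deg u k₀) : ℤ)) =
          fun j : ℕ => (Nat.multichoose (Z.filter fun x => deg x = k₀).card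
          (j + (b - wt deg u k₀)) : ℤ) := by
        funext j
        rw [if_neg hk₀]
        congr 2
        have := hwk k₀
        omega
      rw [e]
      apply diff_zero _ _ _ hk₀'
      have := hwk k₀
      omega
    · intro i
      rw [ncard_cone, Nat.cast_prod]
      · rfl
      · intro k
        rw [dg]
        split_ifs with hk
        · rw [wt_apply]
          apply le_of_eq
          apply Finset.sum_eq_zero
          intro x hx
          rw [Finset.mem_filter] at hx
          apply hu
          simp [hx.2, hk]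
        · have := hwk k
          show wt deg u k ≤ i k + b
          have h5 : w = ∑ k, wt deg u k := hw
          omega
  | union S S' hd _ _ ih ih' =>
    obtain ⟨b₁, hb₁, h1⟩ := ih (Set.subset_union_left.trans hSA)
    obtain ⟨b₂, hb₂, h2⟩ := ih' (Set.subset_union_right.trans hSA)
    refine ⟨max b₁ b₂, le_max_of_le_left hb₁, fun b hb => ?_⟩
    have h3 : (fun d => ({a | a ∈ S ∪ S' ∧ wt deg a = d}.ncard : ℤ)) =
        fun d => ({a | a ∈ S ∧ wt deg a = d}.ncard : ℤ) +
          ({a | a ∈ S' ∧ wt deg a = d}.ncard : ℤ) := by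
      funext d
      rw [← Nat.cast_add, ← Set.ncard_union_eq _ ((Mon_finite deg d).subset fun a ha => ha.2)
        ((Mon_finite deg d).subset fun a ha => ha.2)]
      · congr 2
        ext a
        simp only [Set.mem_ofPred_eq, Set.mem_union]
        tauto
      · rw [Set.disjoint_left] at hd ⊢
        rintro a ⟨h4, -⟩ ⟨h5, -⟩
        exact hd h4 h5
    rw [h3, LL_add, h1 b (le_trans (le_max_left _ _) hb), h2 b (le_trans (le_max_right _ _) hb),
      add_zero]

/-- the functional on the Hilbert function of a radical set -/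
lemma LL_hfun {Δ : Finset (κ → ℕ)} {α : κ → ℕ} (hα : α ∈ Δ)
    (hmax : ∀ β ∈ Δ, α ≤ β → β = α) {b : ℕ} (hb : 1 ≤ b) :
    LL α b (fun d => (hfun Δ d : ℤ)) = 1 := by
  have h0 : (fun d => (hfun Δ d : ℤ)) = fun d => ∑ β ∈ Δ, ∏ k, (NN (β k) (d k) : ℤ) := by
    funext d
    rw [hfun, Nat.cast_sum]
    refine Finset.sum_congr rfl fun β _ => ?_
    rw [Nat.cast_prod]
  rw [h0, LL_sum]
  have h1 : ∀ β : κ → ℕ, LL α b (fun d => ∏ k, (NN (β k) (d k) : ℤ)) =
      ∏ k, ((fwdDiff (1:ℕ))^[α k - 1] fun j : ℕ => (NN (β k) (if α k = 0 then 0 else j + b) : ℤ)) 0 := by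
    intro β
    apply LL_prod
    intro i
    rfl
  rw [Finset.sum_eq_single α]
  · rw [h1]
    apply Finset.prod_eq_one
    intro k _
    by_cases hk : α k = 0
    · rw [hk]
      simp [NN]
    · obtain ⟨c, hc⟩ : ∃ c, α k = c + 1 := ⟨α k - 1, by omega⟩
      have e : (fun j : ℕ => (NN (α k) (if α k = 0 then 0 else j + b) : ℤ)) =
          fun j : ℕ => (Nat.multichoose (c + 1) (j + (b - 1)) : ℤ) := by
        funext j
        rw [if_neg hk, NN, if_neg hk, if_neg (by omega), hc]
        congr 2
        omega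
      rw [e, hc, Nat.add_sub_cancel]
      exact diff_one c _
  · intro β hβ hne
    obtain ⟨k, hk⟩ : ∃ k, β k < α k := by
      by_contra hcon
      push Not at hcon
      exact hne (hmax β hβ hcon)
    rw [h1]
    apply Finset.prod_eq_zero (Finset.mem_univ k)
    have hk0 : α k ≠ 0 := by omega
    by_cases hβk : β k = 0
    · have e : (fun j : ℕ => (NN (β k) (if α k = 0 then 0 else j + b) : ℤ)) = fun _ => 0 := by
        funext j
        rw [if_neg hk0, NN, if_pos hβk, if_neg (by omega), Nat.cast_zero]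
      rw [e, ← sum_co]
      simp
    · have e : (fun j : ℕ => (NN (β k) (if α k = 0 then 0 else j + b) : ℤ)) =
          fun j : ℕ => (Nat.multichoose (β k) (j + (b - 1)) : ℤ) := by
        funext j
        rw [if_neg hk0, NN, if_neg hβk, if_neg (by omega)]
        congr 2
        omega
      rw [e]
      exact diff_zero _ _ _ (by omega) (by omega)
  · intro h
    exact absurd hα h

/-- **Main lemma.** Let `A` be (the set of exponents of) a monomial ideal closed under replacing a
variable by a larger one. If the Hilbert function of its complement is `hfun Δ` for some down-set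
`Δ`, then `A` consists of the monomials whose need does not lie in `Δ`. -/
theorem mem_iff_of_hfun (hrk : Ranking deg rk) {A : Set (σ →₀ ℕ)} (hup : IsUpperSet A)
    (hR : ReplClosed deg rk A) {Δ : Finset (κ → ℕ)}
    (hbox : ∀ α ∈ Δ, InBox deg rk α)
    (hH : ∀ d, {a | a ∉ A ∧ wt deg a = d}.ncard = hfun Δ d) (a : σ →₀ ℕ) :
    a ∈ A ↔ need deg rk a ∉ Δ := by
  classical
  -- no monomial with need in `Δ` lies in `A`
  have key : ∀ a ∈ A, need deg rk a ∉ Δ := by
    intro a ha hna
    obtain ⟨α, hαΔ, hle, hmax⟩ : ∃ α ∈ Δ, need deg rk a ≤ α ∧ ∀ β ∈ Δ, α ≤ β → β = α := by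
      obtain ⟨α, hα⟩ := (Δ.finite_toSet).exists_le_maximal hna
      exact ⟨α, hα.2.prop, hα.1, fun β hβ h => le_antisymm (hα.2.2 hβ h) h⟩
    have hbα := hbox α hαΔ
    obtain ⟨n, hn⟩ := exists_nsmul_mem hrk hup hR (a := topMon hbα) ha
      (by rw [need_topMon hrk hbα]; exact hle)
    -- a power with exactly the need `α`
    have ht : (n + 1) • topMon hbα ∈ A := by
      refine hup ?_ hn
      rw [add_smul]
      exact le_add_of_nonneg_right (zero_le)
    have htα : need deg rk ((n + 1) • topMon hbα) = α := by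
      rw [need_nsmul (Nat.succ_ne_zero n), need_topMon hrk]
    obtain ⟨b, hb1, hb2⟩ := LL_dec hrk hup hR ht htα
      (dec_compl (Finset.univ.filter fun x => α (deg x) ≠ 0) A hup) (fun a ha => ha.1)
    have h1 := hb2 b (le_refl _)
    have h2 := LL_hfun hαΔ hmax hb1
    have h3 : LL α b (fun d => ({a | a ∈ {a | a ∉ A ∧ ∀ x, x ∉ (Finset.univ.filter fun x =>
        α (deg x) ≠ 0) → a x = 0} ∧ wt deg a = d}.ncard : ℤ)) = LL α b (fun d => (hfun Δ d : ℤ)) := by
      rw [LL, LL]
      refine Finset.sum_congr rfl fun i _ => ?_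
      congr 2
      rw [← hH]
      congr 1
      ext a
      constructor
      · rintro ⟨⟨h4, -⟩, h5⟩
        exact ⟨h4, h5⟩
      · rintro ⟨h4, h5⟩
        refine ⟨⟨h4, fun x hx => ?_⟩, h5⟩
        simp only [Finset.mem_filter, Finset.mem_univ, true_and, not_not] at hx
        have h6 := le_wt deg a x
        rw [h5, dg, if_pos hx] at h6
        omega
    rw [h3, h2] at h1
    exact one_ne_zero h1
  constructor
  · exact key a
  · intro h
    by_contra hcon
    -- compare the numbers of monomials of the degree of `a`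
    have h1 : {b | wt deg b = wt deg a ∧ need deg rk b ∈ Δ} ⊂
        {b | b ∉ A ∧ wt deg b = wt deg a} := by
      rw [Set.ssubset_iff_of_subset]
      · exact ⟨a, ⟨hcon, rfl⟩, fun h2 => h h2.2⟩
      · rintro b ⟨h2, h3⟩
        exact ⟨fun h4 => key b h4 h3, h2⟩
    have h2 := Set.ncard_lt_ncard h1 ((Mon_finite deg (wt deg a)).subset fun b hb => hb.2)
    rw [hH, ncard_need_mem hrk hbox] at h2
    exact lt_irrefl _ h2

end Pool.Agent.P8H33.CS
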