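import Pool.Agent.P8H33.CS.Ext

/-!
# The homogenization as a homogeneous part
-/

set_option autoImplicit false
set_option linter.unusedSectionVars false

open MvPolynomial
open scoped MonomialOrder

namespace Pool.Agent.P8H33.CS

section Lift

variable {K : Type*} [Field K] {σ : Type*} [Fintype σ] [DecidableEq σ] {κ : Type*} [Fintype κ]
  [DecidableEq κ] {deg : σ → κ}

/-- homogenization to the degree `d` -/
noncomputable def hlift (deg : σ → κ) (d : κ → ℕ) : MvPolynomial σ K →ₗ[K] MvPolynomial (σ ⊕ κ) K :=
  (basisMonomials σ K).constr K fun a => monomial (mk a fun k => d k - wt deg a k) 1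

lemma hlift_monomial (d : κ → ℕ) (a : σ →₀ ℕ) (t : K) :
    hlift deg d (monomial a t) = monomial (mk a fun k => d k - wt deg a k) t := by
  have h1 : monomial a t = t • basisMonomials σ K a := by
    rw [coe_basisMonomials, smul_monomial, smul_eq_mul, mul_one]
  rw [h1, map_smul, hlift, Module.Basis.constr_basis, smul_monomial, smul_eq_mul, mul_one]

lemma hlift_eq_sum (d : κ → ℕ) (f : MvPolynomial σ K) :
    hlift deg d f = ∑ a ∈ f.support, monomial (mk a fun k => d k - wt deg a k) (f.coeff a) := by
  conv_lhs => rw [f.as_sum, map_sum]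
  simp_rw [hlift_monomial]

lemma hom_eq_hlift (f : MvPolynomial σ K) :
    hom deg f = hlift deg (f.support.sup (Finsupp.weight (unitWeight deg))) f := by
  rw [hlift_eq_sum, hom]
  refine Finset.sum_congr rfl fun a _ => ?_
  rw [monomial_mk, monomial_inr]

/-- changing the target degree multiplies by a monomial in the new variables -/
lemma hlift_mul (d e : κ → ℕ) (hed : e ≤ d) {f : MvPolynomial σ K}
    (hf : ∀ a ∈ f.support, wt deg a ≤ e) :
    hlift deg d f = hlift deg e f * monomial (mk 0 fun k => d k - e k) 1 := by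
  rw [hlift_eq_sum, hlift_eq_sum, Finset.sum_mul]
  refine Finset.sum_congr rfl fun a ha => ?_
  rw [monomial_mul, mul_one, mk_add, add_zero]
  have e : (fun k => d k - wt deg a k) = (fun k => e k - wt deg a k) + fun k => d k - e k := by
    funext k
    have h1 : wt deg a k ≤ e k := hf a ha k
    have h2 : e k ≤ d k := hed k
    simp only [Pi.add_apply]
    omega
  rw [e]

lemma hlift_homog (d : κ → ℕ) {f : MvPolynomial σ K} (hf : ∀ a ∈ f.support, wt deg a ≤ d) :
    IsWeightedHomogeneous (unitWeight (Sum.elim deg id)) (hlift deg d f) d := by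
  rw [hlift_eq_sum]
  apply IsWeightedHomogeneous.sum
  intro a ha
  apply isWeightedHomogeneous_monomial
  have h := wt_mk (deg := deg) a (fun k => d k - wt deg a k)
  have h2 : wt deg a + (fun k => d k - wt deg a k) = d := by
    funext k
    have h1 : wt deg a k ≤ d k := hf a ha k
    simp only [Pi.add_apply]
    omega
  exact h.trans h2

/-- setting the new variables equal to `1` -/
noncomputable def dehom (K : Type*) [Field K] (σ κ : Type*) :
    MvPolynomial (σ ⊕ κ) K →ₐ[K] MvPolynomial σ K :=
  aeval (Sum.elim X fun _ => 1)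

lemma dehom_rename (f : MvPolynomial σ K) :
    dehom K σ κ (rename Sum.inl f) = f := by
  have h : (dehom K σ κ).comp (rename Sum.inl) = AlgHom.id K _ := by
    apply MvPolynomial.algHom_ext
    intro x
    rw [AlgHom.comp_apply, rename_X, dehom, aeval_X, Sum.elim_inl]
    rfl
  exact congrArg (fun φ => φ f) h

lemma dehom_monomial (c : σ ⊕ κ →₀ ℕ) (t : K) :
    dehom K σ κ (monomial c t) = monomial (lp c) t := by
  conv_lhs => rw [← mk_lp_rp c]
  rw [monomial_mk, map_mul, dehom_rename, monomial_inr, map_prod]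
  have h : ∀ k, dehom K σ κ (X (Sum.inr k) ^ rp c k) = 1 := by
    intro k
    rw [map_pow, dehom, aeval_X, Sum.elim_inr, one_pow]
  simp_rw [h]
  rw [Finset.prod_const_one, mul_one]

/-- a homogeneous polynomial is recovered from its dehomogenization -/
lemma hlift_dehom {F : MvPolynomial (σ ⊕ κ) K} {d : κ → ℕ}
    (hF : IsWeightedHomogeneous (unitWeight (Sum.elim deg id)) F d) :
    hlift deg d (dehom K σ κ F) = F := by
  conv_rhs => rw [F.as_sum]
  conv_lhs => rw [F.as_sum, map_sum, map_sum]
  refine Finset.sum_congr rfl fun c hc => ?_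
  rw [dehom_monomial, hlift_monomial]
  have e : (fun k => d k - wt deg (lp c) k) = rp c := by
    funext k
    have h1 : wt (Sum.elim deg id) c = d := hF (mem_support_iff.1 hc)
    rw [wt_ext] at h1
    rw [← h1, Pi.add_apply]
    omega
  rw [e, mk_lp_rp]

lemma dehom_map {I : Ideal (MvPolynomial σ K)} {F : MvPolynomial (σ ⊕ κ) K}
    (hF : F ∈ Ideal.map (rename Sum.inl) I) : dehom K σ κ F ∈ I := by
  have h : Ideal.map (rename Sum.inl : MvPolynomial σ K →ₐ[K] MvPolynomial (σ ⊕ κ) K) I ≤
      Ideal.comap (dehom K σ κ) I := by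
    rw [Ideal.map_le_iff_le_comap]
    intro f hf
    rw [Ideal.mem_comap, Ideal.mem_comap, dehom_rename]
    exact hf
  exact h hF

/-- the homogenizations of the elements of a graded ideal for its own grading -/
lemma hlift_mem {I : Ideal (MvPolynomial σ K)} (hI : IsGraded deg I) {f : MvPolynomial σ K}
    (hf : f ∈ I) (d : κ → ℕ) : hlift deg d f ∈ Ideal.map (rename Sum.inl) I := by
  have h1 : ∀ e, hlift deg d (weightedHomogeneousComponent (unitWeight deg) e f) ∈
      Ideal.map (rename (Sum.inl : σ → σ ⊕ κ) : MvPolynomial σ K →ₐ[K] _) I := by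
    intro e
    have h2 : hlift deg d (weightedHomogeneousComponent (unitWeight deg) e f) =
        rename Sum.inl (weightedHomogeneousComponent (unitWeight deg) e f) *
          monomial (mk 0 fun k => d k - e k) 1 := by
      set p := weightedHomogeneousComponent (unitWeight deg) e f with hp
      have hph : IsWeightedHomogeneous (unitWeight deg) p e :=
        weightedHomogeneousComponent_isWeightedHomogeneous _ _
      rw [hlift_eq_sum]
      conv_rhs => rw [p.as_sum, map_sum, Finset.sum_mul]
      refine Finset.sum_congr rfl fun a ha => ?_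
      have h3 : wt deg a = e := hph (mem_support_iff.1 ha)
      rw [← monomial_mk, h3]
    rw [h2]
    exact Ideal.mul_mem_right _ _ (Ideal.mem_map_of_mem _ (hI f hf e))
  have h2 : hlift deg d f ∈ (Ideal.map (rename (Sum.inl : σ → σ ⊕ κ) :
      MvPolynomial σ K →ₐ[K] _) I).restrictScalars K := by
    rw [← finsum_weightedHomogeneousComponent (unitWeight deg) f]
    have h4 : ∀ g : MvPolynomial σ K, g ∈ Submodule.comap (hlift deg d)
        ((Ideal.map (rename (Sum.inl : σ → σ ⊕ κ) : MvPolynomial σ K →ₐ[K] _) I).restrictScalars K)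
        ↔ hlift deg d g ∈ (Ideal.map (rename (Sum.inl : σ → σ ⊕ κ) :
          MvPolynomial σ K →ₐ[K] _) I).restrictScalars K := fun g => Iff.rfl
    rw [← h4]
    apply finsum_induction (fun x => x ∈ Submodule.comap _ _) (Submodule.zero_mem _)
      (fun _ _ => Submodule.add_mem _)
    intro e
    exact h1 e
  exact h2

variable {κ' : Type*} [Fintype κ'] [DecidableEq κ'] {deg' : σ → κ'} {π : κ → κ'}

lemma rename_hlift (h : ∀ x, deg' x = π (deg x)) {d : κ → ℕ} {f : MvPolynomial σ K}
    (hf : ∀ a ∈ f.support, wt deg a ≤ d) :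
    rename (Sum.map id π) (hlift deg d f) = hlift deg' (push π d) f := by
  rw [hlift_eq_sum, hlift_eq_sum, map_sum]
  refine Finset.sum_congr rfl fun a ha => ?_
  rw [rename_monomial]
  have hw : wt deg' a = push π (wt deg a) := by
    have := wt_mapDomain (deg := deg) (deg' := deg') (ψ := id) (π := π) h a
    rwa [Finsupp.mapDomain_id] at this
  have h1 : ∀ k, wt deg a k ≤ d k := hf a ha
  suffices hmain : Finsupp.mapDomain (Sum.map id π) (mk a fun k => d k - wt deg a k) =
      mk a fun k => push π d k - wt deg' a k by rw [hmain]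
  ext z
  rw [Finsupp.mapDomain, Finsupp.sum_fintype _ _ (by simp), Finsupp.finsetSum_apply,
    Fintype.sum_sum_type]
  rcases z with x | j
  · have e1 : ∑ y : σ, (Finsupp.single (Sum.map id π (Sum.inl y : σ ⊕ κ))
        (mk a (fun k => d k - wt deg a k) (Sum.inl y)) : σ ⊕ κ' →₀ ℕ) (Sum.inl x) = a x := by
      rw [Finset.sum_eq_single x]
      · rw [Sum.map_inl, id, Finsupp.single_eq_same, mk_inl]
      · intro y _ hy
        rw [Sum.map_inl, id, Finsupp.single_apply, if_neg]
        simpa using hy
      · simp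
    have e2 : ∑ k : κ, (Finsupp.single (Sum.map id π (Sum.inr k : σ ⊕ κ))
        (mk a (fun k => d k - wt deg a k) (Sum.inr k)) : σ ⊕ κ' →₀ ℕ) (Sum.inl x) = 0 := by
      apply Finset.sum_eq_zero
      intro k _
      rw [Sum.map_inr, Finsupp.single_apply, if_neg (by simp)]
    rw [e1, e2, add_zero, mk_inl]
  · have e1 : ∑ y : σ, (Finsupp.single (Sum.map id π (Sum.inl y : σ ⊕ κ))
        (mk a (fun k => d k - wt deg a k) (Sum.inl y)) : σ ⊕ κ' →₀ ℕ) (Sum.inr j) = 0 := by
      apply Finset.sum_eq_zero
      intro y _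
      rw [Sum.map_inl, Finsupp.single_apply, if_neg (by simp)]
    have e2 : ∑ k : κ, (Finsupp.single (Sum.map id π (Sum.inr k : σ ⊕ κ))
        (mk a (fun k => d k - wt deg a k) (Sum.inr k)) : σ ⊕ κ' →₀ ℕ) (Sum.inr j) =
        ∑ k ∈ Finset.univ.filter (fun k => π k = j), (d k - wt deg a k) := by
      rw [Finset.sum_filter]
      refine Finset.sum_congr rfl fun k _ => ?_
      rw [Sum.map_inr, Finsupp.single_apply, mk_inr]
      by_cases hk : π k = j
      · rw [if_pos hk, if_pos (by rw [hk])]
      · rw [if_neg hk, if_neg (by simpa using hk)]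
    rw [e1, e2, zero_add, mk_inr, hw]
    simp only [push]
    rw [Finset.sum_tsub_distrib _ (fun k _ => h1 k)]

/-- **The homogenization as a homogeneous part.** -/
theorem homIdeal_eq (h : ∀ x, deg' x = π (deg x)) {I : Ideal (MvPolynomial σ K)}
    (hI : IsGraded deg' I) :
    homIdeal deg I = starIdeal (Sum.elim deg id) (Ideal.comap (rename (Sum.map id π))
      (Ideal.map (rename (Sum.inl : σ → σ ⊕ κ') : MvPolynomial σ K →ₐ[K] _) I)) := by
  have hle : ∀ f : MvPolynomial σ K, ∀ a ∈ f.support,
      wt deg a ≤ f.support.sup (Finsupp.weight (unitWeight deg)) := fun f a ha =>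
    Finset.le_sup (f := Finsupp.weight (unitWeight deg)) ha
  apply le_antisymm
  · rw [homIdeal, Ideal.span_le]
    rintro _ ⟨f, hf, -, rfl⟩
    rw [hom_eq_hlift]
    apply Ideal.subset_span
    refine ⟨?_, _, hlift_homog _ (hle f)⟩
    rw [Ideal.mem_comap, rename_hlift h (hle f)]
    exact hlift_mem hI hf _
  · rw [starIdeal, Ideal.span_le]
    rintro F ⟨hF, d, hd⟩
    rw [Ideal.mem_comap] at hF
    have h1 := dehom_map hF
    have h2 : dehom K σ κ' (rename (Sum.map id π) F) = dehom K σ κ F := by
      have h3 : (dehom K σ κ').comp (rename (Sum.map id π)) = dehom K σ κ := by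
        apply MvPolynomial.algHom_ext
        rintro (x | k)
        · rw [AlgHom.comp_apply, rename_X, dehom, dehom, aeval_X, aeval_X]
          rfl
        · rw [AlgHom.comp_apply, rename_X, dehom, dehom, aeval_X, aeval_X]
          rfl
      exact congrArg (fun φ => φ F) h3
    rw [h2] at h1
    set f := dehom K σ κ F with hf
    have h4 : F = hlift deg d f := (hlift_dehom hd).symm
    have h5 : ∀ a ∈ f.support, wt deg a ≤ d := by
      intro a ha
      rw [mem_support_iff, hf, F.as_sum, map_sum, coeff_sum] at ha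
      obtain ⟨c, hc, hc2⟩ := Finset.exists_ne_zero_of_sum_ne_zero ha
      rw [dehom_monomial, coeff_monomial] at hc2
      split_ifs at hc2 with h6
      · subst h6
        have h7 : wt (Sum.elim deg id) c = d := hd (mem_support_iff.1 hc)
        rw [wt_ext] at h7
        exact le_of_le_of_eq le_self_add h7
      · exact absurd rfl hc2
    by_cases hf0 : f = 0
    · rw [h4, hf0, map_zero]
      exact Ideal.zero_mem _
    · have h6 : f.support.sup (Finsupp.weight (unitWeight deg)) ≤ d :=
        Finset.sup_le fun a ha => h5 a ha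
      rw [h4, hlift_mul d _ h6 (hle f), ← hom_eq_hlift]
      apply Ideal.mul_mem_right
      exact Ideal.subset_span ⟨f, h1, hf0, rfl⟩

/-- The homogenization of a Cartwright-Sturmfels ideal for a finer grading is
Cartwright-Sturmfels. -/
theorem isCS_homIdeal [Infinite K] (h : ∀ x, deg' x = π (deg x)) {m₀ : MonomialOrder σ}
    {I : Ideal (MvPolynomial σ K)} (hI : IsCS m₀ deg' I) (m : MonomialOrder (σ ⊕ κ)) :
    IsCS m (Sum.elim deg id) (homIdeal deg I) := by
  obtain ⟨Δ, hΔ⟩ := hasHF_of_isCS hI
  obtain ⟨Δ', hΔ'⟩ := hasHF_ext hI.1 hΔ m₀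
  rw [homIdeal_eq h hI.1]
  refine isCS_star (deg' := Sum.elim deg' id) (π := π) m ?_ hΔ'
  rintro (x | k)
  · exact h x
  · rfl

end Lift

end Pool.Agent.P8H33.CS
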