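import Pool.Agent.P8H33.CS.Defs

/-!
# Leading exponents of a space of polynomials
-/

set_option autoImplicit false

open MvPolynomial
open scoped MonomialOrder

namespace Pool.Agent.P8H33.CS

variable {K : Type*} [Field K] {σ : Type*}

/-- the leading exponents of the elements of a subspace -/
def LM (m : MonomialOrder σ) (W : Submodule K (MvPolynomial σ K)) : Set (σ →₀ ℕ) :=
  {a | ∃ f ∈ W, f ≠ 0 ∧ m.degree f = a}

/-- the number of leading exponents which are at least `v` -/
noncomputable def rho (m : MonomialOrder σ) (W : Submodule K (MvPolynomial σ K)) (v : σ →₀ ℕ) : ℕ :=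
  (LM m W ∩ {a | m.toSyn v ≤ m.toSyn a}).ncard

variable {m : MonomialOrder σ} {W W' : Submodule K (MvPolynomial σ K)}

lemma LM_mono (h : W ≤ W') : LM m W ⊆ LM m W' := by
  rintro a ⟨f, hf, h0, h1⟩
  exact ⟨f, h hf, h0, h1⟩

lemma exists_monic {a : σ →₀ ℕ} (ha : a ∈ LM m W) : ∃ f ∈ W, m.Monic f ∧ m.degree f = a := by
  obtain ⟨f, hf, h0, rfl⟩ := ha
  have hc : m.leadingCoeff f ≠ 0 := m.leadingCoeff_ne_zero_iff.2 h0
  have hd : m.degree ((m.leadingCoeff f)⁻¹ • f) = m.degree f :=
    m.degree_smul_of_mem_nonZeroDivisors (mem_nonZeroDivisors_of_ne_zero (inv_ne_zero hc))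
  refine ⟨(m.leadingCoeff f)⁻¹ • f, W.smul_mem _ hf, ?_, hd⟩
  rw [MonomialOrder.Monic, MonomialOrder.leadingCoeff, hd, coeff_smul, smul_eq_mul]
  exact inv_mul_cancel₀ hc

lemma coeff_of_lt {f : MvPolynomial σ K} {a b : σ →₀ ℕ} (h : m.degree f = a)
    (hab : m.toSyn a < m.toSyn b) : f.coeff b = 0 := by
  subst h
  exact m.coeff_eq_zero_of_lt hab

/-- a family of nonzero polynomials with distinct leading exponents: a nontrivial combination is
not zero, more precisely one of the coefficients at the leading exponents does not vanish -/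
lemma exists_coeff_ne_zero {ι : Type*} [Fintype ι] {f : ι → MvPolynomial σ K} {e : ι → (σ →₀ ℕ)}
    (he : Function.Injective e) (hf : ∀ i, m.Monic (f i)) (hd : ∀ i, m.degree (f i) = e i)
    {c : ι → K} (hc : c ≠ 0) :
    ∃ i, c i ≠ 0 ∧ (∑ j, c j • f j).coeff (e i) ≠ 0 ∧
      ∀ j, c j ≠ 0 → m.toSyn (e j) ≤ m.toSyn (e i) := by
  classical
  obtain ⟨i₀, hi₀⟩ := Function.ne_iff.1 hc
  obtain ⟨i, hi, hmax⟩ := Finset.exists_max_image (Finset.univ.filter fun i => c i ≠ 0)
    (fun i => m.toSyn (e i)) ⟨i₀, by simpa using hi₀⟩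
  simp only [Finset.mem_filter, Finset.mem_univ, true_and] at hi hmax
  refine ⟨i, hi, ?_, hmax⟩
  rw [coeff_sum, Finset.sum_eq_single i]
  · rw [coeff_smul, smul_eq_mul]
    refine mul_ne_zero hi ?_
    have := hf i
    rw [MonomialOrder.Monic, MonomialOrder.leadingCoeff, hd] at this
    rw [this]
    exact one_ne_zero
  · intro j _ hj
    rw [coeff_smul, smul_eq_mul]
    by_cases hcj : c j = 0
    · rw [hcj, zero_mul]
    · rw [coeff_of_lt (hd j), mul_zero]
      refine lt_of_le_of_ne (hmax j hcj) fun h => hj (he (m.toSyn.injective h))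
  · simp

lemma linearIndependent_of_degree {ι : Type*} [Fintype ι] {f : ι → MvPolynomial σ K}
    {e : ι → (σ →₀ ℕ)} (he : Function.Injective e) (hf : ∀ i, m.Monic (f i))
    (hd : ∀ i, m.degree (f i) = e i) : LinearIndependent K f := by
  rw [Fintype.linearIndependent_iff]
  intro c hc
  by_contra hcon
  push Not at hcon
  obtain ⟨i, hi⟩ := hcon
  obtain ⟨j, -, h2, -⟩ := exists_coeff_ne_zero (m := m) he hf hd (c := c)
    (fun h => hi (by rw [h]; rfl))
  rw [hc] at h2
  exact h2 (coeff_zero _)

lemma sub_smul_lt {f g : MvPolynomial σ K} (hg : m.Monic g)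
    (hd : m.degree g = m.degree f) (hne : f - m.leadingCoeff f • g ≠ 0) :
    m.toSyn (m.degree (f - m.leadingCoeff f • g)) < m.toSyn (m.degree f) := by
  set h := f - m.leadingCoeff f • g with hh
  have hco : h.coeff (m.degree f) = 0 := by
    rw [hh, coeff_sub, coeff_smul, smul_eq_mul]
    have := hg
    rw [MonomialOrder.Monic, MonomialOrder.leadingCoeff, hd] at this
    rw [this, mul_one, MonomialOrder.leadingCoeff, sub_self]
  have hle : m.toSyn (m.degree h) ≤ m.toSyn (m.degree f) := by
    rw [m.degree_le_iff]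
    intro b hb
    by_contra hlt
    rw [not_le] at hlt
    rw [mem_support_iff] at hb
    apply hb
    rw [hh, coeff_sub, coeff_smul, m.coeff_eq_zero_of_lt hlt, coeff_of_lt hd hlt]
    simp
  refine lt_of_le_of_ne hle fun heq => ?_
  have h1 := m.toSyn.injective heq
  have h2 := m.leadingCoeff_ne_zero_iff.2 hne
  rw [MonomialOrder.leadingCoeff, h1, hco] at h2
  exact h2 rfl

/-- choose monic elements with the given leading exponents; they span -/
lemma mem_span_of_monic (F : LM m W → MvPolynomial σ K) (hF : ∀ a, F a ∈ W)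
    (hmon : ∀ a, m.Monic (F a)) (hdeg : ∀ a, m.degree (F a) = a.1) (f : MvPolynomial σ K)
    (hf : f ∈ W) : f ∈ Submodule.span K (Set.range F) := by
  obtain ⟨s, hs⟩ : ∃ s, m.toSyn (m.degree f) = s := ⟨_, rfl⟩
  induction s using WellFoundedLT.induction generalizing f with
  | ind s ih =>
    by_cases h0 : f = 0
    · rw [h0]; exact zero_mem _
    have ha : m.degree f ∈ LM m W := ⟨f, hf, h0, rfl⟩
    set g := F ⟨m.degree f, ha⟩ with hg
    have hgs : g ∈ Submodule.span K (Set.range F) := Submodule.subset_span ⟨_, rfl⟩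
    have e : f = (f - m.leadingCoeff f • g) + m.leadingCoeff f • g := by abel
    rw [e]
    refine add_mem ?_ (Submodule.smul_mem _ _ hgs)
    by_cases hne : f - m.leadingCoeff f • g = 0
    · rw [hne]; exact zero_mem _
    refine ih _ ?_ _ (W.sub_mem hf (W.smul_mem _ (hF _))) rfl
    rw [← hs]
    exact sub_smul_lt (hmon _) (hdeg _) hne

lemma LM_finite [FiniteDimensional K W] : (LM m W).Finite := by
  classical
  by_contra hinf
  obtain ⟨t, ht, hcard⟩ := Set.Infinite.exists_subset_card_eq hinf (Module.finrank K W + 1)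
  choose F hF hmon hdeg using fun a : LM m W => exists_monic a.2
  have hli : LinearIndependent K (fun a : t => (⟨F ⟨a, ht a.2⟩, hF _⟩ : W)) := by
    have h1 : LinearIndependent K (fun a : t => F ⟨a, ht a.2⟩) :=
      linearIndependent_of_degree (m := m) (e := fun a : t => (a : σ →₀ ℕ))
        Subtype.val_injective (fun a => hmon _) (fun a => hdeg _)
    exact LinearIndependent.of_comp W.subtype h1
  have h2 := hli.fintype_card_le_finrank
  rw [Fintype.card_coe, hcard] at h2
  omega

lemma LM_ncard [FiniteDimensional K W] : (LM m W).ncard = Module.finrank K W := by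
  classical
  have hfin : (LM m W).Finite := LM_finite
  have : Fintype (LM m W) := hfin.fintype
  choose F hF hmon hdeg using fun a : LM m W => exists_monic a.2
  have h1 : LinearIndependent K F :=
    linearIndependent_of_degree (m := m) (e := fun a : LM m W => (a : σ →₀ ℕ))
      Subtype.val_injective hmon hdeg
  have h2 : Submodule.span K (Set.range F) = W := by
    apply le_antisymm
    · rw [Submodule.span_le]
      rintro _ ⟨a, rfl⟩
      exact hF a
    · intro f hf
      exact mem_span_of_monic F hF hmon hdeg f hf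
  have h3 : Module.finrank K W = Fintype.card (LM m W) := by
    rw [← finrank_span_eq_card h1, h2]
  rw [h3, ← Nat.card_coe_set_eq, Nat.card_eq_fintype_card]

/-- a lower bound for the number of leading exponents above `v` -/
lemma card_le_rho [FiniteDimensional K W] {ι : Type*} [Fintype ι] {w : ι → MvPolynomial σ K}
    (hw : ∀ i, w i ∈ W) (v : σ →₀ ℕ)
    (h : ∀ c : ι → K, c ≠ 0 → ∃ b, m.toSyn v ≤ m.toSyn b ∧ (∑ i, c i • w i).coeff b ≠ 0) :
    Fintype.card ι ≤ rho m W v := by
  classical
  have hli : LinearIndependent K w := by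
    rw [Fintype.linearIndependent_iff]
    intro c hc
    by_contra hcon
    push Not at hcon
    obtain ⟨i, hi⟩ := hcon
    obtain ⟨b, -, hb⟩ := h c (fun h => hi (by rw [h]; rfl))
    rw [hc] at hb
    exact hb (coeff_zero _)
  set U := Submodule.span K (Set.range w) with hU
  have hUW : U ≤ W := by
    rw [hU, Submodule.span_le]
    rintro _ ⟨i, rfl⟩
    exact hw i
  have hfU : FiniteDimensional K U := FiniteDimensional.span_of_finite K (Set.finite_range w)
  have h1 : (LM m U).ncard = Fintype.card ι := by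
    rw [LM_ncard, hU, finrank_span_eq_card hli]
  rw [← h1]
  apply Set.ncard_le_ncard _ (Set.Finite.inter_of_left LM_finite _)
  rintro a ⟨f, hf, h0, rfl⟩
  refine ⟨⟨f, hUW hf, h0, rfl⟩, ?_⟩
  rw [hU, Submodule.mem_span_range_iff_exists_fun] at hf
  obtain ⟨c, rfl⟩ := hf
  have hc : c ≠ 0 := by
    rintro rfl
    simp at h0
  obtain ⟨b, hb1, hb2⟩ := h c hc
  exact hb1.trans (m.le_degree (mem_support_iff.2 hb2))

end Pool.Agent.P8H33.CS
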