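import Pool.Agent.P8H33.CS.Rad

/-!
# Cartwright-Sturmfels ideals and Hilbert functions
-/

set_option autoImplicit false
set_option linter.unusedSectionVars false

open MvPolynomial
open scoped MonomialOrder

namespace Pool.Agent.P8H33.CS

variable {K : Type*} [Field K] {σ : Type*} [Fintype σ] [DecidableEq σ] {κ : Type*} [Fintype κ]
  [DecidableEq κ] {deg : σ → κ} {m : MonomialOrder σ}

/-- the generic set of leading exponents of `J`, and for each degree a polynomial whose non
vanishing ensures that the group element is generic in this degree -/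
structure IsGen (m : MonomialOrder σ) (deg : σ → κ) (J : Ideal (MvPolynomial σ K))
    (G : Set (σ →₀ ℕ)) (p : (κ → ℕ) → MvPolynomial (σ × σ) K) : Prop where
  ne : ∀ d, ∃ g ∈ Grp K deg, ev g (p d) ≠ 0
  eq : ∀ g ∈ Grp K deg, ∀ a, ev g (p (wt deg a)) ≠ 0 → (a ∈ EE m (Ideal.map (act g) J) ↔ a ∈ G)
  repl : ReplClosed deg (rkm m deg) G
  count : ∀ d, {a | a ∈ G ∧ wt deg a = d}.ncard = Module.finrank K (hpart deg J d)

theorem exists_isGen [Infinite K] (m : MonomialOrder σ) {J : Ideal (MvPolynomial σ K)}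
    (hJ : IsGraded deg J) : ∃ G p, IsGen m deg J G p := by
  have h := fun d => exists_generic (m := m) (hpart deg J d) (hpart_le (J := J) (d := d))
  choose Γ p h1 h2 h3 using h
  refine ⟨{a | a ∈ Γ (wt deg a)}, p, h1, ?_, ?_, ?_⟩
  · intro g hg a ha
    rw [EE_iff (isGraded_map_act hg hJ), hpart_map_act hg, h2 _ g hg ha]
    rfl
  · intro a ha x y hd hlt
    have ha' : a ∈ Γ (wt deg a) := ha
    obtain ⟨g, hg, hg'⟩ := h1 (wt deg a)
    have h4 := generic_repl hg (h2 _ g hg hg') (h3 _) ha' hd (rkm_lt hd hlt)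
    have h5 : wt deg (repl a x y) = wt deg a := by
      have h6 : repl a x y ∈ Mon deg (wt deg a) := by
        refine LM_homog (deg := deg) (K := K) (m := m) ?_ ((h2 _ g hg hg').symm ▸ h4)
        rw [← hpart_map_act hg]
        exact hpart_le
      exact h6
    show repl a x y ∈ Γ (wt deg (repl a x y))
    rw [h5]
    exact h4
  · intro d
    obtain ⟨g, hg, hg'⟩ := h1 d
    rw [← finrank_map_act hg, ← LM_ncard (m := m), h2 _ g hg hg']
    congr 1
    ext a
    constructor
    · rintro ⟨h4, h5⟩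
      have h4' : a ∈ Γ (wt deg a) := h4
      rwa [h5] at h4'
    · intro ha
      have h6 : a ∈ Mon deg d := by
        refine LM_homog (deg := deg) (K := K) (m := m) ?_ ((h2 _ g hg hg').symm ▸ ha)
        rw [← hpart_map_act hg]
        exact hpart_le
      have h7 : wt deg a = d := h6
      refine ⟨?_, h7⟩
      show a ∈ Γ (wt deg a)
      rwa [h7]

lemma IsGen.upper [Infinite K] {J : Ideal (MvPolynomial σ K)} {G : Set (σ →₀ ℕ)}
    {p : (κ → ℕ) → MvPolynomial (σ × σ) K} (h : IsGen m deg J G p) : IsUpperSet G := by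
  intro a b hab ha
  obtain ⟨g, hg, h1, h2⟩ := exists_ne_zero (h.ne (wt deg a)) (h.ne (wt deg b))
  rw [← h.eq g hg a h1] at ha
  rw [← h.eq g hg b h2]
  exact EE_upper _ hab ha

/-- the Hilbert function of `K[σ]/J` is `hfun Δ` -/
def HasHF (deg : σ → κ) (J : Ideal (MvPolynomial σ K)) (Δ : Finset (κ → ℕ)) : Prop :=
  (∀ α ∈ Δ, ∀ k, α k ≤ (Finset.univ.filter fun x => deg x = k).card) ∧
  ∀ d, Module.finrank K (hpart deg J d) + hfun Δ d = (Mon deg d).ncard

lemma compl_count {G : Set (σ →₀ ℕ)} (d : κ → ℕ) :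
    {a | a ∈ G ∧ wt deg a = d}.ncard + {a | a ∉ G ∧ wt deg a = d}.ncard = (Mon deg d).ncard := by
  rw [← Set.ncard_union_eq _ ((Mon_finite deg d).subset fun a ha => ha.2)
    ((Mon_finite deg d).subset fun a ha => ha.2)]
  · congr 1
    ext a
    simp only [Set.mem_union, Set.mem_ofPred_eq, Mon]
    tauto
  · rw [Set.disjoint_left]
    rintro a ⟨h1, -⟩ ⟨h2, -⟩
    exact h2 h1

lemma IsGen.mem_iff [Infinite K] {J : Ideal (MvPolynomial σ K)} {G : Set (σ →₀ ℕ)}
    {p : (κ → ℕ) → MvPolynomial (σ × σ) K} (h : IsGen m deg J G p) {Δ : Finset (κ → ℕ)}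
    (hΔ : HasHF deg J Δ) (a : σ →₀ ℕ) : a ∈ G ↔ need deg (rkm m deg) a ∉ Δ := by
  apply mem_iff_of_hfun (rkm_ranking m deg) h.upper h.repl
  · intro α hα
    rw [inBox_iff (rkm_ranking m deg)]
    exact hΔ.1 α hα
  · intro d
    have h1 := compl_count (deg := deg) (G := G) d
    have h2 := hΔ.2 d
    rw [h.count] at h1
    omega

lemma IsGen.isRad [Infinite K] {J : Ideal (MvPolynomial σ K)} {G : Set (σ →₀ ℕ)}
    {p : (κ → ℕ) → MvPolynomial (σ × σ) K} (h : IsGen m deg J G p) {Δ : Finset (κ → ℕ)}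
    (hΔ : HasHF deg J Δ) : IsRad G := by
  intro n a hn
  by_cases h0 : n = 0
  · subst h0
    rw [zero_smul] at hn
    exact h.upper (zero_le) hn
  · rw [h.mem_iff hΔ] at hn ⊢
    rwa [need_nsmul h0] at hn

/-- **All the initial ideals are radical.** -/
theorem allRad_of_hasHF [Infinite K] {J : Ideal (MvPolynomial σ K)} (hJ : IsGraded deg J)
    {Δ : Finset (κ → ℕ)} (hΔ : HasHF deg J Δ) (m : MonomialOrder σ) {g : Matrix σ σ K}
    (hg : g ∈ Grp K deg) : IsRad (EE m (Ideal.map (act g) J)) := by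
  intro n c hn
  set A := EE m (Ideal.map (act g) J) with hA
  have hAup : IsUpperSet A := EE_upper _
  by_cases h0 : n = 0
  · subst h0
    rw [zero_smul] at hn
    exact hAup (zero_le) hn
  have hMg : IsGraded deg (monId K A) := isGraded_monId hAup
  have hM : HasHF deg (monId K A) Δ := by
    refine ⟨hΔ.1, fun d => ?_⟩
    rw [← hΔ.2 d]
    congr 1
    rw [← finrank_map_act hg (hpart deg J d), ← hpart_map_act hg,
      finrank_hpart (m := m) hMg, finrank_hpart (m := m) (isGraded_map_act hg hJ), EE_monId hAup]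
  obtain ⟨G, p, hG⟩ := exists_isGen m hMg
  obtain ⟨h, hh, h1, h2⟩ := exists_ne_zero (hG.ne (wt deg c)) (hG.ne (wt deg (n • c)))
  have hc : monomial c (1 : K) ∈ monId K A := by
    have h3 : act h (monomial c (1 : K)) ∈ Ideal.map (act h) (monId K A) := by
      apply pow_mem_imp (m := m) (n := n)
        (V := weightedHomogeneousSubmodule K (unitWeight deg) (wt deg c))
      · intro f hf hf0 hfn
        have hfw : wt deg (m.degree f) = wt deg c := hf (mem_support_iff.1 (m.degree_mem_support hf0))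
        have h4 : n • m.degree f ∈ EE m (Ideal.map (act h) (monId K A)) :=
          ⟨f ^ n, hfn, pow_ne_zero _ hf0, m.degree_pow f n⟩
        have h5 : wt deg (n • m.degree f) = wt deg (n • c) := by
          have e1 : wt deg (n • m.degree f) = n • wt deg (m.degree f) := map_nsmul _ _ _
          have e2 : wt deg (n • c) = n • wt deg c := map_nsmul _ _ _
          rw [e1, e2, hfw]
        rw [hG.eq h hh _ (by rw [h5]; exact h2)] at h4
        have h6 := hG.isRad hM n _ h4
        rw [← hG.eq h hh _ (by rw [hfw]; exact h1), EE_iff (isGraded_map_act hh hMg), hfw] at h6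
        exact h6
      · exact act_homog hh.2 (isWeightedHomogeneous_monomial _ _ _ rfl)
      · rw [← map_pow]
        apply Ideal.mem_map_of_mem
        rw [monomial_pow, one_pow]
        exact (monomial_mem_monId hAup).2 hn
    rw [mem_map_act hh, act_inv_act hh] at h3
    exact h3
  exact (monomial_mem_monId hAup).1 hc

/-- If all the initial ideals are radical for the term order `m`, the ideal is a
Cartwright-Sturmfels ideal. -/
theorem isCS_of_allRad [Infinite K] {J : Ideal (MvPolynomial σ K)} (hJ : IsGraded deg J)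
    (hrad : ∀ g ∈ Grp K deg, IsRad (EE m (Ideal.map (act g) J))) : IsCS m deg J := by
  obtain ⟨G, p, hG⟩ := exists_isGen m hJ
  have hGrad : IsRad G := by
    intro n a hn
    obtain ⟨h, hh, h1, h2⟩ := exists_ne_zero (hG.ne (wt deg a)) (hG.ne (wt deg (n • a)))
    rw [← hG.eq h hh _ h2] at hn
    rw [← hG.eq h hh _ h1]
    exact hrad h hh n a hn
  refine ⟨hJ, monId K G, ?_, ?_⟩
  · refine ⟨{g ∈ Grp K deg | ∃ q ∈ ({∏ s : Finset σ, p (wt deg (sqf s))} :
      Set (MvPolynomial (σ × σ) K)), eval (fun q => g q.1 q.2) q ≠ 0}, ⟨_, rfl⟩, ?_, ?_⟩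
    · obtain ⟨g, hg, h1⟩ := exists_ne_zero_prod (deg := deg) (Finset.univ : Finset (Finset σ))
        (fun s => p (wt deg (sqf s))) (fun s _ => hG.ne _)
      exact ⟨g, hg, _, rfl, h1⟩
    · rintro g ⟨hg, _, rfl, h1⟩
      rw [initialIdeal_eq]
      congr 1
      rw [map_prod] at h1
      have h2 : ∀ s : Finset σ, ev g (p (wt deg (sqf s))) ≠ 0 := fun s =>
        Finset.prod_ne_zero_iff.1 h1 s (Finset.mem_univ _)
      ext a
      rw [sqf_mem_iff (EE_upper _) (hrad g hg), sqf_mem_iff hG.upper hGrad,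
        hG.eq g hg _ (h2 _)]
  · apply isRadical_of_isRad (m := m)
    rw [EE_monId hG.upper]
    exact hGrad

/-- The Hilbert function of a Cartwright-Sturmfels ideal. -/
theorem hasHF_of_isCS [Infinite K] {J : Ideal (MvPolynomial σ K)} (h : IsCS m deg J) :
    ∃ Δ, HasHF deg J Δ := by
  classical
  obtain ⟨hJ, Γ, ⟨U, ⟨P, rfl⟩, ⟨g₀, hg₀, p₀, hp₀, hne₀⟩, hU⟩, hrad⟩ := h
  obtain ⟨G, p, hG⟩ := exists_isGen m hJ
  have hΓ : Γ = monId K G := by
    have h1 := hU g₀ ⟨hg₀, p₀, hp₀, hne₀⟩
    rw [← h1, initialIdeal_eq]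
    congr 1
    ext a
    obtain ⟨g, hg, h2, h3⟩ := exists_ne_zero ⟨g₀, hg₀, hne₀⟩ (hG.ne (wt deg a))
    have h4 := hU g ⟨hg, p₀, hp₀, h2⟩
    rw [← hG.eq g hg a h3, ← monomial_mem_monId (K := K) (EE_upper _), ← initialIdeal_eq, h1,
      ← monomial_mem_monId (K := K) (EE_upper _), ← initialIdeal_eq, h4]
  have hGrad : IsRad G := isRad_of_isRadical hG.upper (hΓ ▸ hrad)
  have hrk := rkm_ranking m deg
  -- the possible needs
  have hfin : {α : κ → ℕ | InBox deg (rkm m deg) α}.Finite := by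
    refine Set.Finite.subset (Set.finite_Iic fun k => (Finset.univ.filter fun x => deg x = k).card)
      ?_
    intro α hα k
    exact (inBox_iff hrk).1 hα k
  set Δ : Finset (κ → ℕ) := hfin.toFinset.filter fun α => ∀ a, need deg (rkm m deg) a = α → a ∉ G
    with hΔ
  have hbox : ∀ α ∈ Δ, InBox deg (rkm m deg) α := by
    intro α hα
    rw [hΔ, Finset.mem_filter, Set.Finite.mem_toFinset] at hα
    exact hα.1
  have hmem : ∀ a, a ∈ G ↔ need deg (rkm m deg) a ∉ Δ := by
    intro a
    constructor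
    · intro ha h1
      rw [hΔ, Finset.mem_filter] at h1
      exact h1.2 a rfl ha
    · intro h1
      by_contra ha
      apply h1
      rw [hΔ, Finset.mem_filter, Set.Finite.mem_toFinset]
      refine ⟨need_inBox a, fun b hb hbG => ha ?_⟩
      exact mem_of_need_le hrk hG.upper hG.repl hGrad hbG (fun k => by rw [hb])
  refine ⟨Δ, fun α hα => (inBox_iff hrk).1 (hbox α hα), fun d => ?_⟩
  have h1 := compl_count (deg := deg) (G := G) d
  have h2 : {a | a ∉ G ∧ wt deg a = d}.ncard = hfun Δ d := by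
    rw [← ncard_need_mem hrk hbox]
    congr 1
    ext a
    simp only [Set.mem_ofPred_eq]
    rw [hmem, not_not]
    tauto
  rw [h2, hG.count] at h1
  exact h1

/-- The Cartwright-Sturmfels property is a property of the Hilbert function. -/
theorem isCS_of_hasHF [Infinite K] (m : MonomialOrder σ) {J : Ideal (MvPolynomial σ K)}
    (hJ : IsGraded deg J) {Δ : Finset (κ → ℕ)} (hΔ : HasHF deg J Δ) : IsCS m deg J :=
  isCS_of_allRad hJ fun _ hg => allRad_of_hasHF hJ hΔ m hg

end Pool.Agent.P8H33.CS
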