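import Pool.Agent.P8H33.CS.HFL

/-!
# Radical initial ideals and Hilbert functions
-/

set_option autoImplicit false
set_option linter.unusedSectionVars false

open MvPolynomial
open scoped MonomialOrder

namespace Pool.Agent.P8H33.CS

section E

variable {K : Type*} [Field K] {σ : Type*} {m : MonomialOrder σ}

/-- the leading exponents of an ideal -/
def EE (m : MonomialOrder σ) (J : Ideal (MvPolynomial σ K)) : Set (σ →₀ ℕ) :=
  LM m (J.restrictScalars K)

lemma mem_EE {J : Ideal (MvPolynomial σ K)} {a : σ →₀ ℕ} :
    a ∈ EE m J ↔ ∃ f ∈ J, f ≠ 0 ∧ m.degree f = a := Iff.rfl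

lemma EE_upper (J : Ideal (MvPolynomial σ K)) : IsUpperSet (EE m J) := by
  classical
  rintro a b hab ⟨f, hf, h0, rfl⟩
  obtain ⟨c, rfl⟩ := exists_add_of_le hab
  have h1 : monomial c (1 : K) ≠ 0 := by simp
  refine ⟨monomial c 1 * f, J.mul_mem_left _ hf, mul_ne_zero h1 h0, ?_⟩
  rw [m.degree_mul h1 h0, m.degree_monomial, if_neg one_ne_zero, add_comm]

/-- the monomial ideal with the given exponents -/
noncomputable def monId (K : Type*) [Field K] {σ : Type*} (A : Set (σ →₀ ℕ)) :
    Ideal (MvPolynomial σ K) :=
  Ideal.span ((fun s => monomial s (1 : K)) '' A)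

lemma mem_monId {A : Set (σ →₀ ℕ)} (hA : IsUpperSet A) {f : MvPolynomial σ K} :
    f ∈ monId K A ↔ ∀ a ∈ f.support, a ∈ A := by
  rw [monId, mem_ideal_span_monomial_image]
  constructor
  · intro h a ha
    obtain ⟨b, hb, hle⟩ := h a ha
    exact hA hle hb
  · intro h a ha
    exact ⟨a, h a ha, le_refl _⟩

lemma monomial_mem_monId {A : Set (σ →₀ ℕ)} (hA : IsUpperSet A) {a : σ →₀ ℕ} :
    monomial a (1 : K) ∈ monId K A ↔ a ∈ A := by
  classical
  rw [mem_monId hA]
  constructor
  · intro h
    exact h a (by rw [mem_support_iff, coeff_monomial, if_pos rfl]; exact one_ne_zero)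
  · intro h b hb
    rw [mem_support_iff, coeff_monomial] at hb
    split_ifs at hb with h1
    · exact h1 ▸ h
    · exact absurd rfl hb

lemma EE_monId {A : Set (σ →₀ ℕ)} (hA : IsUpperSet A) : EE m (monId K A) = A := by
  classical
  ext a
  constructor
  · rintro ⟨f, hf, h0, rfl⟩
    exact (mem_monId hA).1 hf _ (m.degree_mem_support h0)
  · intro ha
    refine ⟨monomial a 1, (monomial_mem_monId hA).2 ha, by simp, ?_⟩
    rw [m.degree_monomial, if_neg one_ne_zero]

lemma initialIdeal_eq (J : Ideal (MvPolynomial σ K)) : initialIdeal m J = monId K (EE m J) := by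
  rw [initialIdeal, monId]
  congr 1
  ext q
  constructor
  · rintro ⟨f, hf, h0, rfl⟩
    exact ⟨_, ⟨f, hf, h0, rfl⟩, rfl⟩
  · rintro ⟨_, ⟨f, hf, h0, rfl⟩, rfl⟩
    exact ⟨f, hf, h0, rfl⟩

/-! ### powers -/

lemma pow_mem_imp {J : Ideal (MvPolynomial σ K)} {n : ℕ} {V : Submodule K (MvPolynomial σ K)}
    (hV : ∀ f ∈ V, f ≠ 0 → f ^ n ∈ J → m.degree f ∈ LM m (J.restrictScalars K ⊓ V))
    {p : MvPolynomial σ K} (hp : p ∈ V) (hpn : p ^ n ∈ J) : p ∈ J := by
  suffices h : ∀ (s : m.syn) (p : MvPolynomial σ K), p ∈ V → p ^ n ∈ J →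
      m.toSyn (m.degree p) = s → p ∈ J from h _ p hp hpn rfl
  intro s
  induction s using WellFoundedLT.induction with
  | ind s ih =>
    intro p hp hpn hs
    by_cases h0 : p = 0
    · rw [h0]; exact J.zero_mem
    obtain ⟨f, hf, hmon, hd⟩ := exists_monic (hV p hp h0 hpn)
    have hfJ : f ∈ J := hf.1
    have e : p = (p - m.leadingCoeff p • f) + m.leadingCoeff p • f := by ring
    have hsm : m.leadingCoeff p • f ∈ J := by
      rw [smul_eq_C_mul]
      exact J.mul_mem_left _ hfJ
    have hq : p - m.leadingCoeff p • f ∈ J := by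
      by_cases hq0 : p - m.leadingCoeff p • f = 0
      · rw [hq0]; exact J.zero_mem
      · apply ih (m.toSyn (m.degree (p - m.leadingCoeff p • f))) _ _ _ _ rfl
        · rw [← hs]
          exact sub_smul_lt hmon hd hq0
        · exact V.sub_mem hp (V.smul_mem _ hf.2)
        · have h1 : p - (p - m.leadingCoeff p • f) ∣ p ^ n - (p - m.leadingCoeff p • f) ^ n :=
            sub_dvd_pow_sub_pow _ _ n
          have h2 : p - (p - m.leadingCoeff p • f) ∈ J := by
            have : p - (p - m.leadingCoeff p • f) = m.leadingCoeff p • f := by ring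
            rw [this]; exact hsm
          have h3 := J.mem_of_dvd h1 h2
          have h4 := J.sub_mem hpn h3
          have h5 : p ^ n - (p ^ n - (p - m.leadingCoeff p • f) ^ n) =
            (p - m.leadingCoeff p • f) ^ n := by ring
          rwa [h5] at h4
    rw [e]
    exact J.add_mem hq hsm

lemma isRadical_of_isRad {J : Ideal (MvPolynomial σ K)} (h : IsRad (EE m J)) : J.IsRadical := by
  intro p hp
  obtain ⟨n, hn⟩ := hp
  refine pow_mem_imp (m := m) (V := ⊤) (n := n) ?_ trivial hn
  intro f _ h0 hf
  obtain ⟨g, hg, h1, h2⟩ : m.degree f ∈ EE m J := by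
    apply h n
    exact ⟨f ^ n, hf, pow_ne_zero _ h0, m.degree_pow f n⟩
  exact ⟨g, ⟨hg, trivial⟩, h1, h2⟩

lemma isRad_of_isRadical {A : Set (σ →₀ ℕ)} (hA : IsUpperSet A) (h : (monId K A).IsRadical) :
    IsRad A := by
  intro n a hn
  rw [← monomial_mem_monId (K := K) hA] at hn ⊢
  apply h
  refine ⟨n, ?_⟩
  rwa [monomial_pow, one_pow]

end E

section Sq

variable {σ : Type*} [Fintype σ] [DecidableEq σ]

/-- the squarefree part of a monomial -/
noncomputable def sqf (s : Finset σ) : σ →₀ ℕ :=
  Finsupp.equivFunOnFinite.symm fun x => if x ∈ s then 1 else 0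

lemma sqf_mem_iff {A : Set (σ →₀ ℕ)} (hup : IsUpperSet A) (hrad : IsRad A) (a : σ →₀ ℕ) :
    a ∈ A ↔ sqf a.support ∈ A := by
  have hx : ∀ x, sqf a.support x = if x ∈ a.support then 1 else 0 := fun x => rfl
  constructor
  · intro ha
    apply hrad (∑ x, a x)
    refine hup ?_ ha
    intro x
    rw [Finsupp.smul_apply, hx, smul_eq_mul]
    split_ifs with h
    · rw [mul_one]
      exact Finset.single_le_sum (f := fun x => a x) (fun _ _ => Nat.zero_le _) (Finset.mem_univ x)
    · rw [Finsupp.notMem_support_iff] at h
      omega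
  · intro ha
    refine hup ?_ ha
    intro x
    rw [hx]
    split_ifs with h
    · rw [Finsupp.mem_support_iff] at h
      omega
    · omega

end Sq

section Graded

variable {K : Type*} [Field K] {σ : Type*} [Fintype σ] [DecidableEq σ] {κ : Type*} [DecidableEq κ]
  {deg : σ → κ} {m : MonomialOrder σ}

lemma EE_iff {J : Ideal (MvPolynomial σ K)} (hJ : IsGraded deg J) (a : σ →₀ ℕ) :
    a ∈ EE m J ↔ a ∈ LM m (hpart deg J (wt deg a)) := by
  classical
  constructor
  · rintro ⟨f, hf, h0, rfl⟩
    have hc : (weightedHomogeneousComponent (unitWeight deg) (wt deg (m.degree f)) f).coeff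
        (m.degree f) = f.coeff (m.degree f) := by
      rw [coeff_weightedHomogeneousComponent, if_pos rfl]
    have hc0 : f.coeff (m.degree f) ≠ 0 := m.coeff_degree_ne_zero_iff.2 h0
    refine ⟨weightedHomogeneousComponent (unitWeight deg) (wt deg (m.degree f)) f, ⟨?_, ?_⟩, ?_, ?_⟩
    · exact hJ f hf _
    · exact weightedHomogeneousComponent_isWeightedHomogeneous _ _
    · intro h1
      rw [h1, coeff_zero] at hc
      exact hc0 hc.symm
    · apply m.toSyn.injective
      apply le_antisymm
      · apply m.degree_le_degree_of_support_subset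
        intro b hb
        rw [mem_support_iff, coeff_weightedHomogeneousComponent] at hb
        split_ifs at hb with h1
        · exact mem_support_iff.2 hb
        · exact absurd rfl hb
      · apply m.le_degree
        rw [mem_support_iff, hc]
        exact hc0
  · exact fun h => LM_mono (W := hpart deg J (wt deg a)) (W' := J.restrictScalars K)
      inf_le_left h

lemma LM_hpart {J : Ideal (MvPolynomial σ K)} (hJ : IsGraded deg J) (d : κ → ℕ) :
    LM m (hpart deg J d) = {a | a ∈ EE m J ∧ wt deg a = d} := by
  ext a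
  constructor
  · intro ha
    have h1 : wt deg a = d := LM_homog hpart_le ha
    refine ⟨?_, h1⟩
    rw [EE_iff hJ, h1]
    exact ha
  · rintro ⟨h1, rfl⟩
    exact (EE_iff hJ a).1 h1

lemma finrank_hpart {J : Ideal (MvPolynomial σ K)} (hJ : IsGraded deg J) (d : κ → ℕ) :
    Module.finrank K (hpart deg J d) = {a | a ∈ EE m J ∧ wt deg a = d}.ncard := by
  rw [← LM_ncard (m := m), LM_hpart hJ]

lemma isGraded_monId {A : Set (σ →₀ ℕ)} (hA : IsUpperSet A) : IsGraded deg (monId K A) := by
  classical
  intro f hf d
  rw [mem_monId hA] at hf ⊢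
  intro a ha
  rw [mem_support_iff, coeff_weightedHomogeneousComponent] at ha
  split_ifs at ha with h1
  · exact hf a (mem_support_iff.2 ha)
  · exact absurd rfl ha

lemma component_act {g : Matrix σ σ K} (hg : g ∈ Grp K deg) (d : κ → ℕ) (f : MvPolynomial σ K) :
    weightedHomogeneousComponent (unitWeight deg) d (act g f) =
      act g (weightedHomogeneousComponent (unitWeight deg) d f) := by
  classical
  induction f using MvPolynomial.induction_on' with
  | monomial a c =>
    have h1 : IsWeightedHomogeneous (unitWeight deg) (monomial a c) (wt deg a) :=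
      isWeightedHomogeneous_monomial _ _ _ rfl
    have h2 := act_homog hg.2 h1
    by_cases hd : wt deg a = d
    · subst hd
      rw [h1.weightedHomogeneousComponent_same, h2.weightedHomogeneousComponent_same]
    · rw [h1.weightedHomogeneousComponent_ne _ (Ne.symm hd),
        h2.weightedHomogeneousComponent_ne _ (Ne.symm hd), map_zero]
  | add p q hp hq => rw [map_add, map_add, map_add, map_add, hp, hq]

lemma isGraded_map_act {g : Matrix σ σ K} (hg : g ∈ Grp K deg) {J : Ideal (MvPolynomial σ K)}
    (hJ : IsGraded deg J) : IsGraded deg (Ideal.map (act g) J) := by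
  intro f hf d
  rw [mem_map_act hg] at hf ⊢
  rw [← component_act (inv_mem_Grp hg)]
  exact hJ _ hf d

/-! ### the ranking given by the term order -/

/-- the rank of a variable in its block -/
noncomputable def rkm (m : MonomialOrder σ) (deg : σ → κ) (x : σ) : ℕ := by
  classical
  exact (Finset.univ.filter fun y => deg y = deg x ∧
    m.toSyn (Finsupp.single y 1) ≤ m.toSyn (Finsupp.single x 1)).card

lemma rkm_lt {x y : σ} (hd : deg x = deg y) (h : rkm m deg x < rkm m deg y) :
    m.toSyn (Finsupp.single x 1) < m.toSyn (Finsupp.single y 1) := by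
  classical
  by_contra hcon
  push Not at hcon
  apply absurd h
  push Not
  rw [rkm, rkm]
  apply Finset.card_le_card
  intro z hz
  simp only [Finset.mem_filter, Finset.mem_univ, true_and] at hz ⊢
  exact ⟨hz.1.trans hd.symm, hz.2.trans hcon⟩

lemma rkm_inj {x y : σ} (hd : deg x = deg y) (h : rkm m deg x = rkm m deg y) : x = y := by
  classical
  wlog hle : m.toSyn (Finsupp.single x 1) ≤ m.toSyn (Finsupp.single y 1) generalizing x y
  · exact (this hd.symm h.symm (le_of_not_ge hle)).symm
  have h1 : (Finset.univ.filter fun z => deg z = deg x ∧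
      m.toSyn (Finsupp.single z 1) ≤ m.toSyn (Finsupp.single x 1)) =
      (Finset.univ.filter fun z => deg z = deg y ∧
      m.toSyn (Finsupp.single z 1) ≤ m.toSyn (Finsupp.single y 1)) := by
    apply Finset.eq_of_subset_of_card_le
    · intro z hz
      simp only [Finset.mem_filter, Finset.mem_univ, true_and] at hz ⊢
      exact ⟨hz.1.trans hd, hz.2.trans hle⟩
    · exact le_of_eq h.symm
  have h2 : y ∈ (Finset.univ.filter fun z => deg z = deg x ∧
      m.toSyn (Finsupp.single z 1) ≤ m.toSyn (Finsupp.single x 1)) := by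
    rw [h1]
    simp
  simp only [Finset.mem_filter, Finset.mem_univ, true_and] at h2
  have h3 := m.toSyn.injective (le_antisymm hle h2.2)
  exact Finsupp.single_left_injective one_ne_zero h3

lemma rkm_ranking (m : MonomialOrder σ) (deg : σ → κ) : Ranking deg (rkm m deg) where
  pos x := by
    classical
    rw [rkm, Nat.one_le_iff_ne_zero, ← Nat.pos_iff_ne_zero, Finset.card_pos]
    exact ⟨x, by simp⟩
  inj x y := rkm_inj
  surj x c h1 h2 := by
    classical
    -- the block of `x`
    have hB : ∀ y ∈ Finset.univ.filter (fun y => deg y = deg x), rkm m deg y ∈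
        Finset.Icc 1 (Finset.univ.filter (fun y => deg y = deg x)).card := by
      intro y hy
      simp only [Finset.mem_filter, Finset.mem_univ, true_and] at hy
      rw [Finset.mem_Icc]
      constructor
      · rw [rkm, Nat.one_le_iff_ne_zero, ← Nat.pos_iff_ne_zero, Finset.card_pos]
        exact ⟨y, by simp⟩
      · rw [rkm]
        apply Finset.card_le_card
        intro z hz
        simp only [Finset.mem_filter, Finset.mem_univ, true_and] at hz ⊢
        exact hz.1.trans hy
    have himg : (Finset.univ.filter (fun y => deg y = deg x)).image (rkm m deg) =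
        Finset.Icc 1 (Finset.univ.filter (fun y => deg y = deg x)).card := by
      apply Finset.eq_of_subset_of_card_le
      · intro c hc
        rw [Finset.mem_image] at hc
        obtain ⟨y, hy, rfl⟩ := hc
        exact hB y hy
      · rw [Finset.card_image_of_injOn, Nat.card_Icc, Nat.add_sub_cancel]
        intro y hy z hz h
        simp only [Finset.coe_filter, Finset.mem_univ, true_and, Set.mem_ofPred_eq] at hy hz
        exact rkm_inj (hy.trans hz.symm) h
    have hc : c ∈ Finset.Icc 1 (Finset.univ.filter (fun y => deg y = deg x)).card := by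
      rw [Finset.mem_Icc]
      refine ⟨h1, h2.trans ?_⟩
      exact (Finset.mem_Icc.1 (hB x (by simp))).2
    rw [← himg, Finset.mem_image] at hc
    obtain ⟨y, hy, rfl⟩ := hc
    simp only [Finset.mem_filter, Finset.mem_univ, true_and] at hy
    exact ⟨y, hy, rfl⟩

lemma inBox_iff {rk : σ → ℕ} (hrk : Ranking deg rk) {α : κ → ℕ} :
    InBox deg rk α ↔ ∀ k, α k ≤ (Finset.univ.filter fun x => deg x = k).card := by
  classical
  constructor
  · intro h k
    by_cases hk : α k = 0
    · omega
    · obtain ⟨x, rfl, hx⟩ := h k hk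
      calc α (deg x) = (Finset.Icc 1 (α (deg x))).card := by
            rw [Nat.card_Icc, Nat.add_sub_cancel]
        _ ≤ ((Finset.univ.filter fun y => deg y = deg x).image rk).card := by
            apply Finset.card_le_card
            intro c hc
            rw [Finset.mem_Icc] at hc
            obtain ⟨y, hy1, hy2⟩ := hrk.surj x c hc.1 (by omega)
            rw [Finset.mem_image]
            exact ⟨y, by simp [hy1], hy2⟩
        _ ≤ _ := Finset.card_image_le
  · intro h k hk
    by_contra hcon
    push Not at hcon
    -- all ranks in the block are smaller than `α k`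
    have h1 : ∀ x, deg x = k → rk x < α k := by
      intro x hx
      by_contra hcon2
      push Not at hcon2
      obtain ⟨y, hy1, hy2⟩ := hrk.surj x (α k) (by omega) hcon2
      exact hcon y (hy1.trans hx) hy2
    have h2 : (Finset.univ.filter fun x => deg x = k).card ≤ (Finset.Ico 1 (α k)).card := by
      apply Finset.card_le_card_of_injOn rk
      · intro x hx
        simp only [Finset.coe_filter, Finset.mem_univ, true_and, Set.mem_ofPred_eq] at hx
        rw [Finset.mem_coe, Finset.mem_Ico]
        exact ⟨hrk.pos x, h1 x hx⟩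
      · intro x hx y hy hxy
        simp only [Finset.coe_filter, Finset.mem_univ, true_and, Set.mem_ofPred_eq] at hx hy
        exact hrk.inj x y (hx.trans hy.symm) hxy
    rw [Nat.card_Ico] at h2
    have := h k
    omega

end Graded

end Pool.Agent.P8H33.CS
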