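import Pool.Agent.P8H33.CS.Main

/-!
# Refining the grading: the Hilbert function of the homogeneous part
-/

set_option autoImplicit false
set_option linter.unusedSectionVars false

open MvPolynomial
open scoped MonomialOrder

namespace Pool.Agent.P8H33.CS

/-! ### linear algebra -/

section LinAlg

variable {K : Type*} [Field K] {V W : Type*} [AddCommGroup V] [Module K V] [AddCommGroup W]
  [Module K W]

lemma finrank_map_add (f : V →ₗ[K] W) (A : Submodule K V) [FiniteDimensional K A] :
    Module.finrank K (A.map f) + Module.finrank K (LinearMap.ker (f.domRestrict A)) =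
      Module.finrank K A := by
  rw [← LinearMap.finrank_range_add_finrank_ker (f.domRestrict A), LinearMap.range_domRestrict]

lemma finrank_ker_domRestrict (f : V →ₗ[K] W) {A B : Submodule K V} (hBA : B ≤ A)
    (hker : ∀ v ∈ A, f v = 0 → v ∈ B) :
    Module.finrank K (LinearMap.ker (f.domRestrict B)) =
      Module.finrank K (LinearMap.ker (f.domRestrict A)) := by
  apply LinearEquiv.finrank_eq
  refine LinearEquiv.ofBijective
    (LinearMap.restrict (Submodule.inclusion hBA) (p := LinearMap.ker (f.domRestrict B))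
      (q := LinearMap.ker (f.domRestrict A)) ?_) ⟨?_, ?_⟩
  · intro v hv
    rw [LinearMap.mem_ker] at hv ⊢
    exact hv
  · intro v w h
    apply Subtype.ext
    apply Subtype.ext
    have := congrArg (fun z : LinearMap.ker (f.domRestrict A) => ((z : A) : V)) h
    exact this
  · rintro ⟨⟨v, hvA⟩, hv⟩
    rw [LinearMap.mem_ker] at hv
    have hv' : f v = 0 := hv
    exact ⟨⟨⟨v, hker v hvA hv'⟩, by rw [LinearMap.mem_ker]; exact hv'⟩, rfl⟩

/-- the codimension of a preimage -/
lemma finrank_comap (f : V →ₗ[K] W) {A : Submodule K V} [FiniteDimensional K A]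
    {B C : Submodule K W} (hAB : A.map f = B) (hCB : C ≤ B) {D : Submodule K V}
    (hD : ∀ v, v ∈ D ↔ v ∈ A ∧ f v ∈ C) :
    Module.finrank K D + Module.finrank K B = Module.finrank K A + Module.finrank K C := by
  have hDA : D ≤ A := fun v hv => ((hD v).1 hv).1
  have : FiniteDimensional K D := Submodule.finiteDimensional_of_le hDA
  have hDC : D.map f = C := by
    ext w
    rw [Submodule.mem_map]
    constructor
    · rintro ⟨v, hv, rfl⟩
      exact ((hD v).1 hv).2
    · intro hw
      have h1 : w ∈ A.map f := hAB ▸ hCB hw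
      obtain ⟨v, hv, rfl⟩ := Submodule.mem_map.1 h1
      exact ⟨v, (hD v).2 ⟨hv, hw⟩, rfl⟩
  have h1 := finrank_map_add f A
  have h2 := finrank_map_add f D
  have h3 := finrank_ker_domRestrict f hDA fun v hv h0 =>
    (hD v).2 ⟨hv, by rw [h0]; exact C.zero_mem⟩
  rw [hAB] at h1
  rw [hDC] at h2
  omega

end LinAlg

/-! ### the numerical identity -/

section Num

variable {P : Type*} [Fintype P] [DecidableEq P] {κ : Type*} [Fintype κ] [DecidableEq κ]

/-- the vector with entries `0` at the `k` with empty fibre, and `1 +` the sum over the fibre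
else -/
def TT (q : P → κ) (δ : P →₀ ℕ) (k : κ) : ℕ :=
  if (Finset.univ.filter fun p => q p = k) = ∅ then 0
  else 1 + ∑ p ∈ Finset.univ.filter (fun p => q p = k), δ p

lemma NN_symm {c u : ℕ} (hc : c ≠ 0) (hu : u ≠ 0) : NN c u = Nat.multichoose u (c - 1) := by
  rw [NN, if_neg hc, if_neg hu, Nat.multichoose_eq, Nat.multichoose_eq]
  rw [Nat.choose_symm_of_eq_add]
  · congr 1
    omega
  · omega

lemma ncard_TT_block {B : Type*} [Fintype B] [DecidableEq B] (c : ℕ) :
    {b : B → ℕ | (if Fintype.card B = 0 then 0 else 1 + ∑ x, b x) = c}.ncard =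
      NN c (Fintype.card B) := by
  by_cases hB : Fintype.card B = 0
  · have hE : IsEmpty B := Fintype.card_eq_zero_iff.1 hB
    rw [hB]
    by_cases hc : c = 0
    · subst hc
      simp only [if_true, Set.ofPred_true]
      rw [Set.ncard_univ, Nat.card_eq_one_iff_unique.2 ⟨inferInstance, inferInstance⟩]
      rfl
    · have : {b : B → ℕ | (if (0 : ℕ) = 0 then 0 else 1 + ∑ x, b x) = c} = ∅ := by
        ext b
        simp only [if_true, Set.mem_ofPred_eq, Set.mem_empty_iff_false, iff_false]
        exact fun h => hc h.symm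
      rw [this, Set.ncard_empty, NN, if_neg hc, if_pos rfl]
  · simp only [if_neg hB]
    by_cases hc : c = 0
    · have : {b : B → ℕ | 1 + ∑ x, b x = c} = ∅ := by
        ext b
        simp only [Set.mem_ofPred_eq, Set.mem_empty_iff_false, iff_false]
        omega
      rw [this, Set.ncard_empty, NN, if_pos hc, if_neg hB]
    · rw [NN_symm hc hB]
      have h1 := ncard_supported (Finset.univ : Finset B) (c - 1)
      rw [Finset.card_univ] at h1
      rw [← h1]
      congr 1
      ext b
      simp only [Set.mem_ofPred_eq, Finset.mem_univ, not_true_eq_false, false_imp_iff,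
        implies_true, and_true]
      omega

lemma ncard_TT (q : P → κ) (α : κ → ℕ) :
    {δ : P →₀ ℕ | TT q δ = α}.ncard =
      ∏ k, NN (α k) (Finset.univ.filter fun p => q p = k).card := by
  have h := ncard_block (deg := q) (fun k (b : {p : P // q p = k} → ℕ) =>
    (if Fintype.card {p : P // q p = k} = 0 then 0 else 1 + ∑ x, b x) = α k)
  have h2 : ∀ k, {b : {p : P // q p = k} → ℕ |
      (if Fintype.card {p : P // q p = k} = 0 then 0 else 1 + ∑ x, b x) = α k}.ncard =
      NN (α k) (Finset.univ.filter fun p => q p = k).card := by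
    intro k
    rw [ncard_TT_block, Fintype.card_subtype]
  simp_rw [h2] at h
  rw [← h]
  congr 1
  ext δ
  simp only [Set.mem_ofPred_eq]
  rw [funext_iff]
  apply forall_congr'
  intro k
  have e1 : Fintype.card {p : P // q p = k} = (Finset.univ.filter fun p => q p = k).card :=
    Fintype.card_subtype _
  have e2 : ∑ p ∈ Finset.univ.filter (fun p => q p = k), δ p =
      ∑ x : {p : P // q p = k}, δ x.1 := by
    rw [Finset.sum_subtype (p := fun p => q p = k)]
    simp
  rw [TT, e2]
  by_cases h0 : (Finset.univ.filter fun p => q p = k) = ∅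
  · rw [if_pos h0, if_pos (by rw [e1, h0, Finset.card_empty])]
  · rw [if_neg h0, if_neg (by rw [e1, Finset.card_eq_zero]; exact h0)]

lemma ncard_TT_mem (q : P → κ) (Δ : Finset (κ → ℕ)) :
    {δ : P →₀ ℕ | TT q δ ∈ Δ}.ncard =
      hfun Δ fun k => (Finset.univ.filter fun p => q p = k).card := by
  classical
  have hfin : ∀ α : κ → ℕ, {δ : P →₀ ℕ | TT q δ = α}.Finite := by
    intro α
    refine Set.Finite.subset (Set.finite_Iic (Finsupp.equivFunOnFinite.symm fun p => α (q p))) ?_
    intro δ hδ p
    have h : TT q δ = α := hδ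
    have hne : ¬ (Finset.univ.filter fun p' => q p' = q p) = ∅ :=
      Finset.nonempty_iff_ne_empty.1 ⟨p, by simp⟩
    rw [Finsupp.equivFunOnFinite_symm_apply_apply, ← h, TT, if_neg hne]
    have := Finset.single_le_sum (f := fun p => δ p) (fun _ _ => Nat.zero_le _)
      (show p ∈ Finset.univ.filter (fun p' => q p' = q p) by simp)
    omega
  induction Δ using Finset.induction_on with
  | empty => simp [hfun]
  | insert α s hα ih =>
    have h1 : {δ : P →₀ ℕ | TT q δ ∈ insert α s} =
        {δ : P →₀ ℕ | TT q δ = α} ∪ {δ : P →₀ ℕ | TT q δ ∈ s} := by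
      ext δ
      simp only [Set.mem_ofPred_eq, Set.mem_union, Finset.mem_insert]
    have h2 : {δ : P →₀ ℕ | TT q δ ∈ s}.Finite := by
      have : {δ : P →₀ ℕ | TT q δ ∈ s} = ⋃ β ∈ s, {δ : P →₀ ℕ | TT q δ = β} := by
        ext δ
        simp
      rw [this]
      exact Set.Finite.biUnion s.finite_toSet fun β _ => hfin β
    rw [h1, Set.ncard_union_eq _ (hfin α) h2, ih, ncard_TT, hfun, hfun, Finset.sum_insert hα]
    rw [Set.disjoint_left]
    intro δ h3 h4
    have h3' : TT q δ = α := h3
    have h4' : TT q δ ∈ s := h4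
    rw [h3'] at h4'
    exact hα h4'

/-- push forward of degrees -/
def push {κ κ' : Type*} [Fintype κ] [DecidableEq κ'] (π : κ → κ') (d : κ → ℕ) : κ' → ℕ :=
  fun j => ∑ k ∈ Finset.univ.filter (fun k => π k = j), d k

/-- how the bounds transform under coarsening of the grading -/
def gam {κ κ' : Type*} [Fintype κ] [DecidableEq κ'] (π : κ → κ') (α : κ → ℕ) : κ' → ℕ :=
  fun j => if ∀ k, π k = j → α k = 0 then 0
    else 1 + ∑ k ∈ Finset.univ.filter (fun k => π k = j), (α k - 1)

variable {κ' : Type*} [Fintype κ'] [DecidableEq κ']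

lemma gam_TT (q : P → κ) (π : κ → κ') (δ : P →₀ ℕ) : gam π (TT q δ) = TT (fun p => π (q p)) δ := by
  funext j
  rw [gam, TT]
  have h0 : (∀ k, π k = j → TT q δ k = 0) ↔
      (Finset.univ.filter fun p => π (q p) = j) = ∅ := by
    rw [Finset.filter_eq_empty_iff]
    constructor
    · intro h p _ hp
      have hne : ¬ (Finset.univ.filter fun p' => q p' = q p) = ∅ := by
        rw [← ne_eq, ← Finset.nonempty_iff_ne_empty]
        exact ⟨p, by simp⟩
      have := h (q p) hp
      rw [TT, if_neg hne] at this
      omega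
    · intro h k hk
      rw [TT, if_pos]
      rw [Finset.filter_eq_empty_iff]
      intro p _ hp
      exact h (Finset.mem_univ p) (by rw [hp, hk])
  by_cases h1 : (Finset.univ.filter fun p => π (q p) = j) = ∅
  · rw [if_pos (h0.2 h1), if_pos h1]
  · rw [if_neg (fun h => h1 (h0.1 h)), if_neg h1]
    congr 1
    have h2 : ∀ k, TT q δ k - 1 = ∑ p ∈ Finset.univ.filter (fun p => q p = k), δ p := by
      intro k
      rw [TT]
      split_ifs with h3
      · rw [h3, Finset.sum_empty, Nat.zero_sub]
      · omega
    simp_rw [h2]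
    rw [Finset.sum_sigma']
    apply Finset.sum_bij fun x _ => x.2
    · rintro ⟨k, p⟩ hp
      simp only [Finset.mem_sigma, Finset.mem_filter, Finset.mem_univ, true_and] at hp ⊢
      rw [hp.2, hp.1]
    · rintro ⟨k, p⟩ hp ⟨k', p'⟩ hp' h4
      simp only [Finset.mem_sigma, Finset.mem_filter, Finset.mem_univ, true_and] at hp hp' h4
      subst h4
      have : k = k' := by rw [← hp.2, ← hp'.2]
      subst this
      rfl
    · intro p hp
      simp only [Finset.mem_filter, Finset.mem_univ, true_and] at hp
      exact ⟨⟨q p, p⟩, by simp [hp], rfl⟩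
    · intro _ _
      rfl

/-- The numerical identity behind the refinement of gradings. -/
theorem hfun_gam (π : κ → κ') {Δ' : Finset (κ → ℕ)} {Δ : Finset (κ' → ℕ)}
    (h : ∀ α, α ∈ Δ' ↔ gam π α ∈ Δ) (d : κ → ℕ) : hfun Δ' d = hfun Δ (push π d) := by
  have h1 := ncard_TT_mem (P := Σ k : κ, Fin (d k)) (fun p => p.1) Δ'
  have h2 := ncard_TT_mem (P := Σ k : κ, Fin (d k)) (fun p => π p.1) Δ
  have e1 : (fun k => (Finset.univ.filter fun p : (Σ k : κ, Fin (d k)) => p.1 = k).card) = d := by
    funext k
    have : (Finset.univ.filter fun p : (Σ k : κ, Fin (d k)) => p.1 = k).card =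
        (Finset.univ : Finset (Fin (d k))).card := by
      symm
      apply Finset.card_bij fun i _ => (⟨k, i⟩ : Σ k : κ, Fin (d k))
      · intro i _
        simp
      · intro i _ j _ hij
        simpa using hij
      · rintro ⟨k', i⟩ hi
        simp only [Finset.mem_filter, Finset.mem_univ, true_and] at hi
        subst hi
        exact ⟨i, Finset.mem_univ _, rfl⟩
    rw [this, Finset.card_univ, Fintype.card_fin]
  have e2 : (fun j => (Finset.univ.filter fun p : (Σ k : κ, Fin (d k)) => π p.1 = j).card) =
      push π d := by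
    funext j
    have : (Finset.univ.filter fun p : (Σ k : κ, Fin (d k)) => π p.1 = j) =
        (Finset.univ.filter fun k => π k = j).sigma fun k => (Finset.univ : Finset (Fin (d k))) := by
      ext ⟨k, i⟩
      simp
    rw [this, Finset.card_sigma, push]
    simp
  rw [e1] at h1
  rw [e2] at h2
  rw [← h1, ← h2]
  congr 1
  ext δ
  simp only [Set.mem_ofPred_eq]
  rw [h, gam_TT]

lemma le_gam (π : κ → κ') (α : κ → ℕ) (k : κ) : α k ≤ gam π α (π k) := by
  rw [gam]
  split_ifs with h
  · exact le_of_eq (h k rfl)
  · have := Finset.single_le_sum (f := fun k => α k - 1) (fun _ _ => Nat.zero_le _)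
      (show k ∈ Finset.univ.filter (fun k' => π k' = π k) by simp)
    omega

lemma exists_gam (π : κ → κ') (Δ : Finset (κ' → ℕ)) :
    ∃ Δ' : Finset (κ → ℕ), ∀ α, α ∈ Δ' ↔ gam π α ∈ Δ := by
  have hfin : {α : κ → ℕ | gam π α ∈ Δ}.Finite := by
    refine Set.Finite.subset (Set.finite_Iic fun k => ∑ β ∈ Δ, β (π k)) ?_
    intro α hα k
    refine (le_gam π α k).trans ?_
    exact Finset.single_le_sum (f := fun β : κ' → ℕ => β (π k)) (fun _ _ => Nat.zero_le _) hα
  exact ⟨hfin.toFinset, fun α => by rw [Set.Finite.mem_toFinset]; rfl⟩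

end Num

/-! ### the homogeneous part -/

section Star

variable {K : Type*} [Field K] {σ : Type*} [Fintype σ] [DecidableEq σ] {κ : Type*} [Fintype κ]
  [DecidableEq κ] {deg : σ → κ}

attribute [local instance] MvPolynomial.weightedGradedAlgebra

lemma isGraded_starIdeal (J : Ideal (MvPolynomial σ K)) : IsGraded deg (starIdeal deg J) := by
  classical
  have h : (starIdeal deg J).IsHomogeneous
      (weightedHomogeneousSubmodule K (unitWeight deg)) := by
    apply Ideal.homogeneous_span
    rintro f ⟨-, d, hd⟩
    exact ⟨d, hd⟩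
  intro f hf d
  exact weightedHomogeneousComponent_mem_of_mem K (unitWeight deg) h hf d

lemma starIdeal_le (J : Ideal (MvPolynomial σ K)) : starIdeal deg J ≤ J := by
  rw [starIdeal, Ideal.span_le]
  exact fun f hf => hf.1

lemma mem_starIdeal_of_homog {J : Ideal (MvPolynomial σ K)} {f : MvPolynomial σ K} {d : κ → ℕ}
    (hf : IsWeightedHomogeneous (unitWeight deg) f d) : f ∈ starIdeal deg J ↔ f ∈ J :=
  ⟨fun h => starIdeal_le J h, fun h => Ideal.subset_span ⟨h, d, hf⟩⟩

/-- a graded ideal is determined by its homogeneous elements -/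
lemma eq_of_homog {I J : Ideal (MvPolynomial σ K)} (hI : IsGraded deg I) (hJ : IsGraded deg J)
    (h : ∀ f d, IsWeightedHomogeneous (unitWeight deg) f d → (f ∈ I ↔ f ∈ J)) : I = J := by
  have key : ∀ {I J : Ideal (MvPolynomial σ K)}, IsGraded deg I →
      (∀ f d, IsWeightedHomogeneous (unitWeight deg) f d → (f ∈ I → f ∈ J)) → I ≤ J := by
    intro I J hI h f hf
    rw [← finsum_weightedHomogeneousComponent (unitWeight deg) f]
    apply finsum_induction (fun x => x ∈ J) J.zero_mem (fun _ _ => J.add_mem)
    intro d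
    exact h _ d (weightedHomogeneousComponent_isWeightedHomogeneous _ _) (hI f hf d)
  exact le_antisymm (key hI fun f d hf => (h f d hf).1) (key hJ fun f d hf => (h f d hf).2)

variable {τ : Type*} [Fintype τ] [DecidableEq τ] {κ' : Type*} [Fintype κ'] [DecidableEq κ']
  {deg' : τ → κ'} {ψ : σ → τ} {π : κ → κ'}

lemma wt_mapDomain (h : ∀ x, deg' (ψ x) = π (deg x)) (a : σ →₀ ℕ) :
    wt deg' (Finsupp.mapDomain ψ a) = push π (wt deg a) := by
  induction a using Finsupp.induction_linear with
  | zero =>
    rw [Finsupp.mapDomain_zero]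
    have e1 : wt deg' 0 = 0 := map_zero _
    have e2 : wt deg 0 = 0 := map_zero _
    rw [e1, e2]
    funext j
    simp [push]
  | add a b ha hb =>
    rw [Finsupp.mapDomain_add]
    have e1 : wt deg' (Finsupp.mapDomain ψ a + Finsupp.mapDomain ψ b) =
      wt deg' (Finsupp.mapDomain ψ a) + wt deg' (Finsupp.mapDomain ψ b) := map_add _ _ _
    have e2 : wt deg (a + b) = wt deg a + wt deg b := map_add _ _ _
    rw [e1, e2, ha, hb]
    funext j
    simp [push, Finset.sum_add_distrib]
  | single x n =>
    rw [Finsupp.mapDomain_single]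
    have e1 : wt deg' (Finsupp.single (ψ x) n) = n • Pi.single (deg' (ψ x)) 1 := by
      show Finsupp.weight (unitWeight deg') (Finsupp.single (ψ x) n) = _
      rw [Finsupp.weight_single]
      rfl
    have e2 : wt deg (Finsupp.single x n) = n • Pi.single (deg x) 1 := by
      show Finsupp.weight (unitWeight deg) (Finsupp.single x n) = _
      rw [Finsupp.weight_single]
      rfl
    rw [e1, e2, h]
    funext j
    rw [push]
    simp only [Pi.smul_apply, Pi.single_apply, smul_eq_mul, mul_ite, mul_one, mul_zero]
    rw [Finset.sum_ite_eq']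
    simp only [Finset.mem_filter, Finset.mem_univ, true_and]
    by_cases hj : j = π (deg x)
    · rw [if_pos hj, if_pos hj.symm]
    · rw [if_neg hj, if_neg (fun h => hj h.symm)]

lemma rename_homog (h : ∀ x, deg' (ψ x) = π (deg x)) {f : MvPolynomial σ K} {d : κ → ℕ}
    (hf : IsWeightedHomogeneous (unitWeight deg) f d) :
    IsWeightedHomogeneous (unitWeight deg') (rename ψ f) (push π d) := by
  intro b hb
  obtain ⟨a, rfl, ha⟩ := coeff_rename_ne_zero ψ f b hb
  have h1 : wt deg a = d := hf ha
  have h2 := wt_mapDomain h a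
  rw [h1] at h2
  exact h2

/-- monomials can be lifted -/
lemma exists_lift (hs : ∀ k t, π k = deg' t → ∃ x, deg x = k ∧ ψ x = t) :
    ∀ (n : ℕ) (b : τ →₀ ℕ) (d : κ → ℕ), ∑ t, b t = n → wt deg' b = push π d →
      ∃ a : σ →₀ ℕ, Finsupp.mapDomain ψ a = b ∧ wt deg a = d := by
  intro n
  induction n with
  | zero =>
    intro b d hb hd
    have hb0 : b = 0 := by
      ext t
      rw [Finset.sum_eq_zero_iff] at hb
      exact hb t (Finset.mem_univ t)
    subst hb0
    refine ⟨0, Finsupp.mapDomain_zero, ?_⟩
    have e1 : wt deg' 0 = 0 := map_zero _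
    have e2 : wt deg 0 = 0 := map_zero _
    rw [e1] at hd
    rw [e2]
    funext k
    have h1 := congrFun hd (π k)
    rw [Pi.zero_apply, push, eq_comm, Finset.sum_eq_zero_iff] at h1
    exact (h1 k (by simp)).symm
  | succ n ih =>
    intro b d hb hd
    obtain ⟨t, -, ht⟩ : ∃ t ∈ Finset.univ, b t ≠ 0 := by
      apply Finset.exists_ne_zero_of_sum_ne_zero
      omega
    have h1 : push π d (deg' t) ≠ 0 := by
      have := le_wt deg' b t
      rw [hd] at this
      omega
    obtain ⟨k, hk, hdk⟩ := Finset.exists_ne_zero_of_sum_ne_zero h1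
    simp only [Finset.mem_filter, Finset.mem_univ, true_and] at hk
    obtain ⟨x, hx1, hx2⟩ := hs k t hk
    have hb' : (b - Finsupp.single t 1) + Finsupp.single t 1 = b := by
      apply tsub_add_cancel_of_le
      rw [Finsupp.single_le_iff]
      omega
    have hd' : (d - Pi.single k 1) + Pi.single k 1 = d := by
      funext k'
      simp only [Pi.add_apply, Pi.sub_apply, Pi.single_apply]
      split_ifs with h2
      · subst h2; omega
      · omega
    obtain ⟨a, ha1, ha2⟩ := ih (b - Finsupp.single t 1) (d - Pi.single k 1) (by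
      have h2 : ∑ s, b s = ∑ s, ((b - Finsupp.single t 1) + Finsupp.single t 1 : τ →₀ ℕ) s := by rw [hb']
      simp only [Finsupp.add_apply, Finset.sum_add_distrib] at h2
      have h3 : ∑ s, (Finsupp.single t 1 : τ →₀ ℕ) s = 1 := by
        simp [Finsupp.single_apply]
      rw [h3] at h2
      omega) (by
      have h2 : wt deg' b = wt deg' (b - Finsupp.single t 1) + wt deg' (Finsupp.single t 1) := by
        have : wt deg' ((b - Finsupp.single t 1) + Finsupp.single t 1) =
          wt deg' (b - Finsupp.single t 1) + wt deg' (Finsupp.single t 1) := map_add _ _ _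
        rw [← this, hb']
      have h3 : push π d = push π (d - Pi.single k 1) + push π (Pi.single k 1) := by
        conv_lhs => rw [← hd']
        funext j
        simp [push, Finset.sum_add_distrib]
      have h4 : wt deg' (Finsupp.single t 1) = push π (Pi.single k 1) := by
        show Finsupp.weight (unitWeight deg') (Finsupp.single t 1) = _
        rw [Finsupp.weight_single, one_smul]
        funext j
        rw [push]
        simp only [unitWeight, Pi.single_apply]
        rw [Finset.sum_ite_eq']
        simp only [Finset.mem_filter, Finset.mem_univ, true_and, hk]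
        by_cases hj : j = deg' t
        · rw [if_pos hj, if_pos hj.symm]
        · rw [if_neg hj, if_neg (fun h => hj h.symm)]
      rw [h2, h3, h4] at hd
      exact add_right_cancel hd)
    refine ⟨a + Finsupp.single x 1, ?_, ?_⟩
    · rw [Finsupp.mapDomain_add, ha1, Finsupp.mapDomain_single, hx2, hb']
    · have e : wt deg (a + Finsupp.single x 1) = wt deg a + wt deg (Finsupp.single x 1) :=
        map_add _ _ _
      have e2 : wt deg (Finsupp.single x 1) = Pi.single k 1 := by
        show Finsupp.weight (unitWeight deg) (Finsupp.single x 1) = _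
        rw [Finsupp.weight_single, one_smul, ← hx1]
        rfl
      rw [e, e2, ha2, hd']

lemma map_homog (h : ∀ x, deg' (ψ x) = π (deg x))
    (hs : ∀ k t, π k = deg' t → ∃ x, deg x = k ∧ ψ x = t) (d : κ → ℕ) :
    (weightedHomogeneousSubmodule K (unitWeight deg) d).map (rename ψ).toLinearMap =
      weightedHomogeneousSubmodule K (unitWeight deg') (push π d) := by
  apply le_antisymm
  · rintro _ ⟨f, hf, rfl⟩
    exact rename_homog h hf
  · intro f hf
    rw [f.as_sum]
    apply Submodule.sum_mem
    intro b hb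
    have hbd : wt deg' b = push π d := hf (mem_support_iff.1 hb)
    obtain ⟨a, ha1, ha2⟩ := exists_lift hs _ b d rfl hbd
    refine ⟨monomial a (f.coeff b), ?_, ?_⟩
    · exact isWeightedHomogeneous_monomial _ _ _ ha2
    · show rename ψ (monomial a (f.coeff b)) = _
      rw [rename_monomial, ha1]

lemma finrank_homog (deg : σ → κ) (d : κ → ℕ) :
    Module.finrank K (weightedHomogeneousSubmodule K (unitWeight deg) d) =
      (Mon deg d).ncard := by
  have hu : IsUpperSet (Set.univ : Set (σ →₀ ℕ)) := isUpperSet_univ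
  -- choose any term order
  let e := Fintype.equivFin σ
  let _ : LinearOrder σ := LinearOrder.lift' e e.injective
  have h1 := finrank_hpart (K := K) (deg := deg) (m := (MonomialOrder.lex : MonomialOrder σ))
    (isGraded_monId hu) d
  rw [EE_monId hu] at h1
  have h2 : hpart deg (monId K (Set.univ : Set (σ →₀ ℕ))) d =
      weightedHomogeneousSubmodule K (unitWeight deg) d := by
    apply le_antisymm hpart_le
    intro f hf
    refine ⟨?_, hf⟩
    show f ∈ monId K Set.univ
    rw [mem_monId hu]
    exact fun _ _ => trivial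
  rw [h2] at h1
  rw [h1]
  congr 1
  ext a
  simp [Mon]

/-- **The Hilbert function of the homogeneous part.** -/
theorem hasHF_star (h : ∀ x, deg' (ψ x) = π (deg x))
    (hs : ∀ k t, π k = deg' t → ∃ x, deg x = k ∧ ψ x = t) {I : Ideal (MvPolynomial τ K)}
    {Δ : Finset (κ' → ℕ)} (hΔ : HasHF deg' I Δ) :
    ∃ Δ', HasHF deg (starIdeal deg (Ideal.comap (rename ψ) I)) Δ' := by
  obtain ⟨Δ', hΔ'⟩ := exists_gam π Δ
  refine ⟨Δ', ?_, ?_⟩
  · intro α hα k
    refine (le_gam π α k).trans ((hΔ.1 _ ((hΔ' α).1 hα) (π k)).trans ?_)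
    apply Finset.card_le_card_of_surjOn ψ
    intro t ht
    simp only [Finset.coe_filter, Finset.mem_univ, true_and, Set.mem_ofPred_eq] at ht
    obtain ⟨x, hx1, hx2⟩ := hs k t ht.symm
    exact ⟨x, by simp [hx1], hx2⟩
  · intro d
    have : FiniteDimensional K (weightedHomogeneousSubmodule K (unitWeight deg) d) :=
      homog_finite deg d
    have h1 := finrank_comap (rename ψ : MvPolynomial σ K →ₐ[K] MvPolynomial τ K).toLinearMap
      (map_homog (K := K) h hs d) (hpart_le (J := I) (d := push π d))
      (D := hpart deg (starIdeal deg (Ideal.comap (rename ψ) I)) d) (by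
        intro f
        constructor
        · rintro ⟨h2, h3⟩
          refine ⟨h3, ?_, rename_homog h h3⟩
          have h4 : f ∈ Ideal.comap (rename ψ) I :=
            starIdeal_le (deg := deg) (Ideal.comap (rename ψ) I) h2
          exact h4
        · rintro ⟨h2, h3, -⟩
          exact ⟨(mem_starIdeal_of_homog h2).2 h3, h2⟩)
    rw [finrank_homog, finrank_homog] at h1
    have h2 := hΔ.2 (push π d)
    rw [hfun_gam π hΔ' d]
    omega

end Star

end Pool.Agent.P8H33.CS
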